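import Mathlib.Algebra.Ring.Parity

/-!
# The condition on the degrees
-/

set_option autoImplicit false

namespace Pool.Agent.U231.HF

/-- Every odd divisor `m` of `N - 1` with `m ≤ s` satisfies `m B < N - 1`.

This is so if `s B < N - 1`, so for given `s` and `B` for all `N` with finitely many exceptions. It is
also so, for all `s`, if a power of `2` which divides `N - 1` is greater than `B`; in particular for
`B = 1` and all odd `N`. -/
def IsLarge (N s B : ℕ) : Prop := ∀ m : ℕ, Odd m → m ∣ N - 1 → m ≤ s → m * B + 1 < N

end Pool.Agent.U231.HF
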