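import Pool.Agent.U231.HF.Defs

/-!
# Conjugate classes and classes which become Hodge classes: definitions
-/

set_option autoImplicit false

open CategoryTheory AlgebraicGeometry

universe u

namespace Pool.Agent.U231.HF

open Pool.Agent.H914 Pool.Agent.H914.VarClass Pool.Agent.H914.VarClass.Obj
  Pool.Agent.H914.WeilCohomology Pool.Agent.Y121.AHS

variable {k : Type u} [Field k] {𝒱 : VarClass k} {ops : CycleOps 𝒱}

/-- The class `v` of degree `2 j` is a Hodge class and its image under the comparison isomorphism
`C` is a Hodge class of the theory `T'`. -/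
def IsConjugable {T T' : HodgeTheory ops} {L : Type} [Field L] [Algebra T.W.K L]
    [Algebra T'.W.K L] (C : Comparison T.W T'.W L) (X : 𝒱.Obj) (j : ℕ) (v : T.W.H X) : Prop :=
  IsHodge T X j v ∧ ∃ w, IsHodge T' X j w ∧ C.Maps j v (emL T'.W L w)

/-- The class `γ` of degree `2 j` in the cohomology `E` becomes a Hodge class of the theory `T` under
the comparison isomorphism `C`. (In the intended use `E` is the `ℓ`-adic cohomology of the varieties
over `k` and `T` is the cohomology `H(ρ X, ℚ)`, where `ρ` is an embedding of `k` into the complex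
numbers.) -/
def BecomesHodge {E : WeilCohomology.{u, 0} ops} {T : HodgeTheory ops} [Algebra T.W.K E.K]
    (C : Comparison E T.W E.K) (X : 𝒱.Obj) (j : ℕ) (γ : E.H X) : Prop :=
  ∃ x, IsHodge T X j x ∧ C.Maps j γ (emL T.W E.K x)

end Pool.Agent.U231.HF
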