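import Pool.Agent.Y121.AHS.Defs

/-!
# Morphisms of Hodge structures: definitions
-/

set_option autoImplicit false

namespace Pool.Agent.U231.HF

open Pool.Agent.Y121.AHS

variable {K V V' W : Type} [Field K] [Algebra K ℂ] [Ring V] [Algebra K V] [Ring V'] [Algebra K V']
  [Ring W] [Algebra K W]

/-- The linear map `f` is a morphism of Hodge structures `V → V'(r)`: with complex coefficients it
maps the elements of type `(p, q)` to elements of type `(p + r, q + r)`. -/
def IsHodgeMap (F : ℤ → ℤ → Submodule ℂ (Ext K ℂ V)) (F' : ℤ → ℤ → Submodule ℂ (Ext K ℂ V'))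
    (r : ℤ) (f : V →ₗ[K] V') : Prop :=
  ∀ p q : ℤ, ∀ x ∈ F p q, extMap K ℂ f x ∈ F' (p + r) (q + r)

/-- Every morphism of Hodge structures `f : V → V'(j - d)` is of the form
`x ↦ push (c · pull x)` with an element `c` with the property `P j`. -/
def AllGivenBy (F : ℤ → ℤ → Submodule ℂ (Ext K ℂ V)) (F' : ℤ → ℤ → Submodule ℂ (Ext K ℂ V'))
    (d : ℕ) (pull : V →ₐ[K] W) (push : W →ₗ[K] V') (P : ℕ → W → Prop) : Prop :=
  ∀ (j : ℕ) (f : V →ₗ[K] V'), IsHodgeMap F F' (j - d) f →
    ∃ c, P j c ∧ ∀ x, f x = push (c * pull x)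

end Pool.Agent.U231.HF
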