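import Pool.Agent.U231.HF.Mor
import Pool.Agent.U231.HF.MapDefs

/-!
# Morphisms of Hodge structures and absolutely Hodge correspondences: the theorem
-/

set_option autoImplicit false

open CategoryTheory AlgebraicGeometry TensorProduct

universe u

namespace Pool.Agent.U231.HF

open Pool.Agent.H914 Pool.Agent.H914.VarClass Pool.Agent.H914.VarClass.Obj
  Pool.Agent.H914.WeilCohomology Pool.Agent.Y121 Pool.Agent.Y121.AHS Pool.Agent.Y133.Half
  Pool.Agent.Y129

variable {k : Type u} [Field k] {𝒱 : VarClass k} {ops : CycleOps 𝒱} {T : HodgeTheory ops}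

theorem morphism_iff {X Y : 𝒱.Obj} {r : ℤ} {f : T.W.H X →ₗ[T.W.K] T.W.H Y} :
    IsHodgeMorphism T X Y r f ↔ ∀ p q, ∀ x ∈ (toH T).pq X p q,
      bc (T := toH T) f x ∈ (toH T).pq Y (p + r) (q + r) := Iff.rfl

theorem full_iff_hodge (D : Full.Conjugates T) (X Y : 𝒱.Obj) :
    (∀ (j : ℕ) (f : T.W.H X →ₗ[T.W.K] T.W.H Y), IsHodgeMorphism T X Y (j - X.dim) f →
      ∃ c, Full.IsAbsHodge D (X.prod Y) j c ∧ T.W.corr c = f) ↔
      ∀ j c, IsHodge T (X.prod Y) j c → Full.IsAbsHodge D (X.prod Y) j c := by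
  constructor
  · intro h j c hc
    obtain ⟨c', h1, h2⟩ := h j (T.W.corr c) (morphism_of_hodge (T := toH T) hc)
    have h3 : c - c' = 0 := by
      apply corr_inj
      apply LinearMap.ext
      intro x
      have h4 : T.W.corr c' x = T.W.corr c x := by rw [h2]
      have h5 : T.W.corr (c - c') x + T.W.corr c' x = T.W.corr c x := by
        rw [← LinearMap.add_apply, ← corr_add, sub_add_cancel]
      rw [h4] at h5
      rw [add_eq_right.1 h5, LinearMap.zero_apply]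
    rw [sub_eq_zero.1 h3]
    exact h1
  · intro h j f hf
    obtain ⟨c, rfl⟩ := exists_corr f
    exact ⟨c, h j c (hodge_of_morphism (T := toH T) hf), rfl⟩

/-- isomorphic varieties -/
theorem hodge_abs_iso (D : Full.Conjugates T) {X Y : 𝒱.Obj} (i : X ≅ Y)
    (h : ∀ j c, IsHodge T X j c → Full.IsAbsHodge D X j c) :
    ∀ j c, IsHodge T Y j c → Full.IsAbsHodge D Y j c := by
  intro j c hc
  have h1 : IsHodge T X j (T.W.map i.hom c) := (AH.hodgePred (toH T)).map i.hom hc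
  have h2 := Full.isAbsHodge_iff.1 ((AH.absPred (Full.toD D)).map i.inv
    (Full.isAbsHodge_iff.2 (h j _ h1)))
  have h3 : T.W.map i.inv (T.W.map i.hom c) = c := by
    rw [← T.W.map_comp, i.inv_hom_id, T.W.map_id]
  have h4 : Full.IsAbsHodge D Y j (T.W.map i.inv (T.W.map i.hom c)) := h2
  rwa [h3] at h4

/-- interchange of the factors -/
noncomputable def interchange (A V A' V' : 𝒱.Obj) :
    (A.prod V).prod (A'.prod V') ≅ (A.prod A').prod (V.prod V') where
  hom := Obj.lift (Obj.lift (fst _ _ ≫ fst _ _) (snd _ _ ≫ fst _ _))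
    (Obj.lift (fst _ _ ≫ snd _ _) (snd _ _ ≫ snd _ _))
  inv := Obj.lift (Obj.lift (fst _ _ ≫ fst _ _) (snd _ _ ≫ fst _ _))
    (Obj.lift (fst _ _ ≫ snd _ _) (snd _ _ ≫ snd _ _))
  hom_inv_id := by
    refine prod_ext (prod_ext ?_ ?_) (prod_ext ?_ ?_) <;> simp
  inv_hom_id := by
    refine prod_ext (prod_ext ?_ ?_) (prod_ext ?_ ?_) <;> simp

theorem exists_iso {ι : Type} (A A' : ι → 𝒱.Obj) (Z Z' : 𝒱.Obj) : ∀ L : List ι,
    Nonempty ((productOf A Z L).prod (productOf A' Z' L) ≅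
      productOf (fun i => (A i).prod (A' i)) (Z.prod Z') L)
  | [] => ⟨Iso.refl _⟩
  | i :: L => by
    obtain ⟨e⟩ := exists_iso A A' Z Z' L
    exact ⟨(interchange (A i) (productOf A Z L) (A' i) (productOf A' Z' L)).trans
      (prodIso (Iso.refl _) e)⟩

variable {ι : Type} {N s : ι → ℕ} {A A' : ι → 𝒱.Obj} {B : ℕ} {Z Z' : 𝒱.Obj}

/-- **Full faithfulness.** -/
theorem full_iff (D : Full.Conjugates T)
    (hX : AreFermatFactors T N s (fun i => (A i).prod (A' i))) (hB : 0 < B)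
    (hZ : HasPieces T B (Z.prod Z')) (hN : ∀ i, IsLarge (N i) (s i) B) {L : List ι} (hL : L.Nodup) :
    (∀ (j : ℕ) (f : T.W.H (productOf A Z L) →ₗ[T.W.K] T.W.H (productOf A' Z' L)),
      IsHodgeMorphism T (productOf A Z L) (productOf A' Z' L) (j - (productOf A Z L).dim) f →
      ∃ c, Full.IsAbsHodge D ((productOf A Z L).prod (productOf A' Z' L)) j c ∧
        T.W.corr c = f) ↔
      ∀ (j : ℕ) (f : T.W.H Z →ₗ[T.W.K] T.W.H Z'), IsHodgeMorphism T Z Z' (j - Z.dim) f →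
        ∃ c, Full.IsAbsHodge D (Z.prod Z') j c ∧ T.W.corr c = f := by
  rw [full_iff_hodge, full_iff_hodge, ← hodge_abs_iff D hX hB hZ hN hL]
  obtain ⟨e⟩ := exists_iso A A' Z Z' L
  exact ⟨hodge_abs_iso D e, hodge_abs_iso D e.symm⟩

theorem allGiven_iff (D : Full.Conjugates T) (X Y : 𝒱.Obj) :
    AllGivenBy (K := T.W.K) (V := T.W.H X) (V' := T.W.H Y) (T.pq X) (T.pq Y) X.dim
      (T.W.map (fst X Y)) (T.W.push (snd X Y)) (Full.IsAbsHodge D (X.prod Y)) ↔
      ∀ (j : ℕ) (f : T.W.H X →ₗ[T.W.K] T.W.H Y), IsHodgeMorphism T X Y (j - X.dim) f →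
        ∃ c, Full.IsAbsHodge D (X.prod Y) j c ∧ T.W.corr c = f := by
  constructor
  · intro h j f hf
    obtain ⟨c, h1, h2⟩ := h j f hf
    exact ⟨c, h1, LinearMap.ext fun x => (h2 x).symm⟩
  · intro h j f hf
    obtain ⟨c, h1, h2⟩ := h j f hf
    exact ⟨c, h1, fun x => by rw [← h2]; rfl⟩

end Pool.Agent.U231.HF
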