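import Pool.Agent.U231.HF.Fin
import Pool.Agent.U231.HF.EmbDefs

/-!
# Conjugate classes and classes which become Hodge classes
-/

set_option autoImplicit false

open CategoryTheory AlgebraicGeometry TensorProduct

universe u

namespace Pool.Agent.U231.HF

open Pool.Agent.H914 Pool.Agent.H914.VarClass Pool.Agent.H914.VarClass.Obj
  Pool.Agent.H914.WeilCohomology Pool.Agent.Y121 Pool.Agent.Y121.AHS Pool.Agent.Y133.Half

variable {k : Type u} [Field k] {𝒱 : VarClass k} {ops : CycleOps 𝒱}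

/-- the identity -/
def cmpRefl (V : WeilCohomology.{u, 0} ops) : AH.Comparison V V where
  s := RingEquiv.refl _
  c := 1
  ne := one_ne_zero
  e X := RingEquiv.refl _
  semi _ _ _ := rfl
  gr := Iff.rfl
  nat _ _ := rfl
  cyc {X j z} _ := by
    rw [one_pow, one_smul]
    rfl
  tr X a := by
    rw [one_pow, one_mul]
    rfl

section conj

variable {T T' : HodgeTheory ops} {L : Type} [Field L] [Algebra T.W.K L] [Algebra T'.W.K L]
  (C : Comparison T.W T'.W L)

theorem isBoth_iff {X : 𝒱.Obj} {j : ℕ} {v : T.W.H X} :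
    IsBoth (T := toH T) (T' := toH T') (cmpRefl (baseW T.W L)) (toC C) X j v ↔
      IsConjugable C X j v := by
  constructor
  · rintro ⟨h1, γ, h2, w, hw, h3⟩
    refine ⟨h1, w, hw, ?_⟩
    have h4 : γ = AH.em T.W L v := by
      have h5 : γ = (1 : (baseW T.W L).K) ^ j • AH.em T.W L v := h2
      rw [h5, one_pow, one_smul]
    rw [h4] at h3
    exact h3
  · rintro ⟨h1, w, hw, h3⟩
    refine ⟨h1, AH.em T.W L v, ?_, w, hw, h3⟩
    change AH.em T.W L v = (1 : (baseW T.W L).K) ^ j • AH.em T.W L v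
    rw [one_pow, one_smul]

variable {ι : Type} {N s : ι → ℕ} {X : ι → 𝒱.Obj} {B : ℕ} {Z : 𝒱.Obj}

theorem conj_span (hX : AreFermatFactors T N s X) (hB : 0 < B) (hZ : HasPieces T B Z)
    (hN : ∀ i, IsLarge (N i) (s i) B) {L' : List ι} (hL : L'.Nodup) {j : ℕ}
    {c : T.W.H (productOf X Z L')} (hc : IsConjugable C (productOf X Z L') j c) :
    IsExtSum T.W X Z (fun z => ∃ j, IsConjugable C Z j z) L' c := by
  have : ∀ i, NeZero (N i) := fun i => ⟨(hX.prime i).ne_zero⟩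
  obtain ⟨S⟩ := hX.exists_data hB hN (pieces_of hZ)
  have h1 := S.span_all (bothPred (T := toH T) (T' := toH T') (cmpRefl (baseW T.W L)) (toC C))
    (fun Y j c hc => hc.1) hL (ClassPred.sp_of ((isBoth_iff C).2 hc))
  refine span_refine (fun z hz => ?_) L' h1
  obtain ⟨j, hj⟩ := hz
  exact Submodule.subset_span ⟨j, (isBoth_iff C).1 hj⟩

theorem conj_iff (hX : AreFermatFactors T N s X) (hB : 0 < B) (hZ : HasPieces T B Z)
    (hN : ∀ i, IsLarge (N i) (s i) B) {L' : List ι} (hL : L'.Nodup) :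
    (∀ j v, IsHodge T (productOf X Z L') j v → IsConjugable C (productOf X Z L') j v) ↔
      ∀ j v, IsHodge T Z j v → IsConjugable C Z j v := by
  have : ∀ i, NeZero (N i) := fun i => ⟨(hX.prime i).ne_zero⟩
  obtain ⟨S⟩ := hX.exists_data hB hN (pieces_of hZ)
  have h1 := S.transfer (AH.hodgePred (toH T))
    (bothPred (T := toH T) (T' := toH T') (cmpRefl (baseW T.W L)) (toC C))
    (fun Y j c hc => hc) hL
  constructor
  · intro h j c hc
    exact (isBoth_iff C).1 (h1.1 (fun j c hc => (isBoth_iff C).2 (h j c hc)) j c hc)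
  · intro h j c hc
    exact (isBoth_iff C).1 (h1.2 (fun j c hc => (isBoth_iff C).2 (h j c hc)) j c hc)

end conj

section emb

variable {E : WeilCohomology.{u, 0} ops}

theorem exists_em {X : 𝒱.Obj} (γ : (baseW E E.K).H X) : ∃ γ' : E.H X, AH.em E E.K γ' = γ := by
  have key : ∀ γ : E.K ⊗[E.K] E.H X, ∃ γ' : E.H X, (1 : E.K) ⊗ₜ[E.K] γ' = γ := by
    intro γ
    induction γ using TensorProduct.induction_on with
    | zero => exact ⟨0, TensorProduct.tmul_zero _ _⟩
    | add x y hx hy =>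
      obtain ⟨a, rfl⟩ := hx
      obtain ⟨b, rfl⟩ := hy
      exact ⟨a + b, TensorProduct.tmul_add _ _ _⟩
    | tmul l b => exact ⟨l • b, by rw [← TensorProduct.smul_tmul, smul_eq_mul, mul_one]⟩
  exact key γ

theorem becomes_iff {T : HodgeTheory ops} [Algebra T.W.K E.K] (C : Comparison E T.W E.K)
    {X : 𝒱.Obj} {j : ℕ} {γ : E.H X} :
    Becomes (T := toH T) (toC C) X j (AH.em E E.K γ) ↔ BecomesHodge C X j γ := Iff.rfl

theorem both_forall {T T' : HodgeTheory ops} [Algebra T.W.K E.K] [Algebra T'.W.K E.K]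
    (C : Comparison E T.W E.K) (C' : Comparison E T'.W E.K) (X : 𝒱.Obj) :
    (∀ j γ, BecomesHodge C X j γ → BecomesHodge C' X j γ) ↔
      ∀ j x, IsHodge T X j x →
        IsBoth (T := toH T) (T' := toH T') (toC C) (toC C') X j x := by
  constructor
  · intro h j x hx
    obtain ⟨γ, hγ⟩ := (C.iso X).1.2 (twL C.c j (emL T.W E.K x))
    obtain ⟨γ', rfl⟩ := exists_em (E := E) (X := X) γ
    exact ⟨hx, AH.em E E.K γ', hγ, h j γ' ⟨x, hx, hγ⟩⟩
  · rintro h j γ ⟨x, hx, hγ⟩
    obtain ⟨-, γ', h1, h2⟩ := h j x hx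
    have h3 : γ' = AH.em E E.K γ := (C.iso X).1.1 (h1.trans hγ.symm)
    rw [h3] at h2
    exact h2

variable {ι : Type} {N s : ι → ℕ} {X : ι → 𝒱.Obj} {B : ℕ} {Z : 𝒱.Obj}

theorem becomes_two {T T' : HodgeTheory ops} [Algebra T.W.K E.K] [Algebra T'.W.K E.K]
    (C : Comparison E T.W E.K) (C' : Comparison E T'.W E.K)
    (hX : AreFermatFactors T N s X) (hB : 0 < B) (hZ : HasPieces T B Z)
    (hN : ∀ i, IsLarge (N i) (s i) B) {L : List ι} (hL : L.Nodup) :
    (∀ j γ, BecomesHodge C (productOf X Z L) j γ → BecomesHodge C' (productOf X Z L) j γ) ↔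
      ∀ j γ, BecomesHodge C Z j γ → BecomesHodge C' Z j γ := by
  have : ∀ i, NeZero (N i) := fun i => ⟨(hX.prime i).ne_zero⟩
  obtain ⟨S⟩ := hX.exists_data hB hN (pieces_of hZ)
  rw [both_forall, both_forall]
  exact S.transfer (AH.hodgePred (toH T))
    (bothPred (T := toH T) (T' := toH T') (toC C) (toC C')) (fun Y j c hc => hc) hL

/-- **Classes which become Hodge classes under one embedding.** -/
theorem becomes_all {R : Type u} (T : R → HodgeTheory ops) [∀ ρ, Algebra (T ρ).W.K E.K]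
    (C : ∀ ρ, Comparison E (T ρ).W E.K) (ρ₀ : R)
    (hX : AreFermatFactors (T ρ₀) N s X) (hB : 0 < B) (hZ : HasPieces (T ρ₀) B Z)
    (hN : ∀ i, IsLarge (N i) (s i) B) {L : List ι} (hL : L.Nodup) :
    (∀ j γ, BecomesHodge (C ρ₀) (productOf X Z L) j γ →
      ∀ ρ, BecomesHodge (C ρ) (productOf X Z L) j γ) ↔
      ∀ j γ, BecomesHodge (C ρ₀) Z j γ → ∀ ρ, BecomesHodge (C ρ) Z j γ := by
  constructor
  · intro h j γ hγ ρ
    exact (becomes_two (C ρ₀) (C ρ) hX hB hZ hN hL).1 (fun j γ hγ => h j γ hγ ρ) j γ hγ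
  · intro h j γ hγ ρ
    exact (becomes_two (C ρ₀) (C ρ) hX hB hZ hN hL).2 (fun j γ hγ => h j γ hγ ρ) j γ hγ

end emb

end Pool.Agent.U231.HF
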