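import Mathlib
import Pool.Agent.U231.HF.Large

/-!
# The condition on the degrees: lemmas
-/

set_option autoImplicit false

namespace Pool.Agent.U231.HF

theorem isLarge_of_lt {N s B : ℕ} (h : s * B + 1 < N) : IsLarge N s B :=
  fun _ _ _ h3 => (Nat.add_le_add_right (Nat.mul_le_mul_right B h3) 1).trans_lt h

theorem isLarge_of_pow {N s B e : ℕ} (hN : 1 < N) (he : 2 ^ e ∣ N - 1) (hB : B < 2 ^ e) :
    IsLarge N s B := by
  intro m h1 h2 _
  have h3 : Nat.Coprime m (2 ^ e) := (Nat.coprime_two_right.2 h1).pow_right e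
  have h4 : m * 2 ^ e ∣ N - 1 := h3.mul_dvd_of_dvd_of_dvd h2 he
  have h5 : m * 2 ^ e ≤ N - 1 := Nat.le_of_dvd (by omega) h4
  have h6 : m * B < m * 2 ^ e := Nat.mul_lt_mul_of_pos_left hB h1.pos
  omega

theorem isLarge_one {N s : ℕ} (hN : 1 < N) (h : Odd N) : IsLarge N s 1 :=
  isLarge_of_pow (e := 1) hN (by
    rw [pow_one]
    obtain ⟨m, hm⟩ := h
    exact ⟨m, by omega⟩) (by norm_num)

theorem IsLarge.one {N s B : ℕ} (h : IsLarge N s B) (hB : 0 < B) : IsLarge N s 1 := by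
  intro m h1 h2 h3
  exact (Nat.add_le_add_right (Nat.mul_le_mul_left m hB) 1).trans_lt (h m h1 h2 h3)

end Pool.Agent.U231.HF
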