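import Pool.Agent.U231.FT.Ari
import Pool.Agent.U231.HF.LargeL

/-!
# Varieties of Fermat type in Hodge theory: the arithmetic lemma
-/

set_option autoImplicit false

open Finset

namespace Pool.Agent.U231.HF

open Pool.Agent.H916R2 Pool.Agent.U231.FT

theorem neg_mod_two (x : ZMod 2) : -x = x := by
  revert x
  decide

variable {N : ℕ} [Fact N.Prime]

/-- **The arithmetic lemma**: the group which fixes the function `t ↦ S (t)` of a multiset which is not
symmetric is of odd order, at most the number of elements of the multiset. -/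
theorem card_of_ne {a : Multiset (ZMod N)} {s : ℕ} (hs : a.card ≤ s)
    (H : Subgroup (ZMod N)ˣ) (hH : ∀ h ∈ H, ∀ t : (ZMod N)ˣ,
      sawSum a ((t : ZMod N) * (h : (ZMod N)ˣ)) = sawSum a t) (hne : a.map Neg.neg ≠ a) :
    Odd (Nat.card H) ∧ Nat.card H ≤ s := by
  classical
  have hinv : ∀ h ∈ H, ∀ x, oddPart a (((h⁻¹ : (ZMod N)ˣ) : ZMod N) * x) = oddPart a x := by
    intro h hh
    let f : ZMod N → ℂ := fun x =>
      ((oddPart a (((h⁻¹ : (ZMod N)ˣ) : ZMod N) * x) - oddPart a x : ℤ) : ℂ)
    have hf : f = 0 := by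
      apply eq_zero_of_saw
      · intro x
        simp only [f, oddPart, mul_neg, neg_neg]
        push_cast
        ring
      · intro t
        have h1 : ∑ x, (oddPart a (((h⁻¹ : (ZMod N)ˣ) : ZMod N) * x) - oddPart a x) *
            saw ((t : ZMod N) * x) = 0 := by
          simp only [sub_mul, sum_sub_distrib]
          rw [sum_oddPart, ← Equiv.sum_comp (Units.mulLeft h)]
          have h2 : ∀ x : ZMod N, oddPart a (((h⁻¹ : (ZMod N)ˣ) : ZMod N) * (Units.mulLeft h x)) *
              saw ((t : ZMod N) * (Units.mulLeft h x)) =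
              oddPart a x * saw (((t * h : (ZMod N)ˣ) : ZMod N) * x) := by
            intro x
            rw [Units.mulLeft_apply, ← mul_assoc, ← mul_assoc, Units.val_mul,
              ← Units.val_mul h⁻¹, inv_mul_cancel, Units.val_one, one_mul]
          rw [sum_congr rfl fun x _ => h2 x, sum_oddPart, Units.val_mul, hH h hh t, sub_self]
        have h2 := congrArg (fun z : ℤ => (z : ℂ)) h1
        push_cast at h2
        simp only [f]
        push_cast
        exact h2
    intro x
    have h3 := congrFun hf x
    simp only [f, Pi.zero_apply, Int.cast_eq_zero] at h3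
    exact sub_eq_zero.1 h3
  obtain ⟨x, hx⟩ : ∃ x, 0 < oddPart a x := by
    by_contra hcon
    push Not at hcon
    apply hne
    ext x
    have h1 : oddPart a x = 0 := by
      apply le_antisymm (hcon x)
      have h2 := hcon (-x)
      have h3 : oddPart a (-x) = -oddPart a x := by
        rw [oddPart, oddPart, neg_neg]
        ring
      omega
    rw [oddPart, sub_eq_zero] at h1
    have h2 : (a.map Neg.neg).count x = a.count (-x) := by
      conv_lhs => rw [← neg_neg x]
      exact Multiset.count_map_eq_count' _ _ neg_injective _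
    rw [h2]
    exact_mod_cast h1.symm
  have hx0 : x ≠ 0 := by
    rintro rfl
    rw [oddPart, neg_zero, sub_self] at hx
    exact absurd hx (lt_irrefl _)
  constructor
  · by_contra hev
    rw [Nat.not_odd_iff_even] at hev
    have : Fact (Nat.Prime 2) := ⟨Nat.prime_two⟩
    obtain ⟨h, hh⟩ := exists_prime_orderOf_dvd_card' (G := H) 2 hev.two_dvd
    have h6 : ((h : (ZMod N)ˣ) : ZMod N) * ((h : (ZMod N)ˣ) : ZMod N) = 1 := by
      have h7 : h ^ 2 = 1 := by
        rw [← hh]
        exact pow_orderOf_eq_one h
      have h8 := congrArg (fun z : H => ((z : (ZMod N)ˣ) : ZMod N)) h7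
      rw [pow_two] at h8
      exact h8
    have h9 : ((h : (ZMod N)ˣ) : ZMod N) = -1 := by
      rcases mul_self_eq_one_iff.1 h6 with h10 | h10
      · exfalso
        have h11 : h = 1 := Subtype.ext (Units.ext h10)
        rw [h11, orderOf_one] at hh
        exact absurd hh (by norm_num)
      · exact h10
    have h12 := hinv ((h : (ZMod N)ˣ)⁻¹) (H.inv_mem h.2) x
    rw [inv_inv, h9, neg_one_mul] at h12
    have h13 : oddPart a (-x) = -oddPart a x := by
      rw [oddPart, oddPart, neg_neg]
      ring
    omega
  · change (H : Set (ZMod N)ˣ).ncard ≤ s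
    have h2 : (H : Set (ZMod N)ˣ).ncard ≤ ((a.toFinset : Finset (ZMod N)) : Set (ZMod N)).ncard := by
      refine Set.ncard_le_ncard_of_injOn (fun h : (ZMod N)ˣ => (h : ZMod N) * x) ?_ ?_
        (Set.toFinite _)
      · intro h hh
        have h3 := hinv h⁻¹ (H.inv_mem hh) x
        rw [inv_inv] at h3
        rw [Finset.mem_coe, Multiset.mem_toFinset]
        by_contra h5
        rw [← h3, oddPart, Multiset.count_eq_zero_of_notMem h5] at hx
        have h6 : (0 : ℤ) ≤ (a.count (-((h : ZMod N) * x)) : ℤ) := Int.natCast_nonneg _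
        push_cast at hx
        omega
      · intro h _ h' _ he
        exact Units.ext (mul_right_cancel₀ hx0 he)
    rw [Set.ncard_coe_finset] at h2
    exact h2.trans ((Multiset.toFinset_card_le a).trans hs)

theorem card_mul_index_eq (H : Subgroup (ZMod N)ˣ) : Nat.card H * H.index = N - 1 := by
  rw [H.card_mul_index, Nat.card_eq_fintype_card, ZMod.card_units_eq_totient,
    Nat.totient_prime (Fact.out (p := N.Prime))]

/-- The arithmetic lemma for groups of index at most `B`. -/
theorem symm_of_index' {a : Multiset (ZMod N)} {s B : ℕ} (hs : a.card ≤ s)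
    (H : Subgroup (ZMod N)ˣ) (hH : ∀ h ∈ H, ∀ t : (ZMod N)ˣ,
      sawSum a ((t : ZMod N) * (h : (ZMod N)ˣ)) = sawSum a t)
    (hB : H.index ≤ B) (hN : IsLarge N s B) : a.map Neg.neg = a := by
  by_contra hne
  obtain ⟨h1, h2⟩ := card_of_ne hs H hH hne
  have h3 := card_mul_index_eq H
  have h5 := hN (Nat.card H) h1 ⟨H.index, h3.symm⟩ h2
  have h6 : Nat.card H * H.index ≤ Nat.card H * B := Nat.mul_le_mul_left _ hB
  have := (Fact.out (p := N.Prime)).two_le
  omega

/-- The arithmetic lemma for a given group. -/
theorem symm_of_subgroup {a : Multiset (ZMod N)} {s : ℕ} (hs : a.card ≤ s)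
    (H : Subgroup (ZMod N)ˣ) (hH : ∀ h ∈ H, ∀ t : (ZMod N)ˣ,
      sawSum a ((t : ZMod N) * (h : (ZMod N)ˣ)) = sawSum a t)
    (hN : N = 2 ∨ Even ((N - 1) / H.index) ∨ s * H.index + 1 < N) : a.map Neg.neg = a := by
  by_contra hne
  obtain ⟨h1, h2⟩ := card_of_ne hs H hH hne
  have h3 := card_mul_index_eq H
  have hpos : 0 < H.index := by
    rcases Nat.eq_zero_or_pos H.index with h | h
    · have := (Fact.out (p := N.Prime)).two_le
      rw [h, mul_zero] at h3
      omega
    · exact h
  rcases hN with h | h | h
  · subst h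
    apply hne
    calc a.map Neg.neg = a.map id := Multiset.map_congr rfl fun x _ => neg_mod_two x
      _ = a := Multiset.map_id a
  · rw [← h3, Nat.mul_div_cancel _ hpos] at h
    exact (Nat.not_even_iff_odd.2 h1) h
  · have h6 : Nat.card H * H.index ≤ s * H.index := Nat.mul_le_mul_right _ h2
    omega

end Pool.Agent.U231.HF
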