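import Pool.Agent.U231.HF.Van
import Pool.Agent.Y121.AH.Gop

/-!
# Varieties of Fermat type in Hodge theory: the action of the automorphisms of the field of complex
numbers
-/

set_option autoImplicit false

open CategoryTheory AlgebraicGeometry Finset TensorProduct

universe u

namespace Pool.Agent.U231.HF

open Pool.Agent.H914 Pool.Agent.H914.VarClass Pool.Agent.H914.VarClass.Obj
  Pool.Agent.H914.WeilCohomology Pool.Agent.H281R3.HT Pool.Agent.TH125.Gal
  Pool.Agent.U231.FT Pool.Agent.Y121.AH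

variable {k : Type u} [Field k] {𝒱 : VarClass k} {ops : CycleOps 𝒱}

section

variable {K L V : Type*} [Field K] [Field L] [Algebra K L] [AddCommGroup V] [Module K V]

theorem sig_one (x : L ⊗[K] V) : sig (1 : L ≃ₐ[K] L) x = x := by
  induction x using TensorProduct.induction_on with
  | zero => rw [map_zero]
  | add x y hx hy => rw [map_add, hx, hy]
  | tmul l b => rw [sig_tmul]; rfl

theorem sig_comp (g h : L ≃ₐ[K] L) (x : L ⊗[K] V) : sig (g * h) x = sig g (sig h x) := by
  induction x using TensorProduct.induction_on with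
  | zero => rw [map_zero, map_zero, map_zero]
  | add x y hx hy => rw [map_add, map_add, map_add, hx, hy]
  | tmul l b => rw [sig_tmul, sig_tmul, sig_tmul]; rfl

end

/-- the semilinear action -/
noncomputable def sem (T : HodgeTheory ops) : Sem (CW T) (ℂ ≃ₐ[T.W.K] ℂ) where
  τ g := (g : ℂ →+* ℂ)
  σ g X := (sig g : ℂ ⊗[T.W.K] T.W.H X →ₗ[T.W.K] ℂ ⊗[T.W.K] T.W.H X).toAddMonoidHom
  one x := sig_one x
  comp g h _ x := sig_comp g h x
  τ_one _ := rfl
  τ_comp _ _ _ := rfl
  smul g _ c a := sig_smul g c a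
  mul g _ a b := sig_mul g a b
  map g _ _ f b := sig_map g (T.W.map f) b
  G X := gop T X
  G_mul a b := gop_mul a b
  G_map f b := gop_map f b

variable {T : HodgeTheory ops} {X Y Z : 𝒱.Obj}

/-- rational classes are fixed -/
theorem sig_em (g : ℂ ≃ₐ[T.W.K] ℂ) (x : T.W.H X) :
    (sem T).σ g X (em T.W ℂ x) = em T.W ℂ x := by
  have h1 : sig g ((1 : ℂ) ⊗ₜ[T.W.K] x) = (1 : ℂ) ⊗ₜ[T.W.K] x := by
    rw [sig_tmul, map_one]
  exact h1

/-- Hodge classes -/
theorem isFix_of_hodge {j : ℕ} {x : T.W.H X} (hx : IsHodge T X j x) :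
    IsFix (sem T) X (em T.W ℂ x) := by
  intro g
  rw [sig_em]
  exact gop_hodge hx

theorem hodge_of_fix {j : ℕ} {x : T.W.H X} (hx : x ∈ T.W.gr X (2 * j))
    (h : (sem T).G X (em T.W ℂ x) = em T.W ℂ x) : IsHodge T X j x :=
  isHodge_of_fix hx h

/-- the base change of a linear map -/
noncomputable def bc (ε : T.W.H Y →ₗ[T.W.K] T.W.H Z) : (CW T).H Y →ₗ[(CW T).K] (CW T).H Z :=
  (ε.baseChange ℂ : ℂ ⊗[T.W.K] T.W.H Y →ₗ[ℂ] ℂ ⊗[T.W.K] T.W.H Z)

theorem bc_em (ε : T.W.H Y →ₗ[T.W.K] T.W.H Z) (x : T.W.H Y) :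
    bc ε (em T.W ℂ x) = em T.W ℂ (ε x) := by
  have h1 : ε.baseChange ℂ ((1 : ℂ) ⊗ₜ[T.W.K] x) = (1 : ℂ) ⊗ₜ[T.W.K] ε x :=
    LinearMap.baseChange_tmul _ _ _
  exact h1

theorem bc_idT (ε : T.W.H Y →ₗ[T.W.K] T.W.H Z) (x : T.W.H (X.prod Y)) :
    idT X (bc ε) (em T.W ℂ x) = em T.W ℂ (idT X ε x) := by
  refine kun_ext (L := fun x => idT X (bc ε) (em T.W ℂ x)) (L' := fun x => em T.W ℂ (idT X ε x))
    ?_ ?_ ?_ x
  · intro a b
    rw [em_add, map_add]
  · intro a b
    rw [map_add, em_add]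
  · intro a z
    rw [em_mul, ← em_map, ← em_map, idT_apply, bc_em, idT_apply, em_mul, em_map, em_map]

/-- eigenvectors of `G` -/
theorem mem_of_gop {e : ℤ} {x : (CW T).H X}
    (h : gop T X x = (2 : (CW T).K) ^ e • x) : x ∈ ⨆ q : ℤ, T.pq X (q + e) q := by
  classical
  set c : (CW T).K := (2 : (CW T).K) ^ e with hc
  set N : Module.End (CW T).K ((CW T).H X) := dia (isInternal T X) fun r =>
    if r.1 - r.2 = e then 0 else ((2 : (CW T).K) ^ (r.1 - r.2) - c)⁻¹ with hN
  set E : Module.End (CW T).K ((CW T).H X) := dia (isInternal T X) fun r =>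
    if r.1 - r.2 = e then 1 else 0 with hE
  have h1 : ∀ x, N (gop T X x) - c • N x + E x = x := by
    intro x
    refine pq_ind T (p := fun x => N (gop T X x) - c • N x + E x = x) ?_ ?_ ?_ x
    · intro a b x hx
      rw [gop_pq hx, map_smul, hN, hE, dia_apply (isInternal T X) _ (i := (a, b)) hx,
        dia_apply (isInternal T X) _ (i := (a, b)) hx]
      by_cases hab : a - b = e
      · simp [hab]
      · simp only [if_neg hab, zero_smul, add_zero]
        have h2 : (2 : (CW T).K) ^ (a - b) - c ≠ 0 := by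
          rw [sub_ne_zero]
          intro h3
          exact hab (two_zpow_inj h3)
        rw [smul_smul, smul_smul, ← sub_smul, ← sub_mul, mul_inv_cancel₀ h2, one_smul]
    · intro a b ha hb
      calc N (gop T X (a + b)) - c • N (a + b) + E (a + b)
          = (N (gop T X a) - c • N a + E a) + (N (gop T X b) - c • N b + E b) := by
            simp only [map_add, smul_add]; abel
        _ = a + b := by rw [ha, hb]
    · simp
  have h2 := h1 x
  rw [h, map_smul, sub_self, zero_add] at h2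
  rw [← h2]
  refine pq_ind T (p := fun x => E x ∈ (⨆ q : ℤ, T.pq X (q + e) q :
    Submodule (CW T).K ((CW T).H X))) ?_ ?_ ?_ x
  · intro a b x hx
    rw [hE, dia_apply (isInternal T X) _ (i := (a, b)) hx]
    by_cases hab : a - b = e
    · have h3 : a = b + e := by omega
      subst h3
      simp only [if_pos hab, one_smul]
      exact Submodule.mem_iSup_of_mem b hx
    · simp only [if_neg hab, zero_smul]
      exact Submodule.zero_mem _
  · intro x y hx hy; rw [map_add]; exact Submodule.add_mem _ hx hy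
  · rw [map_zero]; exact Submodule.zero_mem _

/-- the rational cohomology is the direct sum of Hodge substructures which are small or killed by
`ε` or contain no pure vectors -/
def Pieces (T : HodgeTheory ops) (B : ℕ) (Z : 𝒱.Obj) (ε : Module.End T.W.K (T.W.H Z)) : Prop :=
  ∃ (m : ℕ) (U : Fin m → Submodule T.W.K (T.W.H Z)), DirectSum.IsInternal U ∧
    ∀ i, (∀ y ∈ ((U i).baseChange ℂ : Submodule ℂ (ℂ ⊗[T.W.K] T.W.H Z)),
      (show ℂ ⊗[T.W.K] T.W.H Z from gop T Z y) ∈ (U i).baseChange ℂ) ∧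
      (Module.finrank ℂ ((U i).baseChange ℂ : Submodule ℂ (ℂ ⊗[T.W.K] T.W.H Z)) ≤ B ∨
        (∀ x ∈ U i, ε x = 0) ∨ ∀ y ∈ ((U i).baseChange ℂ : Submodule ℂ (ℂ ⊗[T.W.K] T.W.H Z)),
          IsPureS (sem T) Z (show (CW T).H Z from y) → y = 0)

/-- small pieces -/
theorem smallPieces {B : ℕ} {ε : Module.End T.W.K (T.W.H Z)} (h : Pieces T B Z ε) :
    SmallPieces (sem T) B Z (bc ε) := by
  classical
  obtain ⟨m, U, hU, hU2⟩ := h
  intro x' hε' hx' hpure
  obtain ⟨x, rfl⟩ : ∃ x : ℂ ⊗[T.W.K] T.W.H Z, (show (CW T).H Z from x) = x' := ⟨x', rfl⟩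
  have hx : x ≠ 0 := hx'
  have hε : ε.baseChange ℂ x = x := hε'
  -- the projectors
  let p : Fin m → Module.End T.W.K (T.W.H Z) := fun i =>
    (U i).subtype ∘ₗ (DirectSum.component T.W.K (Fin m) (fun i => U i) i) ∘ₗ
      (LinearEquiv.ofBijective (DirectSum.coeLinearMap U) hU).symm.toLinearMap
  have hpm : ∀ i y, p i y ∈ U i := fun i y => Submodule.coe_mem _
  have hpo : ∀ i j y, y ∈ U j → p i y = if i = j then y else 0 := by
    intro i j y hy
    have h1 : (LinearEquiv.ofBijective (DirectSum.coeLinearMap U) hU).symm y =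
        DirectSum.lof T.W.K (Fin m) (fun i => U i) j ⟨y, hy⟩ := by
      rw [LinearEquiv.symm_apply_eq]
      exact (DirectSum.coeLinearMap_lof U j ⟨y, hy⟩).symm
    change ((DirectSum.component T.W.K (Fin m) (fun i => U i) i)
      ((LinearEquiv.ofBijective (DirectSum.coeLinearMap U) hU).symm y) : T.W.H Z) = _
    rw [h1]
    split_ifs with h
    · subst h
      rw [DirectSum.component.lof_self]
    · rw [DirectSum.component.of, dif_neg (Ne.symm h)]
      rfl
  have hps : ∀ y, ∑ i, p i y = y := by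
    intro y
    have h1 : y ∈ ⨆ i, U i := hU.submodule_iSup_eq_top ▸ Submodule.mem_top
    induction h1 using Submodule.iSup_induction' with
    | mem i y hy =>
      rw [sum_congr rfl fun j _ => hpo j i y hy, sum_ite_eq' univ i, if_pos (mem_univ _)]
    | zero => simp
    | add y z _ _ hy hz =>
      rw [sum_congr rfl fun i _ => map_add (p i) y z, sum_add_distrib, hy, hz]
  let E : Fin m → Module.End ℂ (ℂ ⊗[T.W.K] T.W.H Z) := fun i => (p i).baseChange ℂ
  have hEs : ∀ y : ℂ ⊗[T.W.K] T.W.H Z, ∑ i, E i y = y := by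
    intro y
    induction y using TensorProduct.induction_on with
    | zero => simp
    | add y z hy hz =>
      rw [sum_congr rfl fun i _ => map_add (E i) y z, sum_add_distrib, hy, hz]
    | tmul l b =>
      simp only [E, LinearMap.baseChange_tmul]
      rw [← TensorProduct.tmul_sum, hps]
  have hEj : ∀ (j : Fin m) (y : ℂ ⊗[T.W.K] T.W.H Z),
      (show ℂ ⊗[T.W.K] T.W.H Z from ((p j).baseChange ℂ y)) ∈ (U j).baseChange ℂ := by
    intro j y
    induction y using TensorProduct.induction_on with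
    | zero => rw [map_zero]; exact Submodule.zero_mem _
    | add y z hy hz => rw [map_add]; exact Submodule.add_mem _ hy hz
    | tmul l b =>
      rw [LinearMap.baseChange_tmul]
      exact Submodule.tmul_mem_baseChange_of_mem l (hpm j b)
  have hkill : ∀ j, (∀ z ∈ U j, ε z = 0) →
      ∀ y ∈ ((U j).baseChange ℂ : Submodule ℂ (ℂ ⊗[T.W.K] T.W.H Z)), ε.baseChange ℂ y = 0 := by
    intro j hj y hy
    refine base_induction (P := fun y => ε.baseChange ℂ y = 0) ?_ ?_ ?_ hy
    · rw [map_zero]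
    · intro y z hy hz
      rw [map_add, hy, hz, add_zero]
    · intro l b hb
      rw [LinearMap.baseChange_tmul, hj b hb, TensorProduct.tmul_zero]
  have hEU : ∀ i j, ∀ y ∈ ((U j).baseChange ℂ : Submodule ℂ (ℂ ⊗[T.W.K] T.W.H Z)),
      E i y = if i = j then y else 0 := by
    intro i j y hy
    refine base_induction (P := fun y => E i y = if i = j then y else 0) ?_ ?_ ?_ hy
    · simp
    · intro y z hy hz
      rw [map_add, hy, hz]
      split_ifs <;> simp
    · intro l b hb
      simp only [E, LinearMap.baseChange_tmul, hpo i j b hb]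
      split_ifs <;> simp
  -- `G` respects the pieces
  have hG : ∀ j, ∀ y ∈ ((U j).baseChange ℂ : Submodule ℂ (ℂ ⊗[T.W.K] T.W.H Z)),
      (show ℂ ⊗[T.W.K] T.W.H Z from gop T Z y) ∈ (U j).baseChange ℂ := fun j => (hU2 j).1
  let E' : Fin m → Module.End (CW T).K ((CW T).H Z) := E
  have hcG : ∀ i (y : (CW T).H Z), E' i ((sem T).G Z y) = (sem T).G Z (E' i y) := by
    intro i y
    let g : Module.End ℂ (ℂ ⊗[T.W.K] T.W.H Z) := gop T Z
    have h3 : ∀ y : ℂ ⊗[T.W.K] T.W.H Z, E i (g y) = g (E i y) := by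
      intro y
      have h4 : g y = ∑ j, g (E j y) := by
        rw [← map_sum, hEs]
      have h5 : ∑ j, E i (g (E j y)) = ∑ j, if i = j then g (E j y) else 0 :=
        sum_congr rfl fun j _ => hEU i j _ (hG j _ (hEj j y))
      rw [h4, map_sum, h5, sum_ite_eq univ i, if_pos (mem_univ _)]
    exact h3 y
  have hcs : ∀ i g (y : (CW T).H Z), E' i ((sem T).σ g Z y) = (sem T).σ g Z (E' i y) := by
    intro i g y
    exact (sig_baseChange g (p i) y).symm
  have hpi : ∀ i, IsPureS (sem T) Z (E' i (show (CW T).H Z from x)) := by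
    intro i t
    obtain ⟨e, he⟩ := hpure t
    refine ⟨e, ?_⟩
    rw [← hcs, ← hcG, he, map_smul]
  have hE : ∃ i, Module.finrank ℂ ((U i).baseChange ℂ : Submodule ℂ (ℂ ⊗[T.W.K] T.W.H Z)) ≤ B ∧
      E i x ≠ 0 := by
    by_contra hcon
    push Not at hcon
    apply hx
    have h1 := congrArg (ε.baseChange ℂ) (hEs x)
    rw [map_sum, hε] at h1
    rw [← h1]
    refine sum_eq_zero fun i _ => ?_
    rcases (hU2 i).2 with h2 | h2 | h2
    · rw [hcon i h2, map_zero]
    · exact hkill i h2 _ (hEj i x)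
    · have h3 : E i x = 0 := h2 _ (hEj i x) (hpi i)
      rw [h3, map_zero]
  obtain ⟨i, hiB, hi⟩ := hE
  refine ⟨E i, hcs i, hcG i, ?_, hi⟩
  have h1 : LinearMap.range (E i) ≤ (U i).baseChange ℂ := by
    rintro _ ⟨y, rfl⟩
    exact hEj i y
  exact (Submodule.finrank_mono h1).trans hiB

end Pool.Agent.U231.HF
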