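import Pool.Agent.U231.HF.Main

/-!
# Algebraic classes, and classes which are Hodge classes for two Hodge theories
-/

set_option autoImplicit false

open CategoryTheory AlgebraicGeometry Finset TensorProduct

universe u

namespace Pool.Agent.U231.HF

open Pool.Agent.H914 Pool.Agent.H914.VarClass Pool.Agent.H914.VarClass.Obj
  Pool.Agent.H914.WeilCohomology Pool.Agent.H281R3.HT
  Pool.Agent.U231.FT Pool.Agent.Y121.AH Pool.Agent.Y133.Half

variable {k : Type u} [Field k] {𝒱 : VarClass k} {ops : CycleOps 𝒱}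

/-- algebraic classes -/
noncomputable def algPred (W : WeilCohomology.{u, 0} ops) : ClassPred W where
  P X j c := c ∈ W.gr X (2 * j) ∧ c ∈ algSpan W X
  gr hc := hc.1
  zero := ⟨Submodule.zero_mem _, Submodule.zero_mem _⟩
  add ha hb := ⟨Submodule.add_mem _ ha.1 hb.1, Submodule.add_mem _ ha.2 hb.2⟩
  smul r _ ha := ⟨Submodule.smul_mem _ r ha.1, Submodule.smul_mem _ r ha.2⟩
  cl {X j z} hz := ⟨W.cl_mem hz, Pool.Agent.TH125.Gal.alg_mem ⟨z, hz, rfl⟩⟩
  mul {X i j a b} ha hb := ⟨by rw [mul_add]; exact W.mul_mem ha.1 hb.1,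
    Pool.Agent.TH125.Gal.algSpan_mul ha.2 hb.2⟩
  map f _ _ ha := ⟨W.map_mem f ha.1, Pool.Agent.TH125.Gal.algSpan_map f ha.2⟩
  push f _ _ h _ ha := ⟨push_gr f h ha.1, Pool.Agent.TH125.Gal.algSpan_push f ha.2⟩

theorem isAlg_iff {W : WeilCohomology.{u, 0} ops} (hrat : ∀ r : W.K, ∃ q : ℚ, (q : W.K) = r)
    {X : 𝒱.Obj} {j : ℕ} {c : W.H X} : IsAlg W X j c ↔ (algPred W).P X j c := by
  constructor
  · rintro ⟨z, hz, rfl⟩
    exact (algPred W).cl hz
  · rintro ⟨h1, h2⟩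
    have h3 := spanCycles_of_algSpan h2 h1
    clear h1 h2
    induction h3 using Submodule.span_induction with
    | mem x hx =>
      obtain ⟨p, hp, z, hz, rfl⟩ := hx
      obtain rfl : p = j := by exact_mod_cast hp
      exact ⟨z, hz, rfl⟩
    | zero => exact ⟨0, SmVar.IsCyc.zero _ _, map_zero _⟩
    | add a b _ _ ha hb =>
      obtain ⟨z, hz, rfl⟩ := ha
      obtain ⟨w, hw, rfl⟩ := hb
      exact ⟨z + w, hz.add hw, map_add _ _ _⟩
    | smul r a _ ha =>
      obtain ⟨z, hz, rfl⟩ := ha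
      obtain ⟨q, rfl⟩ := hrat r
      exact ⟨q • z, hz.smul q, W.cl_smul q z⟩

variable {T T' : HodgeTheory ops} {E : WeilCohomology.{u, 0} ops}
  {L L' : Type} [Field L] [Field L'] [Algebra T.W.K L] [Algebra T'.W.K L']

/-- Classes of the theory `E` which correspond to Hodge classes -/
def Becomes (C : Comparison E (baseW T.W L)) (X : 𝒱.Obj) (j : ℕ) (γ : E.H X) : Prop :=
  ∃ x, IsHodge T X j x ∧ C.e X γ = C.c ^ j • em T.W L x

/-- both Hodge classes -/
def IsBoth (C : Comparison E (baseW T.W L)) (C' : Comparison E (baseW T'.W L')) (X : 𝒱.Obj)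
    (j : ℕ) (x : T.W.H X) : Prop :=
  IsHodge T X j x ∧ ∃ γ, C.e X γ = C.c ^ j • em T.W L x ∧ Becomes C' X j γ

theorem cmp_push {V V' : WeilCohomology.{u, 0} ops} (C : Comparison V V') {X Y : 𝒱.Obj}
    (f : X ⟶ Y) {j l : ℕ} (h : l + X.dim = j + Y.dim) {γ : V.H X} {w : V'.H X}
    (hγ : C.e X γ = C.c ^ j • w) : C.e Y (V.push f γ) = C.c ^ l • V'.push f w := by
  have h2 := C.push f γ
  rw [hγ, map_smul, smul_smul, ← pow_add] at h2
  have h3 : C.c ^ X.dim ≠ 0 := pow_ne_zero _ C.ne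
  have h4 : C.c ^ X.dim • C.e Y (V.push f γ) = C.c ^ X.dim • (C.c ^ l • V'.push f w) := by
    rw [h2, smul_smul, ← pow_add]
    congr 2
    omega
  exact smul_right_injective _ h3 h4

theorem Becomes.zero {C : Comparison E (baseW T.W L)} {X : 𝒱.Obj} {j : ℕ} :
    Becomes C X j 0 := ⟨0, IsHodge.zero, by rw [map_zero, em_zero, smul_zero]⟩

theorem Becomes.add {C : Comparison E (baseW T.W L)} {X : 𝒱.Obj} {j : ℕ} {a b : E.H X}
    (ha : Becomes C X j a) (hb : Becomes C X j b) : Becomes C X j (a + b) := by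
  obtain ⟨x, hx, h1⟩ := ha
  obtain ⟨y, hy, h2⟩ := hb
  exact ⟨x + y, hx.add hy, by rw [map_add, h1, h2, em_add, smul_add]⟩

theorem Becomes.ratSmul {C : Comparison E (baseW T.W L)} {X : 𝒱.Obj} {j : ℕ} (q : ℚ)
    {a : E.H X} (ha : Becomes C X j a) : Becomes C X j ((q : E.K) • a) := by
  obtain ⟨x, hx, h1⟩ := ha
  refine ⟨(q : T.W.K) • x, hx.smul _, ?_⟩
  rw [C.semi, h1, em_smul, ex_rat, map_ratCast, smul_comm]

theorem Becomes.cl {C : Comparison E (baseW T.W L)} {X : 𝒱.Obj} {j : ℕ} {z : X.Cycles}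
    (hz : X.IsCyc j z) : Becomes C X j (E.cl X z) :=
  ⟨T.W.cl X z, IsHodge.cl hz, by rw [← em_cl, C.cyc hz]⟩

theorem Becomes.mul {C : Comparison E (baseW T.W L)} {X : 𝒱.Obj} {i j : ℕ} {a b : E.H X}
    (ha : Becomes C X i a) (hb : Becomes C X j b) : Becomes C X (i + j) (a * b) := by
  obtain ⟨x, hx, h1⟩ := ha
  obtain ⟨y, hy, h2⟩ := hb
  exact ⟨x * y, hx.mul hy, by rw [map_mul, h1, h2, em_mul, smul_mul_smul_comm, pow_add]⟩

theorem Becomes.map {C : Comparison E (baseW T.W L)} {X Y : 𝒱.Obj} (f : X ⟶ Y) {j : ℕ}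
    {a : E.H Y} (ha : Becomes C Y j a) : Becomes C X j (E.map f a) := by
  obtain ⟨x, hx, h1⟩ := ha
  exact ⟨T.W.map f x, hx.map f, by rw [C.nat, h1, map_smul, em_map]⟩

theorem Becomes.push {C : Comparison E (baseW T.W L)} {X Y : 𝒱.Obj} (f : X ⟶ Y) {j l : ℕ}
    (h : l + X.dim = j + Y.dim) {a : E.H X} (ha : Becomes C X j a) :
    Becomes C Y l (E.push f a) := by
  obtain ⟨x, hx, h1⟩ := ha
  exact ⟨T.W.push f x, hx.push f h, by rw [cmp_push C f h h1, em_push]⟩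

/-- Hodge classes for two theories -/
def bothPred (C : Comparison E (baseW T.W L)) (C' : Comparison E (baseW T'.W L')) :
    ClassPred T.W where
  P X j c := IsBoth C C' X j c
  gr h := h.1.1
  zero := ⟨IsHodge.zero, 0, by rw [map_zero, em_zero, smul_zero], Becomes.zero⟩
  add := by
    rintro X j a b ⟨ha, γ, h1, h2⟩ ⟨hb, δ, h3, h4⟩
    exact ⟨ha.add hb, γ + δ, by rw [map_add, h1, h3, em_add, smul_add], h2.add h4⟩
  smul := by
    rintro X j r a ⟨ha, γ, h1, h2⟩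
    obtain ⟨q, rfl⟩ := T.rat r
    exact ⟨ha.smul _, (q : E.K) • γ, by
      rw [C.semi, h1, em_smul, ex_rat, map_ratCast, smul_comm], h2.ratSmul q⟩
  cl := by
    intro X j z hz
    exact ⟨IsHodge.cl hz, E.cl X z, by rw [← em_cl, C.cyc hz], Becomes.cl hz⟩
  mul := by
    rintro X i j a b ⟨ha, γ, h1, h2⟩ ⟨hb, δ, h3, h4⟩
    exact ⟨ha.mul hb, γ * δ, by rw [map_mul, h1, h3, em_mul, smul_mul_smul_comm, pow_add],
      h2.mul h4⟩
  map := by
    rintro X Y f j a ⟨ha, γ, h1, h2⟩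
    exact ⟨ha.map f, E.map f γ, by rw [C.nat, h1, map_smul, em_map], h2.map f⟩
  push := by
    rintro X Y f j l h a ⟨ha, γ, h1, h2⟩
    exact ⟨ha.push f h, E.push f γ, by rw [cmp_push C f h h1, em_push], h2.push f h⟩

end Pool.Agent.U231.HF
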