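import Pool.Agent.U231.HF.Main
import Pool.Agent.Y121.AHS.Conv2

/-!
# Varieties of Fermat type in Hodge theory: comparison of the definitions
-/

set_option autoImplicit false

open CategoryTheory AlgebraicGeometry Finset TensorProduct

universe u

namespace Pool.Agent.U231.HF

open Pool.Agent.H914 Pool.Agent.H914.VarClass Pool.Agent.H914.VarClass.Obj
  Pool.Agent.H914.WeilCohomology Pool.Agent.H281R3.HT Pool.Agent.TH125.Gal
  Pool.Agent.U231.FT Pool.Agent.Y121 Pool.Agent.Y121.AHS Pool.Agent.Y133.Half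

variable {k : Type u} [Field k] {𝒱 : VarClass k} {ops : CycleOps 𝒱} {T : HodgeTheory ops}

theorem conj_eq {X : 𝒱.Obj} (g : ℂ ≃ₐ[T.W.K] ℂ) (x : HL T.W ℂ X) :
    (sem (toH T)).σ g X (show (AH.CW (toH T)).H X from x) =
      (show (AH.CW (toH T)).H X from
        (extConj (K := T.W.K) (A := T.W.H X) g x : Ext T.W.K ℂ (T.W.H X))) := by
  have key : ∀ x : ℂ ⊗[T.W.K] T.W.H X, sig g x =
      TensorProduct.map g.toLinearMap (LinearMap.id : T.W.H X →ₗ[T.W.K] T.W.H X) x := by
    intro x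
    induction x using TensorProduct.induction_on with
    | zero => rw [map_zero, map_zero]
    | add x y hx hy => rw [map_add, map_add, hx, hy]
    | tmul l b => rw [sig_tmul, TensorProduct.map_tmul]; rfl
  exact key x

theorem map_mul_inv {N : ℕ} (c : (ZMod N)ˣ) (a b : Multiset (ZMod N))
    (h : a = b.map (fun x => (c : ZMod N) * x)) : b = a.map (fun x => ((c⁻¹ : (ZMod N)ˣ) : ZMod N) * x) := by
  rw [h, Multiset.map_map]
  conv_lhs => rw [← Multiset.map_id b]
  refine Multiset.map_congr rfl fun x _ => ?_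
  rw [Function.comp_apply, ← mul_assoc, ← Units.val_mul, inv_mul_cancel, Units.val_one, one_mul]
  rfl

/-- a variety of Fermat type -/
theorem exists_FD {N s : ℕ} [NeZero N] (hp : N.Prime) {X : 𝒱.Obj} (h : IsFermatType T N s X) :
    Nonempty (FD (toH T) N s X) := by
  obtain ⟨n, V, p, q, a, h⟩ := h
  choose π' hπ using fun g : ℂ ≃ₐ[T.W.K] ℂ => h.conj g (cyc T.W.K N g) (raisesTo_cyc N g)
  have hπ1 : ∀ g i, a ((π' g).symm i) = (a i).map fun x =>
      (((cyc T.W.K N g)⁻¹ : (ZMod N)ˣ) : ZMod N) * x := by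
    intro g i
    apply map_mul_inv
    have h1 := (hπ g ((π' g).symm i)).1
    rwa [Equiv.apply_symm_apply] at h1
  exact ⟨{
    C :=
      { n := n
        V := V
        e := fun i => p i - q i
        a := a
        π := fun g => (π' g).symm
        internal := (DirectSum.isInternal_submodule_iff_iSupIndep_and_iSup_eq_top V).2
          ⟨h.indep, eq_top_iff.2 fun x _ => h.top x⟩
        card := h.card
        wt := fun i => by
          rw [h.weight i, sawSum]
          congr 1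
          refine Multiset.map_congr rfl fun x _ => ?_
          rw [one_mul]
          rfl
        eig := fun i x hx => AH.gop_pq (T := toH T) (h.type i hx)
        a_π := hπ1
        act_π := fun g i x hx => by
          have h1 := (hπ g ((π' g).symm i)).2 x hx
          rw [Equiv.apply_symm_apply] at h1
          have h2 := conj_eq (T := T) (X := X) g x
          have h3 : (show HL T.W ℂ X from (sem (toH T)).σ g X x) ∈ V i := by
            rw [show (show HL T.W ℂ X from (sem (toH T)).σ g X x) =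
              (extConj (K := T.W.K) (A := T.W.H X) g x : Ext T.W.K ℂ (T.W.H X)) from h2]
            exact h1
          exact h3
        prime := hp }
    alg := fun i hi x hx => by
      have h1 := h.alg i hi x hx
      refine Submodule.span_mono ?_ h1
      rintro y ⟨j, c, ⟨z, hz, rfl⟩, rfl⟩
      exact ⟨j, z, hz, rfl⟩ }⟩

theorem stable_aux {K V : Type} [Field K] [Algebra K ℂ] [AddCommGroup V] [Module K V]
    (g : Module.End ℂ (ℂ ⊗[K] V)) (U : Submodule K V)
    (h : ∀ b ∈ U, g ((1 : ℂ) ⊗ₜ[K] b) ∈ U.baseChange ℂ) :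
    ∀ y ∈ U.baseChange ℂ, g y ∈ U.baseChange ℂ := by
  rintro y ⟨z, rfl⟩
  induction z using TensorProduct.induction_on with
  | zero => rw [map_zero, map_zero]; exact Submodule.zero_mem _
  | add x y hx hy => rw [map_add, map_add]; exact Submodule.add_mem _ hx hy
  | tmul l b =>
    have h1 : (U.subtype.baseChange ℂ) (l ⊗ₜ[K] b) = l • ((1 : ℂ) ⊗ₜ[K] (b : V)) := by
      rw [LinearMap.baseChange_tmul, TensorProduct.smul_tmul', smul_eq_mul, mul_one]
      rfl
    rw [h1, map_smul]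
    exact Submodule.smul_mem _ _ (h _ b.2)

theorem stable_of_sub {X : 𝒱.Obj} {U : Submodule T.W.K (T.W.H X)}
    (h : ∀ x ∈ U, IsTypeSum (T.pq X) (extSub T.W.K ℂ U : Submodule ℂ (HL T.W ℂ X))
      (emL T.W ℂ x)) :
    ∀ y ∈ (U.baseChange ℂ : Submodule ℂ (ℂ ⊗[T.W.K] T.W.H X)),
      (show ℂ ⊗[T.W.K] T.W.H X from AH.gop (toH T) X y) ∈ U.baseChange ℂ := by
  obtain ⟨g, hg⟩ : ∃ g : Module.End ℂ (HL T.W ℂ X), ∀ y, g y = AH.gop (toH T) X y :=
    ⟨AH.gop (toH T) X, fun _ => rfl⟩
  have hpq : ∀ (r : ℤ × ℤ) x, x ∈ T.pq X r.1 r.2 → g x = (2 : ℂ) ^ (r.1 - r.2) • x := by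
    intro r x hx
    rw [hg]
    exact AH.gop_pq (T := toH T) (X := X) (p := r.1) (q := r.2) (x := x) hx
  have key : ∀ y : HL T.W ℂ X, y ∈ (⨆ r : ℤ × ℤ, T.pq X r.1 r.2 ⊓ extSub T.W.K ℂ U) →
      g y ∈ extSub T.W.K ℂ U := by
    intro y hy
    refine Submodule.iSup_induction (fun r : ℤ × ℤ => T.pq X r.1 r.2 ⊓ extSub T.W.K ℂ U)
      (motive := fun y => g y ∈ extSub T.W.K ℂ U) hy ?_ ?_ ?_
    · intro r x hx
      rw [hpq r x hx.1]
      exact Submodule.smul_mem _ _ hx.2
    · rw [map_zero]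
      exact Submodule.zero_mem _
    · intro x y hx hy
      rw [map_add]
      exact Submodule.add_mem _ hx hy
  intro y hy
  exact @stable_aux T.W.K (T.W.H X) _ T.alg _ _ (AH.gop (toH T) X) U (fun b hb => by
    have h2 := key (emL T.W ℂ b) (h b hb)
    rw [hg] at h2
    exact h2) y hy

/-- pure classes -/
theorem isPure_of {Z : 𝒱.Obj} {x : HL T.W ℂ Z}
    (h : IsPureS (sem (toH T)) Z (show (AH.CW (toH T)).H Z from x)) :
    IsPure (K := T.W.K) (T.pq Z) (extConj (K := T.W.K) (A := T.W.H Z)) x := by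
  intro g
  obtain ⟨e, he⟩ := h g
  refine ⟨e, ?_⟩
  have h1 := mem_of_gop (T := toH T) he
  have h2 := conj_eq (T := T) (X := Z) g x
  exact (show (extConj (K := T.W.K) (A := T.W.H Z) g x : HL T.W ℂ Z) ∈
    (⨆ q : ℤ, T.pq Z (q + e) q) from (show (show HL T.W ℂ Z from (sem (toH T)).σ g Z x) =
      (extConj (K := T.W.K) (A := T.W.H Z) g x : Ext T.W.K ℂ (T.W.H Z)) from h2) ▸ h1)

theorem pieces_of {B : ℕ} {Z : 𝒱.Obj} (h : HasPieces T B Z) :
    Pieces (toH T) B Z LinearMap.id := by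
  obtain ⟨m, U, h0, h1, h2⟩ := h
  refine ⟨m, U, (DirectSum.isInternal_submodule_iff_iSupIndep_and_iSup_eq_top U).2
    ⟨h0, eq_top_iff.2 fun x _ => h1 x⟩, fun i => ⟨stable_of_sub (h2 i).1, ?_⟩⟩
  rcases (h2 i).2 with h3 | h3
  · exact Or.inl h3
  · exact Or.inr (Or.inr fun y hy hp => h3 y hy (isPure_of hp))

/-- the data of a system -/
theorem AreFermatFactors.exists_data {ι : Type} {N s : ι → ℕ} [∀ i, NeZero (N i)]
    {X : ι → 𝒱.Obj} (h : AreFermatFactors T N s X) {B : ℕ} {Z : 𝒱.Obj}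
    {ε : Module.End T.W.K (T.W.H Z)} (hB : 0 < B) (hN : ∀ i, IsLarge (N i) (s i) B)
    (hZ : Pieces (toH T) B Z ε) : Nonempty (SysData (toH T) N s B X Z ε) := by
  have h1 : ∀ i, Nonempty (FD (toH T) (N i) (s i) (X i)) := fun i =>
    exists_FD (h.prime i) (h.fermat i)
  exact ⟨{
    prime := h.prime
    ne := h.different
    D := fun i => (h1 i).some
    pieces := hZ
    large := hN
    pos := hB
    point := h.point }⟩

end Pool.Agent.U231.HF
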