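import Pool.Agent.Y121.AHS.Defs

/-!
# Varieties of Fermat type in Hodge theory: definitions

The framework (`HodgeTheory`: a Weil cohomology theory `W` with rational coefficients and a Hodge
decomposition `pq` of the cohomology `HL W ℂ X` with complex coefficients) is from `Y121.AHS`.
-/

set_option autoImplicit false

open CategoryTheory AlgebraicGeometry

universe u

namespace Pool.Agent.U231.HF

open Pool.Agent.H914 Pool.Agent.H914.VarClass Pool.Agent.H914.VarClass.Obj
  Pool.Agent.H914.WeilCohomology Pool.Agent.Y121.AHS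

/-- The sawtooth function: `2 b - N` for `0 < b < N`, and `0` for `b = 0`. -/
def saw {N : ℕ} (b : ZMod N) : ℤ := if b = 0 then 0 else 2 * (b.val : ℤ) - N

/-- The element `c` is a value of `f` at an element with the property `P`. -/
def IsValue {C A : Type*} [AddCommGroup C] [Ring A] (f : C →+ A) (P : C → Prop) (c : A) : Prop :=
  ∃ z, P z ∧ f z = c

section algebra

variable {K : Type} [Field K] [Algebra K ℂ]

/-- The automorphism `σ` of the field of complex numbers raises the roots of unity of order `N` to
the power `c`. -/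
def RaisesTo (N : ℕ) (σ : ℂ ≃ₐ[K] ℂ) (c : (ZMod N)ˣ) : Prop :=
  ∀ ζ : ℂ, ζ ^ N = 1 → σ ζ = ζ ^ (c : ZMod N).val

section space

variable {M : Type} [AddCommGroup M] [Module ℂ M]

/-- The vector space `M` is the direct sum of subspaces `V i`. The subspace `V i` is of type
`(p i, q i)` and has a character `a i`, a multiset of at most `s` residues modulo `N`, and
`N (p i - q i) = ∑ saw x`, where `x` runs through `a i`. If an automorphism of the field of complex
numbers raises the roots of unity of order `N` to the power `c`, then it maps `V i` to the subspace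
with the character `c • a i`. If `a i = - a i` then `V i` is spanned by classes of algebraic cycles.

Here `pq p q` is the subspace of type `(p, q)` of `M`, `alg` is the set of the classes of algebraic
cycles, and `conj` is the action of the automorphisms of the field of complex numbers. -/
structure IsFermatDecomposition (pq : ℤ → ℤ → Submodule ℂ M) (alg : Set M)
    (conj : (ℂ ≃ₐ[K] ℂ) → M → M) (N s : ℕ) {n : ℕ} (V : Fin n → Submodule ℂ M)
    (p q : Fin n → ℤ) (a : Fin n → Multiset (ZMod N)) : Prop where
  indep : iSupIndep V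
  top : ∀ x, x ∈ iSup V
  type : ∀ i, V i ≤ pq (p i) (q i)
  weight : ∀ i, (N : ℤ) * (p i - q i) = ((a i).map saw).sum
  card : ∀ i, (a i).card ≤ s
  conj : ∀ (σ : ℂ ≃ₐ[K] ℂ) (c : (ZMod N)ˣ), RaisesTo N σ c →
    ∃ π : Equiv.Perm (Fin n), ∀ i, a (π i) = (a i).map (fun x => (c : ZMod N) * x) ∧
      ∀ x ∈ V i, conj σ x ∈ V (π i)
  alg : ∀ i, (a i).map (fun x => -x) = a i → ∀ x ∈ V i, x ∈ Submodule.span ℂ alg

/-- The element `x` is a sum of elements of the subspace `S` which are of type `(p, q)` for some
`p`, `q`. -/
def IsTypeSum (pq : ℤ → ℤ → Submodule ℂ M) (S : Submodule ℂ M) (x : M) : Prop :=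
  x ∈ ⨆ r : ℤ × ℤ, pq r.1 r.2 ⊓ S

/-- The element `x` is pure: every conjugate of `x` is a sum of elements of types `(p, q)` with the
same value of `p - q`. -/
def IsPure (pq : ℤ → ℤ → Submodule ℂ M) (conj : (ℂ ≃ₐ[K] ℂ) → M → M) (x : M) : Prop :=
  ∀ σ, ∃ r : ℤ, conj σ x ∈ ⨆ q : ℤ, pq (q + r) q

/-- The subspace `S` is of dimension at most `B`, or it contains no pure element different from
`0`. -/
def IsSmall (pq : ℤ → ℤ → Submodule ℂ M) (conj : (ℂ ≃ₐ[K] ℂ) → M → M) (B : ℕ)
    (S : Submodule ℂ M) : Prop :=
  Module.finrank ℂ S ≤ B ∨ ∀ x ∈ S, IsPure pq conj x → x = 0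

end space

variable {A : Type} [Ring A] [Algebra K A]

/-- The action of an automorphism `σ` of the field of complex numbers: `c ⊗ x ↦ σ(c) ⊗ x`. -/
noncomputable def extConj (σ : ℂ ≃ₐ[K] ℂ) (x : Ext K ℂ A) : Ext K ℂ A :=
  TensorProduct.map σ.toLinearMap (LinearMap.id : A →ₗ[K] A)
    (show TensorProduct K ℂ A from x)

/-- There is such a decomposition of the cohomology with complex coefficients `Ext K ℂ A`; here
`alg j` are the classes of algebraic cycles of codimension `j`. -/
def HasFermatDecomposition (pq : ℤ → ℤ → Submodule ℂ (Ext K ℂ A)) (alg : ℕ → A → Prop)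
    (N s : ℕ) : Prop :=
  ∃ (n : ℕ) (V : Fin n → Submodule ℂ (Ext K ℂ A)) (p q : Fin n → ℤ)
    (a : Fin n → Multiset (ZMod N)),
    IsFermatDecomposition pq {x | ∃ j c, alg j c ∧ x = extEm K ℂ c} extConj N s V p q a

/-- The rational cohomology `A` is the direct sum of Hodge substructures `U i`, and each `U i` is
small: its dimension is at most `B`, or with complex coefficients it contains no pure element
different from `0`. (For polarized Hodge structures the second condition means that `U i` has no
substructure of CM type.) -/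
def IsSumOfSmall (pq : ℤ → ℤ → Submodule ℂ (Ext K ℂ A)) (B : ℕ) : Prop :=
  ∃ (m : ℕ) (U : Fin m → Submodule K A), iSupIndep U ∧ (∀ x, x ∈ iSup U) ∧
    ∀ i, (∀ x ∈ U i, IsTypeSum pq (extSub K ℂ (U i)) (extEm K ℂ x)) ∧
      IsSmall pq extConj B (extSub K ℂ (U i))

end algebra

variable {k : Type u} [Field k] {𝒱 : VarClass k} {ops : CycleOps 𝒱}

/-- The class is the class of an algebraic cycle of codimension `j` with rational coefficients. -/
def IsAlg (W : WeilCohomology.{u, 0} ops) (X : 𝒱.Obj) (j : ℕ) (c : W.H X) : Prop :=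
  IsValue (W.cl X) (X.IsCyc j) c

/-- The variety `X` is of Fermat type of degree `N` and length at most `s`. -/
def IsFermatType (T : HodgeTheory ops) (N s : ℕ) (X : 𝒱.Obj) : Prop :=
  HasFermatDecomposition (K := T.W.K) (A := T.W.H X) (T.pq X) (IsAlg T.W X) N s

/-- The rational cohomology of `Z` is the direct sum of Hodge substructures which are of dimension
at most `B` or contain no pure elements. For instance `B` can be a bound of the dimensions of the
simple Hodge substructures of CM type. -/
def HasPieces (T : HodgeTheory ops) (B : ℕ) (Z : 𝒱.Obj) : Prop :=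
  IsSumOfSmall (K := T.W.K) (A := T.W.H Z) (T.pq Z) B

/-- The `N i` are different prime numbers, `X i` is of Fermat type of degree `N i` and length at
most `s i`, and there is a zero-cycle of nonzero degree on `X i`. -/
structure AreFermatFactors (T : HodgeTheory ops) {ι : Type} (N s : ι → ℕ) (X : ι → 𝒱.Obj) :
    Prop where
  prime : ∀ i, (N i).Prime
  different : ∀ i j, i ≠ j → N i ≠ N j
  fermat : ∀ i, IsFermatType T (N i) (s i) (X i)
  point : ∀ i, ∃ z, (X i).IsCyc (X i).dim z ∧ (X i).V.degCycle z ≠ 0

/-- The product `X i₁ × (X i₂ × (⋯ × Z))`. -/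
noncomputable def productOf {ι : Type} (X : ι → 𝒱.Obj) (Z : 𝒱.Obj) : List ι → 𝒱.Obj
  | [] => Z
  | i :: L => (X i).prod (productOf X Z L)

end Pool.Agent.U231.HF
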