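import Pool.Agent.Helper475.ExistsRingequivPow
import Pool.Agent.U231.HF.Defs

/-!
# The cyclotomic characters of the automorphism group of the field of complex numbers
-/

set_option autoImplicit false

open Finset

namespace Pool.Agent.U231.HF

variable {K : Type} [Field K] [Algebra K ℂ]

/-- the number of roots of unity -/
theorem card_roots (N : ℕ) [NeZero N] : Nat.card {x // x ∈ rootsOfUnity N ℂ} = N :=
  Complex.card_rootsOfUnity N

/-- the cyclotomic character -/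
noncomputable def cyc (K : Type) [Field K] [Algebra K ℂ] (N : ℕ) [NeZero N] :
    (ℂ ≃ₐ[K] ℂ) →* (ZMod N)ˣ where
  toFun σ := modularCyclotomicCharacter ℂ (card_roots N) σ.toRingEquiv
  map_one' := map_one (modularCyclotomicCharacter ℂ (card_roots N))
  map_mul' σ σ' := map_mul (modularCyclotomicCharacter ℂ (card_roots N)) σ.toRingEquiv
    σ'.toRingEquiv

theorem raisesTo_cyc (N : ℕ) [NeZero N] (σ : ℂ ≃ₐ[K] ℂ) : RaisesTo N σ (cyc K N σ) := by
  intro ζ hζ
  have h0 : ζ ≠ 0 := by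
    rintro rfl
    rw [zero_pow (NeZero.ne N)] at hζ
    exact zero_ne_one hζ
  have h1 := modularCyclotomicCharacter.spec ℂ (card_roots N) σ.toRingEquiv (t := Units.mk0 ζ h0)
    (by rw [mem_rootsOfUnity, Units.ext_iff]; simpa using hζ)
  exact h1

theorem cyc_eq {N : ℕ} [NeZero N] {σ : ℂ ≃ₐ[K] ℂ} {c : ZMod N}
    (h : ∀ ζ : ℂ, ζ ^ N = 1 → σ ζ = ζ ^ c.val) : (cyc K N σ : ZMod N) = c := by
  refine (modularCyclotomicCharacter.unique ℂ (card_roots N) σ.toRingEquiv fun t ht => ?_).symm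
  have h1 : (t : ℂ) ^ N = 1 := by
    rw [mem_rootsOfUnity, Units.ext_iff] at ht
    simpa using ht
  exact h _ h1

/-- **Independence.** -/
theorem exists_cyc (hrat : ∀ r : K, ∃ q : ℚ, (q : K) = r) {ι : Type} {N : ι → ℕ}
    (hp : ∀ i, (N i).Prime) (hne : ∀ i j, i ≠ j → N i ≠ N j) [∀ i, NeZero (N i)] (T : Finset ι)
    (t : ∀ i, (ZMod (N i))ˣ) : ∃ σ : ℂ ≃ₐ[K] ℂ, ∀ i ∈ T, cyc K (N i) σ = t i := by
  classical
  obtain ⟨c, hc⟩ := Nat.chineseRemainderOfFinset (fun i => (t i : ZMod (N i)).val) N T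
    (fun i _ => (hp i).ne_zero) (fun i _ j _ hij => (Nat.coprime_primes (hp i) (hp j)).2
      (hne i j hij))
  set M := ∏ i ∈ T, N i with hM
  have hMpos : 0 < M := prod_pos fun i _ => (hp i).pos
  have hM0 : NeZero M := ⟨hMpos.ne'⟩
  have hcop : Nat.Coprime c M := by
    rw [hM, Nat.coprime_prod_right_iff]
    intro i hi
    rw [Nat.coprime_comm, (hp i).coprime_iff_not_dvd]
    intro hdvd
    have h1 := hc i hi
    have h2 : (t i : ZMod (N i)).val ≡ 0 [MOD N i] := h1.symm.trans (Nat.modEq_zero_iff_dvd.2 hdvd)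
    have h3 : (t i : ZMod (N i)).val = 0 :=
      Nat.eq_zero_of_dvd_of_lt (Nat.modEq_zero_iff_dvd.1 h2) (ZMod.val_lt _)
    have h4 : (t i : ZMod (N i)) = 0 := (ZMod.val_eq_zero _).1 h3
    have : Fact (1 < N i) := ⟨(hp i).one_lt⟩
    exact (t i).ne_zero h4
  have hζ := Complex.isPrimitiveRoot_exp M hMpos.ne'
  obtain ⟨σ, hσ⟩ := H475.exists_ringEquiv_pow M hMpos _ hζ c hcop
  let σ' : ℂ ≃ₐ[K] ℂ := AlgEquiv.ofRingEquiv (f := σ) fun r => by
    obtain ⟨q, rfl⟩ := hrat r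
    rw [map_ratCast, map_ratCast]
  refine ⟨σ', fun i hi => ?_⟩
  apply Units.ext
  have h5 : ((cyc K (N i) σ' : (ZMod (N i))ˣ) : ZMod (N i)) = (c : ZMod (N i)) := by
    apply cyc_eq
    intro z hz
    have h6 : z ^ M = 1 := by
      obtain ⟨m, hm⟩ := Finset.dvd_prod_of_mem N hi
      rw [hM, hm, pow_mul, hz, one_pow]
    obtain ⟨l, -, hl⟩ := hζ.eq_pow_of_pow_eq_one h6
    have h7 : σ' z = z ^ c := by
      change σ z = z ^ c
      rw [← hl, map_pow, hσ, ← pow_mul, ← pow_mul, mul_comm c l]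
    rw [h7, ZMod.val_natCast, ← pow_eq_pow_mod c hz]
  rw [h5]
  have h8 := (ZMod.natCast_eq_natCast_iff _ _ _).2 (hc i hi)
  rw [h8, ZMod.natCast_val, ZMod.cast_id]

end Pool.Agent.U231.HF
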