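import Pool.Agent.U231.HF.Br
import Pool.Agent.U231.HF.Cyc
import Pool.Agent.Y121.AH.Fix
import Pool.Agent.TH125.Gal.Dec

/-!
# Varieties of Fermat type in Hodge theory: the decomposition
-/

set_option autoImplicit false

open CategoryTheory AlgebraicGeometry Finset TensorProduct

universe u

namespace Pool.Agent.U231.HF

open Pool.Agent.H914 Pool.Agent.H914.VarClass Pool.Agent.H914.VarClass.Obj
  Pool.Agent.H914.WeilCohomology Pool.Agent.H281R3.HT Pool.Agent.TH125.Gal
  Pool.Agent.U231.FT Pool.Agent.Y121.AH Pool.Agent.Y133.Half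

variable {k : Type u} [Field k] {𝒱 : VarClass k} {ops : CycleOps 𝒱} {T : HodgeTheory ops}

/-- a variety of Fermat type -/
structure FD (T : HodgeTheory ops) (N s : ℕ) [NeZero N] (X : 𝒱.Obj) where
  C : FData (sem T) N s ((cyc T.W.K N)⁻¹) X
  alg : ∀ i, C.Symm i → C.V i ≤ Submodule.span (CW T).K
    {x | ∃ j z, X.IsCyc j z ∧ x = em T.W ℂ (T.W.cl X z)}

theorem tr_σ (g : ℂ ≃ₐ[T.W.K] ℂ) {X : 𝒱.Obj} (x : (CW T).H X) :
    (CW T).tr X ((sem T).σ g X x) = (sem T).τ g ((CW T).tr X x) := by
  have key : ∀ x : ℂ ⊗[T.W.K] T.W.H X, formBase ℂ (T.W.tr X) (sig g x) =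
      g (formBase ℂ (T.W.tr X) x) := by
    intro x
    induction x using TensorProduct.induction_on with
    | zero => rw [map_zero, map_zero, map_zero]
    | add x y hx hy => rw [map_add, map_add, map_add, map_add, hx, hy]
    | tmul l b => rw [sig_tmul, formBase_tmul, formBase_tmul, map_mul, AlgEquiv.commutes]
  exact key x

section one

variable {N s : ℕ} [NeZero N] {X : 𝒱.Obj}

/-- a nonsymmetric character has a conjugate with a nonzero exponent -/
theorem exists_ne (hrat : ∀ r : T.W.K, ∃ q : ℚ, (q : T.W.K) = r) (D : FD T N s X)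
    (hN : IsLarge N s 1) {i : Fin D.C.n} (hi : ¬D.C.Symm i) :
    ∃ g j, D.C.π g j = i ∧ D.C.e j ≠ 0 := by
  by_contra hcon
  push Not at hcon
  apply hi
  have : Fact N.Prime := ⟨D.C.prime⟩
  have h0 : ∀ t : (ZMod N)ˣ, sawSum (D.C.a i) t = 0 := by
    intro t
    obtain ⟨g, hg⟩ := exists_cyc (K := T.W.K) hrat (ι := Unit) (N := fun _ => N)
      (fun _ => D.C.prime) (fun i j h => absurd (Subsingleton.elim i j) h) {()} (fun _ => t)
    have h1 := hcon g ((D.C.π g).symm i) (Equiv.apply_symm_apply _ _)
    have h2 := D.C.a_π g ((D.C.π g).symm i)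
    rw [Equiv.apply_symm_apply] at h2
    have h3 := D.C.wt ((D.C.π g).symm i)
    rw [h1, mul_zero] at h3
    rw [h2, sawSum, Multiset.map_map, h3, sawSum]
    congr 1
    refine Multiset.map_congr rfl fun x _ => ?_
    rw [Function.comp_apply, one_mul, MonoidHom.inv_apply, hg () (mem_singleton_self _),
      ← mul_assoc, ← Units.val_mul, mul_inv_cancel, Units.val_one, one_mul]
  exact symm_of_index' (B := 1) (D.C.card i) ⊤ (fun h _ t => by
    rw [← Units.val_mul, h0, h0]) (by rw [Subgroup.index_top]) hN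

/-- **Numerically trivial cycles.** -/
theorem FD.homEqNum (hrat : ∀ r : T.W.K, ∃ q : ℚ, (q : T.W.K) = r) (D : FD T N s X)
    (hN : IsLarge N s 1) : HomEqNum T.W X := by
  intro j hj z hz hnum
  have hH : IsHodge T X j (T.W.cl X z) := IsHodge.cl hz
  have key : ∀ b : (CW T).H X, (CW T).tr X (em T.W ℂ (T.W.cl X z) * b) = 0 := by
    -- algebraic classes
    have h1 : ∀ b ∈ Submodule.span (CW T).K {x | ∃ j z, X.IsCyc j z ∧ x = em T.W ℂ (T.W.cl X z)},
        (CW T).tr X (em T.W ℂ (T.W.cl X z) * b) = 0 := by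
      intro b hb
      induction hb using Submodule.span_induction with
      | mem x hx =>
        obtain ⟨j', w, hw, rfl⟩ := hx
        have h3 : T.W.tr X (T.W.cl X z * T.W.cl X w) = 0 := by
          by_cases h : j' = X.dim - j
          · subst h
            have h2 := hnum w hw
            have h4 := ops.mul_mem hz hw
            rw [show j + (X.dim - j) = X.dim by omega] at h4
            rw [← T.W.cl_mul, T.W.tr_cl h4, h2, Rat.cast_zero]
          · apply T.W.tr_eq_zero (T.W.mul_mem (T.W.cl_mem hz) (T.W.cl_mem hw))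
            omega
        rw [← em_mul, em_tr, h3]
        exact map_zero (algebraMap T.W.K ℂ)
      | zero => rw [mul_zero, map_zero]
      | add x y _ _ hx hy => rw [mul_add, map_add, hx, hy, add_zero]
      | smul r x _ hx => rw [mul_smul_comm, map_smul, hx, smul_zero]
    -- the eigenspaces
    have h2 : ∀ i, ∀ b ∈ D.C.V i, (CW T).tr X (em T.W ℂ (T.W.cl X z) * b) = 0 := by
      intro i b hb
      by_cases hs : D.C.Symm i
      · exact h1 b (D.alg i hs hb)
      · obtain ⟨g, l, rfl, he⟩ := exists_ne hrat D hN hs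
        have h3 := D.C.act_π g l b hb
        have h4 : (CW T).tr X (em T.W ℂ (T.W.cl X z) * (sem T).σ g X b) = 0 := by
          have h5 := tr_gop (em T.W ℂ (T.W.cl X z) * (sem T).σ g X b)
          rw [gop_mul, gop_hodge hH] at h5
          have h6 : gop T X ((sem T).σ g X b) = (2 : (CW T).K) ^ D.C.e l • (sem T).σ g X b :=
            D.C.eig l _ h3
          rw [h6, mul_smul_comm, map_smul, smul_eq_mul] at h5
          by_contra hne
          have h7 := mul_right_cancel₀ hne (h5.trans (one_mul _).symm)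
          exact he (two_zpow_inj (W := CW T) (h7.trans (zpow_zero _).symm))
        have h5 := tr_σ (T := T) g (em T.W ℂ (T.W.cl X z) * b)
        rw [(sem T).mul, sig_em, h4] at h5
        exact ((map_eq_zero ((sem T).τ g)).1 h5.symm)
    intro b
    rw [← D.C.sum_pr b, mul_sum, map_sum]
    exact sum_eq_zero fun i _ => h2 i _ (D.C.pr_mem i b)
  exact em_injective ((CW T).nondeg _ key)

end one

end Pool.Agent.U231.HF
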