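import Pool.Agent.U231.HF.Defs

/-!
# External products: definitions
-/

set_option autoImplicit false

open CategoryTheory AlgebraicGeometry

universe u

namespace Pool.Agent.U231.HF

open Pool.Agent.H914 Pool.Agent.H914.VarClass Pool.Agent.H914.VarClass.Obj
  Pool.Agent.H914.WeilCohomology Pool.Agent.Y121.AHS

section algebra

variable {K A B C : Type} [Field K] [Ring A] [Algebra K A] [Ring B] [Algebra K B] [Ring C]
  [Algebra K C]

/-- The element `e` is the product of the images of an element with the property `P` and an element
with the property `Q`. -/
def IsProduct (p : A →ₐ[K] C) (q : B →ₐ[K] C) (P : A → Prop) (Q : B → Prop) (e : C) : Prop :=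
  ∃ a b, P a ∧ Q b ∧ e = p a * q b

variable (K) in
/-- The element `c` is a linear combination of elements with the property `P`. -/
def InSpan (P : A → Prop) (c : A) : Prop := c ∈ Submodule.span K {e | P e}

end algebra

variable {k : Type u} [Field k] {𝒱 : VarClass k} {ops : CycleOps 𝒱}

/-- The class `e` on `X × Y` is the external product of the class of an algebraic cycle on `X` and
of a class on `Y` with the property `P`. -/
def ExtStep (W : WeilCohomology.{u, 0} ops) (X Y : 𝒱.Obj) (P : W.H Y → Prop)
    (e : W.H (X.prod Y)) : Prop :=
  IsProduct (W.map (fst X Y)) (W.map (snd X Y)) (fun a => ∃ j, IsAlg W X j a) P e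

/-- The class is an external product of classes of algebraic cycles on the `X i` and of a class
on `Z` with the property `P`. -/
def IsExtProduct (W : WeilCohomology.{u, 0} ops) {ι : Type} (X : ι → 𝒱.Obj) (Z : 𝒱.Obj)
    (P : W.H Z → Prop) : ∀ L : List ι, W.H (productOf X Z L) → Prop
  | [] => P
  | i :: L => ExtStep W (X i) (productOf X Z L) (IsExtProduct W X Z P L)

/-- The class is a linear combination of external products of classes of algebraic cycles on the
`X i` and of classes on `Z` with the property `P`. -/
def IsExtSum (W : WeilCohomology.{u, 0} ops) {ι : Type} (X : ι → 𝒱.Obj) (Z : 𝒱.Obj)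
    (P : W.H Z → Prop) (L : List ι) (c : W.H (productOf X Z L)) : Prop :=
  InSpan W.K (IsExtProduct W X Z P L) c

end Pool.Agent.U231.HF
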