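import Pool.Agent.U231.HF.Conv
import Pool.Agent.U231.HF.Cmp

/-!
# Varieties of Fermat type in Hodge theory: the theorems for Hodge and absolutely Hodge classes
-/

set_option autoImplicit false

open CategoryTheory AlgebraicGeometry Finset TensorProduct

universe u

namespace Pool.Agent.U231.HF

open Pool.Agent.H914 Pool.Agent.H914.VarClass Pool.Agent.H914.VarClass.Obj
  Pool.Agent.H914.WeilCohomology Pool.Agent.Y121 Pool.Agent.Y121.AHS Pool.Agent.Y133.Half

variable {k : Type u} [Field k] {𝒱 : VarClass k} {ops : CycleOps 𝒱} {T : HodgeTheory ops}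
  {ι : Type} {N s : ι → ℕ} {X : ι → 𝒱.Obj} {B : ℕ} {Z : 𝒱.Obj}

/-- Hodge classes on the product -/
theorem hodge_span (hX : AreFermatFactors T N s X) (hB : 0 < B) (hZ : HasPieces T B Z)
    (hN : ∀ i, IsLarge (N i) (s i) B) {L : List ι} (hL : L.Nodup) {j : ℕ}
    {c : T.W.H (productOf X Z L)} (hc : IsHodge T (productOf X Z L) j c) :
    IsExtSum T.W X Z (fun z => ∃ j, IsHodge T Z j z) L c := by
  have : ∀ i, NeZero (N i) := fun i => ⟨(hX.prime i).ne_zero⟩
  obtain ⟨S⟩ := hX.exists_data hB hN (pieces_of hZ)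
  exact S.span_all (AH.hodgePred (toH T)) (fun Y j c hc => hc) hL (ClassPred.sp_of hc)

/-- absolutely Hodge classes -/
theorem abs_span (D : Full.Conjugates T) (hX : AreFermatFactors T N s X) (hB : 0 < B)
    (hZ : HasPieces T B Z) (hN : ∀ i, IsLarge (N i) (s i) B) {L : List ι} (hL : L.Nodup) {j : ℕ}
    {c : T.W.H (productOf X Z L)} (hc : Full.IsAbsHodge D (productOf X Z L) j c) :
    IsExtSum T.W X Z (fun z => ∃ j, Full.IsAbsHodge D Z j z) L c := by
  have : ∀ i, NeZero (N i) := fun i => ⟨(hX.prime i).ne_zero⟩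
  obtain ⟨S⟩ := hX.exists_data hB hN (pieces_of hZ)
  have h1 := S.span_all (AH.absPred (Full.toD D)) (fun Y j c hc => hc.1) hL
    (ClassPred.sp_of (Full.isAbsHodge_iff.2 hc))
  refine span_refine (fun z hz => ?_) L h1
  obtain ⟨j, hj⟩ := hz
  exact Submodule.subset_span ⟨j, Full.isAbsHodge_iff.1 hj⟩

/-- Hodge and absolutely Hodge classes -/
theorem hodge_abs_iff (D : Full.Conjugates T) (hX : AreFermatFactors T N s X) (hB : 0 < B)
    (hZ : HasPieces T B Z) (hN : ∀ i, IsLarge (N i) (s i) B) {L : List ι} (hL : L.Nodup) :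
    (∀ j c, IsHodge T (productOf X Z L) j c → Full.IsAbsHodge D (productOf X Z L) j c) ↔
      ∀ j c, IsHodge T Z j c → Full.IsAbsHodge D Z j c := by
  have : ∀ i, NeZero (N i) := fun i => ⟨(hX.prime i).ne_zero⟩
  obtain ⟨S⟩ := hX.exists_data hB hN (pieces_of hZ)
  have h1 := S.transfer (AH.hodgePred (toH T)) (AH.absPred (Full.toD D)) (fun Y j c hc => hc) hL
  constructor
  · intro h j c hc
    exact Full.isAbsHodge_iff.1 (h1.1 (fun j c hc => Full.isAbsHodge_iff.2 (h j c hc)) j c hc)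
  · intro h j c hc
    exact Full.isAbsHodge_iff.1 (h1.2 (fun j c hc => Full.isAbsHodge_iff.2 (h j c hc)) j c hc)

/-- absolutely Hodge and algebraic classes -/
theorem abs_alg_iff (D : Full.Conjugates T) (hX : AreFermatFactors T N s X) (hB : 0 < B)
    (hZ : HasPieces T B Z) (hN : ∀ i, IsLarge (N i) (s i) B) {L : List ι} (hL : L.Nodup) :
    (∀ j c, Full.IsAbsHodge D (productOf X Z L) j c → IsAlg T.W (productOf X Z L) j c) ↔
      ∀ j c, Full.IsAbsHodge D Z j c → IsAlg T.W Z j c := by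
  have : ∀ i, NeZero (N i) := fun i => ⟨(hX.prime i).ne_zero⟩
  obtain ⟨S⟩ := hX.exists_data hB hN (pieces_of hZ)
  have h1 := S.transfer (AH.absPred (Full.toD D)) (algPred T.W) (fun Y j c hc => hc.1) hL
  constructor
  · intro h j c hc
    exact (isAlg_iff T.rat).2 (h1.1 (fun j c hc => (isAlg_iff T.rat).1
      (h j c (Full.isAbsHodge_iff.1 hc))) j c (Full.isAbsHodge_iff.2 hc))
  · intro h j c hc
    exact (isAlg_iff T.rat).2 (h1.2 (fun j c hc => (isAlg_iff T.rat).1
      (h j c (Full.isAbsHodge_iff.1 hc))) j c (Full.isAbsHodge_iff.2 hc))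

end Pool.Agent.U231.HF
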