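import Pool.Agent.U231.HF.Sem
import Pool.Agent.U231.HF.Ari
import Pool.Agent.U231.LP.Wt

/-!
# Varieties of Fermat type in Hodge theory: functionals
-/

set_option autoImplicit false

open CategoryTheory AlgebraicGeometry Finset

universe u

namespace Pool.Agent.U231.HF

open Pool.Agent.H914 Pool.Agent.H914.VarClass Pool.Agent.H914.VarClass.Obj
  Pool.Agent.H914.WeilCohomology Pool.Agent.H281R3.HT Pool.Agent.TH125.Gal
  Pool.Agent.U231.FT

variable {k : Type u} [Field k] {𝒱 : VarClass k} {ops : CycleOps 𝒱}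
  {W : WeilCohomology.{u, 0} ops} {Γ : Type} [Group Γ]

/-- the data of a variety of Fermat type -/
structure FData (S : Sem W Γ) (N s : ℕ) (c : Γ →* (ZMod N)ˣ) (X : 𝒱.Obj) where
  n : ℕ
  V : Fin n → Submodule W.K (W.H X)
  e : Fin n → ℤ
  a : Fin n → Multiset (ZMod N)
  π : Γ → Equiv.Perm (Fin n)
  internal : DirectSum.IsInternal V
  card : ∀ i, (a i).card ≤ s
  wt : ∀ i, (N : ℤ) * e i = sawSum (a i) 1
  eig : ∀ i, ∀ x ∈ V i, S.G X x = (2 : W.K) ^ e i • x
  a_π : ∀ g i, a (π g i) = (a i).map (fun x => (c g : ZMod N) * x)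
  act_π : ∀ g i, ∀ x ∈ V (π g i), S.σ g X x ∈ V i
  prime : N.Prime

namespace FData

variable {S : Sem W Γ} {N s : ℕ} {c : Γ →* (ZMod N)ˣ} {X : 𝒱.Obj}

/-- the projectors -/
noncomputable def pr (C : FData S N s c X) (i : Fin C.n) : Module.End W.K (W.H X) :=
  (C.V i).subtype ∘ₗ (DirectSum.component W.K (Fin C.n) (fun i => C.V i) i) ∘ₗ
    (LinearEquiv.ofBijective (DirectSum.coeLinearMap C.V) C.internal).symm.toLinearMap

theorem pr_mem (C : FData S N s c X) (i : Fin C.n) (x : W.H X) : C.pr i x ∈ C.V i :=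
  Submodule.coe_mem _

theorem pr_of_mem (C : FData S N s c X) {i j : Fin C.n} {x : W.H X} (hx : x ∈ C.V j) :
    C.pr i x = if i = j then x else 0 := by
  have h1 : (LinearEquiv.ofBijective (DirectSum.coeLinearMap C.V) C.internal).symm x =
      DirectSum.lof W.K (Fin C.n) (fun i => C.V i) j ⟨x, hx⟩ := by
    rw [LinearEquiv.symm_apply_eq]
    exact (DirectSum.coeLinearMap_lof C.V j ⟨x, hx⟩).symm
  change ((DirectSum.component W.K (Fin C.n) (fun i => C.V i) i)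
    ((LinearEquiv.ofBijective (DirectSum.coeLinearMap C.V) C.internal).symm x) : W.H X) = _
  rw [h1]
  split_ifs with h
  · subst h
    rw [DirectSum.component.lof_self]
  · rw [DirectSum.component.of, dif_neg (Ne.symm h)]
    rfl

theorem sum_pr (C : FData S N s c X) (x : W.H X) : ∑ i, C.pr i x = x := by
  have h1 : x ∈ ⨆ i, C.V i := C.internal.submodule_iSup_eq_top ▸ Submodule.mem_top
  induction h1 using Submodule.iSup_induction' with
  | mem i x hx =>
    rw [sum_congr rfl fun j _ => C.pr_of_mem (i := j) hx, sum_ite_eq' univ i, if_pos (mem_univ _)]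
  | zero => simp
  | add x y _ _ hx hy =>
    rw [← add_right_inj (0 : W.H X), zero_add, zero_add]
    conv_rhs => rw [← hx, ← hy]
    rw [← sum_add_distrib]
    exact sum_congr rfl fun i _ => map_add _ _ _

/-- functionals supported at the index `i` -/
def IsFn (C : FData S N s c X) (i : Fin C.n) (f : W.H X →ₗ[W.K] W.K) : Prop :=
  ∀ j, j ≠ i → ∀ x ∈ C.V j, f x = 0

theorem isFn_pr (C : FData S N s c X) (i : Fin C.n) (F : W.H X →ₗ[W.K] W.K) :
    C.IsFn i (F ∘ₗ C.pr i) := by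
  intro j hj x hx
  rw [LinearMap.comp_apply, C.pr_of_mem hx, if_neg (Ne.symm hj), map_zero]

theorem isFn_tw (C : FData S N s c X) {i : Fin C.n} {f : W.H X →ₗ[W.K] W.K} (hf : C.IsFn i f)
    (g : Γ) : C.IsFn (C.π g i) (S.tw g f) := by
  intro j hj x hx
  have h1 : S.σ g X x ∈ C.V ((C.π g).symm j) := by
    apply C.act_π g
    rw [Equiv.apply_symm_apply]
    exact hx
  have h2 := hf _ (fun h => hj (by rw [← h, Equiv.apply_symm_apply])) _ h1
  rw [Sem.tw_apply, h2, map_zero]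

theorem fn_G (C : FData S N s c X) {i : Fin C.n} {f : W.H X →ₗ[W.K] W.K} (hf : C.IsFn i f)
    (x : W.H X) : f (S.G X x) = (2 : W.K) ^ C.e i * f x := by
  rw [← C.sum_pr x, map_sum, map_sum, map_sum, mul_sum]
  refine sum_congr rfl fun j _ => ?_
  rw [C.eig j _ (C.pr_mem j x), map_smul, smul_eq_mul]
  by_cases h : j = i
  · rw [h]
  · rw [hf j h _ (C.pr_mem j x), mul_zero, mul_zero]

theorem ctr_sum {A' Z : 𝒱.Obj} {κ : Type*} (s : Finset κ) (F : κ → (W.H A' →ₗ[W.K] W.K))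
    (y : W.H (A'.prod Z)) : ctr (∑ j ∈ s, F j) y = ∑ j ∈ s, ctr (F j) y := by
  refine kun_ext (L := fun y => ctr (∑ j ∈ s, F j) y) (L' := fun y => ∑ j ∈ s, ctr (F j) y)
    ?_ ?_ ?_ y
  · intro a b
    rw [map_add]
  · intro a b
    simp only [map_add, sum_add_distrib]
  · intro a z
    simp only [ctr_apply, LinearMap.sum_apply, sum_smul]

theorem ctr_fn_sum (C : FData S N s c X) {Z : 𝒱.Obj} (F : W.H X →ₗ[W.K] W.K)
    (y : W.H (X.prod Z)) : ctr F y = ∑ j, ctr (F ∘ₗ C.pr j) y := by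
  have h1 : F = ∑ j, F ∘ₗ C.pr j := by
    apply LinearMap.ext
    intro x
    rw [LinearMap.sum_apply]
    conv_lhs => rw [← C.sum_pr x, map_sum]
    rfl
  conv_lhs => rw [h1]
  exact ctr_sum univ (fun j => F ∘ₗ C.pr j) y

theorem eq_zero_of_ctr (C : FData S N s c X) {Z : 𝒱.Obj} {y : W.H (X.prod Z)}
    (h : ∀ i f, C.IsFn i f → ctr f y = 0) : y = 0 := by
  rw [expand (Module.finBasis W.K (W.H X)) y]
  refine sum_eq_zero fun r _ => ?_
  rw [C.ctr_fn_sum, sum_eq_zero fun j _ => h j _ (C.isFn_pr j _), map_zero, mul_zero]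

/-- the character is symmetric -/
def Symm (C : FData S N s c X) (i : Fin C.n) : Prop := (C.a i).map (fun x => -x) = C.a i

theorem e_π (C : FData S N s c X) (g : Γ) (i : Fin C.n) :
    (N : ℤ) * C.e (C.π g i) = sawSum (C.a i) (c g : ZMod N) := by
  rw [C.wt, C.a_π, sawSum, sawSum, Multiset.map_map]
  congr 1
  refine Multiset.map_congr rfl fun x _ => ?_
  rw [Function.comp_apply, one_mul]

/-- the indices, with an additional one -/
abbrev Ix (C : FData S N s c X) : Type := Option (Fin C.n)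

/-- the exponent of the eigenvalue -/
def eO (C : FData S N s c X) (o : C.Ix) : ℤ := o.elim 0 C.e

/-- the permutation -/
def πO (C : FData S N s c X) (g : Γ) (o : C.Ix) : C.Ix := o.map (C.π g)

/-- the index has a character which is not symmetric -/
def NS (C : FData S N s c X) (o : C.Ix) : Prop := ∃ j, o = some j ∧ ¬C.Symm j

/-- functionals supported at the index -/
def IsFnO (C : FData S N s c X) (o : C.Ix) (f : W.H X →ₗ[W.K] W.K) : Prop :=
  ∃ j, o = some j ∧ C.IsFn j f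

theorem isFnO_tw (C : FData S N s c X) {o : C.Ix} {f : W.H X →ₗ[W.K] W.K}
    (hf : C.IsFnO o f) (g : Γ) : C.IsFnO (C.πO g o) (S.tw g f) := by
  obtain ⟨j, rfl, hf⟩ := hf
  exact ⟨C.π g j, rfl, C.isFn_tw hf g⟩

theorem fnO_G (C : FData S N s c X) {o : C.Ix} {f : W.H X →ₗ[W.K] W.K}
    (hf : C.IsFnO o f) (x : W.H X) : f (S.G X x) = (2 : W.K) ^ C.eO o * f x := by
  obtain ⟨j, rfl, hf⟩ := hf
  exact C.fn_G hf x

end FData

variable {S : Sem W Γ} {ι : Type} {N s : ι → ℕ} {X : ι → 𝒱.Obj} {c : ∀ i, Γ →* (ZMod (N i))ˣ}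

/-- the functionals on a product with values in the cohomology of `Z` -/
structure Funs (C : ∀ i, FData S (N i) (s i) (c i) (X i)) (Z : 𝒱.Obj)
    (εZ : Module.End W.K (W.H Z)) (L : Finset ι) (Y : 𝒱.Obj) (εY : Module.End W.K (W.H Y)) where
  Φ : (∀ i, (C i).Ix) → Set (W.H Y →ₗ[W.K] W.H Z)
  ext : ∀ t t', (∀ i ∈ L, t i = t' i) → Φ t = Φ t'
  act : ∀ t, ∀ φ ∈ Φ t, ∀ g, S.twM g φ ∈ Φ fun i => (C i).πO g (t i)
  eig : ∀ t, ∀ φ ∈ Φ t, ∀ y, φ (S.G Y y) = (2 : W.K) ^ (∑ i ∈ L, (C i).eO (t i)) • S.G Z (φ y)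
  sep : ∀ y, (∀ t, ∀ φ ∈ Φ t, φ y = 0) → y = 0
  com : ∀ t, ∀ φ ∈ Φ t, ∀ y, φ (εY y) = εZ (φ y)

/-- the basis -/
def Funs.base (C : ∀ i, FData S (N i) (s i) (c i) (X i)) (Z : 𝒱.Obj)
    (εZ : Module.End W.K (W.H Z)) : Funs C Z εZ ∅ Z εZ where
  Φ _ := {LinearMap.id}
  ext _ _ _ := rfl
  act := by
    rintro τ φ rfl g
    rw [Set.mem_singleton_iff]
    apply LinearMap.ext
    intro x
    rw [Sem.twM_apply, LinearMap.id_apply, S.σ_inv, LinearMap.id_apply]
  eig := by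
    rintro τ φ rfl y
    simp
  sep := fun y h => h (fun _ => none) LinearMap.id rfl
  com := by
    rintro τ φ rfl y
    rfl

/-- one step -/
noncomputable def Funs.step (C : ∀ i, FData S (N i) (s i) (c i) (X i)) [DecidableEq ι]
    {Z : 𝒱.Obj} {εZ : Module.End W.K (W.H Z)} {L : Finset ι} {Y : 𝒱.Obj}
    {εY : Module.End W.K (W.H Y)} (Q : Funs C Z εZ L Y εY) {i : ι} (hi : i ∉ L) :
    Funs C Z εZ (insert i L) ((X i).prod Y) (idT (X i) εY) where
  Φ τ := {ψ | ∃ f, (C i).IsFnO (τ i) f ∧ ∃ φ ∈ Q.Φ τ, ψ = φ ∘ₗ ctr f}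
  ext := by
    intro τ τ' h
    have h3 : Q.Φ τ = Q.Φ τ' := Q.ext τ τ' fun a ha => h a (mem_insert_of_mem ha)
    rw [h3, h i (mem_insert_self i L)]
  act := by
    rintro τ ψ ⟨f, hf, φ, hφ, rfl⟩ g
    refine ⟨S.tw g f, (C i).isFnO_tw hf g, _, Q.act τ φ hφ g, ?_⟩
    apply LinearMap.ext
    intro y
    rw [Sem.twM_apply, LinearMap.comp_apply, LinearMap.comp_apply, Sem.twM_apply, S.ctr_σ]
  eig := by
    rintro τ ψ ⟨f, hf, φ, hφ, rfl⟩ y
    rw [LinearMap.comp_apply, LinearMap.comp_apply, S.ctr_G ((C i).fnO_G hf), map_smul,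
      Q.eig τ φ hφ, smul_smul, sum_insert hi, zpow_add₀ two_ne_zero]
  sep := by
    intro y h
    apply (C i).eq_zero_of_ctr
    intro j f hf
    apply Q.sep
    intro τ φ hφ
    have h3 : Q.Φ τ = Q.Φ (Function.update τ i (some j)) := Q.ext _ _ fun a ha => by
      rw [Function.update_of_ne (fun h4 : a = i => hi (h4 ▸ ha))]
    refine h (Function.update τ i (some j)) (φ ∘ₗ ctr f) ⟨f, ?_, φ, h3 ▸ hφ, rfl⟩
    rw [Function.update_self]
    exact ⟨j, rfl, hf⟩
  com := by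
    rintro τ ψ ⟨f, hf, φ, hφ, rfl⟩ y
    rw [LinearMap.comp_apply, LinearMap.comp_apply, ctr_idT, Q.com τ φ hφ]

end Pool.Agent.U231.HF
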