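import Pool.Agent.U231.HF.Step
import Pool.Agent.U231.HF.ExtDefs

/-!
# Varieties of Fermat type in Hodge theory: all classes are combinations of external products
-/

set_option autoImplicit false

open CategoryTheory AlgebraicGeometry Finset TensorProduct

universe u

namespace Pool.Agent.U231.HF

open Pool.Agent.H914 Pool.Agent.H914.VarClass Pool.Agent.H914.VarClass.Obj
  Pool.Agent.H914.WeilCohomology Pool.Agent.H281R3.HT Pool.Agent.TH125.Gal
  Pool.Agent.U231.FT Pool.Agent.Y121.AH Pool.Agent.Y133.Half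

variable {k : Type u} [Field k] {𝒱 : VarClass k} {ops : CycleOps 𝒱}

section SB

variable {W : WeilCohomology.{u, 0} ops} {X Z : 𝒱.Obj}

/-- the coordinates -/
theorem coord_eq (b : SB W X) (r : Fin b.NC ⊕ Fin b.NT) :
    b.e.coord r = bil W X (b.es r) := by
  apply b.e.ext
  intro j
  rw [b.es_e, Module.Basis.coord_apply, Module.Basis.repr_self, Finsupp.single_apply]

/-- the expansion if there are no transcendental components -/
theorem expand_alg (b : SB W X) {x : W.H (X.prod Z)}
    (h : ∀ t ∈ transcendental W X, ctr (bil W X t) x = 0) :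
    x = ∑ i, W.map (fst X Z) (b.bC i) * W.map (snd X Z) (ctr (bil W X (b.uC i)) x) := by
  conv_lhs => rw [expand b.e x]
  rw [Fintype.sum_sum_type]
  have h1 : ∀ i, W.map (fst X Z) (b.e (Sum.inr i)) *
      W.map (snd X Z) (ctr (b.e.coord (Sum.inr i)) x) = 0 := by
    intro i
    rw [coord_eq]
    have h2 : ctr (bil W X (b.es (Sum.inr i))) x = 0 := h _ (b.uT i).2
    rw [h2, map_zero, mul_zero]
  rw [sum_congr rfl fun i _ => h1 i, sum_const_zero, add_zero]
  refine sum_congr rfl fun i _ => ?_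
  rw [coord_eq, b.e_inl]
  rfl

/-- contractions with algebraic classes -/
theorem ctr_sp {Q : ClassPred W} {u : W.H X} (hu : u ∈ algSpan W X) {x : W.H (X.prod Z)}
    (hx : x ∈ Q.sp (X.prod Z)) : ctr (bil W X u) x ∈ Q.sp Z := by
  rw [ctr_bil]
  exact Q.sys.push _ (Q.sys.mul (Q.sys.map _ (ClassPred.alg_le hu)) hx)

theorem span_prod {S : Set (W.H (X.prod Z))} {S' : Set (W.H Z)} (z : X.Cycles)
    (h : ∀ e' ∈ S', W.map (fst X Z) (W.cl X z) * W.map (snd X Z) e' ∈ S) {y : W.H Z}
    (hy : y ∈ Submodule.span W.K S') :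
    W.map (fst X Z) (W.cl X z) * W.map (snd X Z) y ∈ Submodule.span W.K S := by
  induction hy using Submodule.span_induction with
  | mem e' he' => exact Submodule.subset_span (h e' he')
  | zero => rw [map_zero, mul_zero]; exact Submodule.zero_mem _
  | add a b _ _ ha hb => rw [map_add, mul_add]; exact Submodule.add_mem _ ha hb
  | smul r a _ ha => rw [map_smul, mul_smul_comm]; exact Submodule.smul_mem _ _ ha

end SB

section ext

variable {W : WeilCohomology.{u, 0} ops} {ι : Type} {X : ι → 𝒱.Obj} {Z : 𝒱.Obj}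

theorem sp_mono {Q Q' : ClassPred W} {Y : 𝒱.Obj} (h : ∀ j c, Q.P Y j c → Q'.P Y j c) :
    Q.sp Y ≤ Q'.sp Y :=
  Submodule.span_mono fun c ⟨j, hc⟩ => ⟨j, h j c hc⟩

/-- external products have the property -/
theorem ext_sp {Q : ClassPred W} {P : W.H Z → Prop} (hP : ∀ z, P z → z ∈ Q.sp Z) :
    ∀ (L : List ι) (e : W.H (productOf X Z L)), IsExtProduct W X Z P L e →
      e ∈ Q.sp (productOf X Z L)
  | [], e, h => hP e h
  | i :: L, e, h => by
    obtain ⟨_, e', ⟨j, z, hz, rfl⟩, he', rfl⟩ := h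
    exact Q.sys.mul (Q.sys.map _ (ClassPred.sp_of (Q.cl hz))) (Q.sys.map _ (ext_sp hP L e' he'))

theorem span_sp {Q : ClassPred W} {P : W.H Z → Prop} (hP : ∀ z, P z → z ∈ Q.sp Z) (L : List ι)
    {x : W.H (productOf X Z L)}
    (hx : x ∈ Submodule.span W.K {e | IsExtProduct W X Z P L e}) :
    x ∈ Q.sp (productOf X Z L) :=
  (Submodule.span_le (p := Q.sp (productOf X Z L))).2 (fun e he => ext_sp hP L e he) hx

/-- the property descends -/
theorem descend {Q₁ Q₂ : ClassPred W}
    (hpt : ∀ i, ∃ z, (X i).IsCyc (X i).dim z ∧ (X i).V.degCycle z ≠ 0) (L : List ι)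
    (h : ∀ j c, Q₁.P (productOf X Z L) j c → Q₂.P (productOf X Z L) j c) :
    ∀ j c, Q₁.P Z j c → Q₂.P Z j c := by
  induction L with
  | nil => exact h
  | cons i L ih =>
    apply ih
    intro j c hc
    obtain ⟨z, hz, hz0⟩ := hpt i
    have h1 := h j _ (Q₁.map (snd (X i) (productOf X Z L)) hc)
    have h2 := Q₂.push (snd (X i) (productOf X Z L)) (l := j) (j := (X i).dim + j)
      (by rw [dim_prod]; omega) (Q₂.mul (Q₂.map (fst (X i) (productOf X Z L)) (Q₂.cl hz)) h1)
    rw [W.push_snd, W.tr_cl hz] at h2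
    have h5 : (((X i).V.degCycle z : ℚ) : W.K) ≠ 0 := by exact_mod_cast hz0
    have h6 := Q₂.smul (((X i).V.degCycle z : ℚ) : W.K)⁻¹ h2
    rwa [smul_smul, inv_mul_cancel₀ h5, one_smul] at h6

end ext

section refine

variable {W : WeilCohomology.{u, 0} ops} {ι : Type} {X : ι → 𝒱.Obj} {Z : 𝒱.Obj}

/-- The span of the external products. -/
noncomputable def extSpan (W : WeilCohomology.{u, 0} ops) {ι : Type} (X : ι → 𝒱.Obj) (Z : 𝒱.Obj)
    (P : W.H Z → Prop) (L : List ι) : Submodule W.K (W.H (productOf X Z L)) :=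
  Submodule.span W.K {e | IsExtProduct W X Z P L e}

/-- external products with combinations -/
theorem ext_refine {P P' : W.H Z → Prop} (h : ∀ z, P z → z ∈ Submodule.span W.K {z | P' z}) :
    ∀ (L : List ι) (e : W.H (productOf X Z L)), IsExtProduct W X Z P L e →
      e ∈ extSpan W X Z P' L
  | [], e, he => h e he
  | i :: L, e, he => by
    obtain ⟨_, e', ⟨j, z, hz, rfl⟩, he', rfl⟩ := he
    have h1 := ext_refine h L e' he'
    let S1 : Set (W.H ((X i).prod (productOf X Z L))) := {e | IsExtProduct W X Z P' (i :: L) e}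
    refine span_prod (W := W) (S := S1) z (fun e' he' => ?_) h1
    exact ⟨_, e', ⟨_, z, hz, rfl⟩, he', rfl⟩

theorem span_refine {P P' : W.H Z → Prop} (h : ∀ z, P z → z ∈ Submodule.span W.K {z | P' z})
    (L : List ι) : extSpan W X Z P L ≤ extSpan W X Z P' L :=
  Submodule.span_le.2 fun e he => ext_refine h L e he

end refine

variable {T : HodgeTheory ops} {ι : Type} {N s : ι → ℕ} {B : ℕ} {X : ι → 𝒱.Obj} {Z : 𝒱.Obj}
  [∀ i, NeZero (N i)] {ε : Module.End T.W.K (T.W.H Z)}

namespace SysData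

variable (S : SysData T N s B X Z ε)

include S

/-- **All classes are combinations of external products.** -/
theorem span_ext (Q : ClassPred T.W) (hQ : ∀ Y j c, Q.P Y j c → IsHodge T Y j c) (L : List ι)
    (hL : L.Nodup) : ∀ x ∈ Q.sp (productOf X Z L), lift X ε L x = x →
      x ∈ extSpan T.W X Z (fun z => z ∈ Q.sp Z ∧ ε z = z) L := by
  induction L with
  | nil =>
    intro x hx hxε
    exact Submodule.subset_span ⟨hx, hxε⟩
  | cons i L ih =>
    obtain ⟨h1, h2⟩ := List.nodup_cons.1 hL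
    intro x hx hxε
    obtain ⟨b⟩ := exists_SB (S.homEqNum i)
    have hx' : x ∈ (hodgePred T).sp ((X i).prod (productOf X Z L)) :=
      sp_mono (Q := Q) (Q' := hodgePred T) (fun j c hc => hQ _ j c hc) hx
    have hxε' : idT (X i) (lift X ε L) x = x := hxε
    have h3 := expand_alg b (fun t ht => S.ctr_trans h1 h2 hx' hxε' ht)
    let S1 : Set (T.W.H ((X i).prod (productOf X Z L))) :=
      {e | IsExtProduct T.W X Z (fun z => z ∈ Q.sp Z ∧ ε z = z) (i :: L) e}
    have h4 : (∑ l, T.W.map (fst (X i) (productOf X Z L)) (b.bC l) *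
        T.W.map (snd (X i) (productOf X Z L)) (ctr (bil T.W (X i) (b.uC l)) x)) ∈
        Submodule.span T.W.K S1 := by
      refine Submodule.sum_mem _ fun l _ => ?_
      have h6 : lift X ε L (ctr (bil T.W (X i) (b.uC l)) x) =
          ctr (bil T.W (X i) (b.uC l)) x :=
        (ctr_idT (lift X ε L) (bil T.W (X i) (b.uC l)) x).symm.trans
          (congrArg (ctr (bil T.W (X i) (b.uC l))) hxε')
      have h5 := ih h2 _ (ctr_sp (b.uC l).2 hx) h6
      obtain ⟨z, hz, hz'⟩ := b.alg l
      rw [← hz']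
      refine span_prod (W := T.W) (S := S1) z (fun e' he' => ?_) h5
      exact ⟨_, e', ⟨_, z, hz, rfl⟩, he', rfl⟩
    exact h3 ▸ h4

end SysData

/-- **All classes are combinations of external products.** -/
theorem SysData.span_all (S : SysData T N s B X Z LinearMap.id) (Q : ClassPred T.W)
    (hQ : ∀ Y j c, Q.P Y j c → IsHodge T Y j c) {L : List ι} (hL : L.Nodup)
    {x : T.W.H (productOf X Z L)} (hx : x ∈ Q.sp (productOf X Z L)) :
    x ∈ extSpan T.W X Z (fun z => ∃ j, Q.P Z j z) L :=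
  span_refine (fun _ h => h.1) L (S.span_ext Q hQ L hL x hx (lift_id X L x))

/-- **The comparison of two properties.** -/
theorem SysData.transfer (S : SysData T N s B X Z LinearMap.id) (Q₁ Q₂ : ClassPred T.W)
    (hQ : ∀ Y j c, Q₁.P Y j c → IsHodge T Y j c) {L : List ι} (hL : L.Nodup) :
    (∀ j c, Q₁.P (productOf X Z L) j c → Q₂.P (productOf X Z L) j c) ↔
      ∀ j c, Q₁.P Z j c → Q₂.P Z j c := by
  refine ⟨descend S.point L, fun h j c hc => ?_⟩
  have h1 := S.span_all Q₁ hQ hL (ClassPred.sp_of hc)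
  have h2 := span_sp (Q := Q₂) (P := fun z => ∃ j, Q₁.P Z j z)
    (fun z ⟨j, hz⟩ => ClassPred.sp_of (h j z hz)) L h1
  have h3 := ClassPred.sp_proj h2 j
  rwa [proj_same _ (Q₁.gr hc)] at h3

end Pool.Agent.U231.HF
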