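import Pool.Agent.U231.HF.Defs
import Pool.Agent.H914R2.CorrDefs

/-!
# Morphisms of Hodge structures and absolutely Hodge correspondences: definitions
-/

set_option autoImplicit false

open CategoryTheory AlgebraicGeometry

universe u

namespace Pool.Agent.U231.HF

open Pool.Agent.H914 Pool.Agent.H914.VarClass Pool.Agent.H914.VarClass.Obj
  Pool.Agent.H914.WeilCohomology Pool.Agent.Y121.AHS

variable {k : Type u} [Field k] {𝒱 : VarClass k} {ops : CycleOps 𝒱}

/-- The linear map `f` is a morphism of Hodge structures `H(X) → H(Y)(r)`: it maps the classes of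
type `(p, q)` to classes of type `(p + r, q + r)`. -/
def IsHodgeMorphism (T : HodgeTheory ops) (X Y : 𝒱.Obj) (r : ℤ)
    (f : T.W.H X →ₗ[T.W.K] T.W.H Y) : Prop :=
  ∀ (p q : ℤ) (x : HL T.W ℂ X), IsType T.pq p q x →
    IsType T.pq (p + r) (q + r) (extMap T.W.K ℂ f x : HL T.W ℂ Y)

end Pool.Agent.U231.HF
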