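import Pool.Agent.U231.HF.Emb
import Pool.Agent.U231.HF.MorDefs
import Pool.Agent.Y129.Pow

/-!
# Morphisms of Hodge structures and correspondences
-/

set_option autoImplicit false

open CategoryTheory AlgebraicGeometry TensorProduct

universe u

namespace Pool.Agent.U231.HF

open Pool.Agent.H914 Pool.Agent.H914.VarClass Pool.Agent.H914.VarClass.Obj
  Pool.Agent.H914.WeilCohomology Pool.Agent.Y133.Half

section AH

open Pool.Agent.Y121.AH

variable {k : Type u} [Field k] {𝒱 : VarClass k} {ops : CycleOps 𝒱} {T : HodgeTheory ops}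
  {X Y : 𝒱.Obj}

/-- The operator `2 ^ p 3 ^ q`. -/
noncomputable def mop (T : HodgeTheory ops) (X : 𝒱.Obj) : Module.End (CW T).K ((CW T).H X) :=
  dia (isInternal T X) fun r => (2 : (CW T).K) ^ r.1 * (3 : (CW T).K) ^ r.2

theorem three_ne : (3 : (CW T).K) ≠ 0 := three_ne_zero

theorem mop_pq {p q : ℤ} {x : (CW T).H X} (hx : x ∈ T.pq X p q) :
    mop T X x = ((2 : (CW T).K) ^ p * (3 : (CW T).K) ^ q) • x :=
  dia_apply (isInternal T X) _ (i := (p, q)) hx

theorem mop_mul (x y : (CW T).H X) : mop T X (x * y) = mop T X x * mop T X y := by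
  refine pq_ind T (p := fun x => mop T X (x * y) = mop T X x * mop T X y) ?_ ?_ ?_ x
  · intro a b x hx
    refine pq_ind T (p := fun y => mop T X (x * y) = mop T X x * mop T X y) ?_ ?_ ?_ y
    · intro c d y hy
      rw [mop_pq hx, mop_pq hy, mop_pq (T.dec.mul hx hy), smul_mul_smul_comm,
        zpow_add₀ two_ne, zpow_add₀ three_ne]
      congr 1
      ring
    · intro y z hy hz; rw [mul_add, map_add, hy, hz, map_add, mul_add]
    · rw [mul_zero, map_zero, mul_zero]
  · intro x z hx hz; rw [add_mul, map_add, hx, hz, map_add, add_mul]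
  · rw [zero_mul, map_zero, zero_mul]

theorem mop_map (f : X ⟶ Y) (y : (CW T).H Y) :
    mop T X ((CW T).map f y) = (CW T).map f (mop T Y y) := by
  refine pq_ind T (p := fun y => mop T X ((CW T).map f y) = (CW T).map f (mop T Y y)) ?_ ?_ ?_ y
  · intro a b y hy
    rw [mop_pq hy, mop_pq (T.dec.map f hy), map_smul]
  · intro y z hy hz; rw [map_add, map_add, hy, hz, map_add, map_add]
  · rw [map_zero, map_zero, map_zero, map_zero]

/-- the number `6` -/
noncomputable def six (T : HodgeTheory ops) (n : ℤ) : (CW T).K :=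
  (2 : (CW T).K) ^ n * (3 : (CW T).K) ^ n

theorem six_ne (n : ℤ) : six T n ≠ 0 := mul_ne_zero (zpow_ne_zero _ two_ne) (zpow_ne_zero _ three_ne)

theorem six_add (m n : ℤ) : six T (m + n) = six T m * six T n := by
  rw [six, six, six, zpow_add₀ two_ne, zpow_add₀ three_ne]
  ring

theorem mop_push (f : X ⟶ Y) (x : (CW T).H X) :
    mop T Y ((CW T).push f x) = six T (Y.dim - X.dim) • (CW T).push f (mop T X x) := by
  refine pq_ind T (p := fun x => mop T Y ((CW T).push f x) =
    six T (Y.dim - X.dim) • (CW T).push f (mop T X x)) ?_ ?_ ?_ x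
  · intro a b x hx
    rw [mop_pq hx, mop_pq (T.dec.push f hx), map_smul, smul_smul]
    congr 1
    rw [show a + (Y.dim : ℤ) - X.dim = a + (Y.dim - X.dim) by ring,
      show b + (Y.dim : ℤ) - X.dim = b + (Y.dim - X.dim) by ring, zpow_add₀ two_ne,
      zpow_add₀ three_ne, six]
    ring
  · intro y z hy hz; rw [map_add, map_add, hy, hz, map_add, map_add, smul_add]
  · rw [map_zero, map_zero, map_zero, map_zero, smul_zero]

theorem mop_surjective : Function.Surjective (mop T X) := by
  intro x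
  refine pq_ind T (p := fun x => ∃ y, mop T X y = x) ?_ ?_ ?_ x
  · intro a b x hx
    have h1 : (2 : (CW T).K) ^ a * (3 : (CW T).K) ^ b ≠ 0 :=
      mul_ne_zero (zpow_ne_zero _ two_ne) (zpow_ne_zero _ three_ne)
    refine ⟨((2 : (CW T).K) ^ a * (3 : (CW T).K) ^ b)⁻¹ • x, ?_⟩
    rw [map_smul, mop_pq hx, smul_smul, inv_mul_cancel₀ h1, one_smul]
  · rintro _ _ ⟨a, rfl⟩ ⟨b, rfl⟩
    exact ⟨a + b, map_add _ _ _⟩
  · exact ⟨0, map_zero _⟩

theorem two_three {a b : ℤ} (h : (2 : (CW T).K) ^ a * (3 : (CW T).K) ^ b = 1) : a = 0 ∧ b = 0 := by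
  have h1 : (2 : ℂ) ^ a * (3 : ℂ) ^ b = 1 := h
  have h2 : (2 : ℚ) ^ a * (3 : ℚ) ^ b = 1 := by
    apply Rat.cast_injective (α := ℂ)
    push_cast
    exact h1
  have e2 : (2 : ℚ) ^ a ≠ 0 := zpow_ne_zero _ (by norm_num)
  have e3 : (3 : ℚ) ^ b ≠ 0 := zpow_ne_zero _ (by norm_num)
  have v22 : padicValRat 2 (2 : ℚ) = 1 := by
    have := padicValRat.self (p := 2) (by norm_num)
    exact_mod_cast this
  have v33 : padicValRat 3 (3 : ℚ) = 1 := by
    have := padicValRat.self (p := 3) (by norm_num)
    exact_mod_cast this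
  have f2 : Fact (Nat.Prime 2) := ⟨Nat.prime_two⟩
  have f3 : Fact (Nat.Prime 3) := ⟨Nat.prime_three⟩
  have v23 : padicValRat 2 (3 : ℚ) = 0 := by
    have := padicValNat_primes (p := 2) (q := 3) (by norm_num)
    have h5 := padicValRat.of_nat (p := 2) (n := 3)
    rw [this] at h5
    exact_mod_cast h5
  have v32 : padicValRat 3 (2 : ℚ) = 0 := by
    have := padicValNat_primes (p := 3) (q := 2) (by norm_num)
    have h5 := padicValRat.of_nat (p := 3) (n := 2)
    rw [this] at h5
    exact_mod_cast h5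
  have h3 : padicValRat 2 ((2 : ℚ) ^ a * (3 : ℚ) ^ b) = 0 := by rw [h2]; simp
  have h4 : padicValRat 3 ((2 : ℚ) ^ a * (3 : ℚ) ^ b) = 0 := by rw [h2]; simp
  rw [padicValRat.mul e2 e3, padicValRat.zpow, padicValRat.zpow, v22, v23] at h3
  rw [padicValRat.mul e2 e3, padicValRat.zpow, padicValRat.zpow, v32, v33] at h4
  constructor <;> linarith

/-- eigenvectors of the operator -/
theorem pq_of_mop {p q : ℤ} {x : (CW T).H X}
    (h : mop T X x = ((2 : (CW T).K) ^ p * (3 : (CW T).K) ^ q) • x) : x ∈ T.pq X p q := by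
  classical
  set c : (CW T).K := (2 : (CW T).K) ^ p * (3 : (CW T).K) ^ q with hc
  set N : Module.End (CW T).K ((CW T).H X) := dia (isInternal T X) fun r =>
    if r = (p, q) then 0 else ((2 : (CW T).K) ^ r.1 * (3 : (CW T).K) ^ r.2 - c)⁻¹ with hN
  set E : Module.End (CW T).K ((CW T).H X) := dia (isInternal T X) fun r =>
    if r = (p, q) then 1 else 0 with hE
  have h1 : ∀ x, N (mop T X x) - c • N x + E x = x := by
    intro x
    refine pq_ind T (p := fun x => N (mop T X x) - c • N x + E x = x) ?_ ?_ ?_ x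
    · intro a b x hx
      rw [mop_pq hx, map_smul, hN, hE, dia_apply (isInternal T X) _ (i := (a, b)) hx,
        dia_apply (isInternal T X) _ (i := (a, b)) hx]
      by_cases hab : (a, b) = (p, q)
      · simp [hab]
      · simp only [if_neg hab, zero_smul, add_zero]
        have h2 : (2 : (CW T).K) ^ a * (3 : (CW T).K) ^ b - c ≠ 0 := by
          rw [sub_ne_zero]
          intro h3
          apply hab
          have h4 : (2 : (CW T).K) ^ (a - p) * (3 : (CW T).K) ^ (b - q) = 1 := by
            rw [zpow_sub₀ two_ne, zpow_sub₀ three_ne, div_mul_div_comm, h3, hc]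
            exact div_self (mul_ne_zero (zpow_ne_zero _ two_ne) (zpow_ne_zero _ three_ne))
          obtain ⟨h5, h6⟩ := two_three h4
          exact Prod.ext (by linarith) (by linarith)
        rw [smul_smul, smul_smul, ← sub_smul, ← sub_mul, mul_inv_cancel₀ h2, one_smul]
    · intro a b ha hb
      calc N (mop T X (a + b)) - c • N (a + b) + E (a + b)
          = (N (mop T X a) - c • N a + E a) + (N (mop T X b) - c • N b + E b) := by
            simp only [map_add, smul_add]; abel
        _ = a + b := by rw [ha, hb]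
    · simp
  have h2 := h1 x
  rw [h, map_smul, sub_self, zero_add] at h2
  rw [← h2]
  refine pq_ind T (p := fun x => E x ∈ T.pq X p q) ?_ ?_ ?_ x
  · intro a b x hx
    rw [hE, dia_apply (isInternal T X) _ (i := (a, b)) hx]
    by_cases hab : (a, b) = (p, q)
    · obtain ⟨rfl, rfl⟩ := Prod.mk.inj hab
      simpa using hx
    · simp [hab]
  · intro x y hx hy; rw [map_add]; exact Submodule.add_mem _ hx hy
  · rw [map_zero]; exact Submodule.zero_mem _

/-- all linear maps are given by classes -/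
theorem exists_corr {W : WeilCohomology.{u, 0} ops} (f : W.H X →ₗ[W.K] W.H Y) :
    ∃ c : W.H (X.prod Y), W.corr c = f := by
  set θ : W.H (X.prod Y) →ₗ[W.K] (W.H X →ₗ[W.K] W.H Y) :=
    ⟨⟨fun c => W.corr c, fun c d => W.corr_add c d⟩, fun q c => W.corr_smul q c⟩ with hθ
  have hinj : Function.Injective θ := by
    intro c d h
    rw [← sub_eq_zero]
    apply corr_inj
    have h1 : θ (c - d) = 0 := by rw [map_sub, h, sub_self]
    exact h1
  have hdim : Module.finrank W.K (W.H (X.prod Y)) =
      Module.finrank W.K (W.H X →ₗ[W.K] W.H Y) := by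
    have e1 := (LinearEquiv.ofBijective _ (W.kunneth X Y)).finrank_eq
    rw [← e1, Module.finrank_tensorProduct, Module.finrank_linearMap]
  exact (LinearMap.injective_iff_surjective_of_finrank_eq_finrank hdim).1 hinj f

theorem bc_corr (c : T.W.H (X.prod Y)) (x : (CW T).H X) :
    bc (T.W.corr c) x = (CW T).corr (em T.W ℂ c) x := by
  have h1 : bc (T.W.corr c) = (CW T).corr (em T.W ℂ c) := by
    apply LinearMap.ext
    intro x
    refine tmul_ind (p := fun x => bc (T.W.corr c) x = (CW T).corr (em T.W ℂ c) x) ?_ ?_ ?_ x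
    · rw [map_zero, map_zero]
    · intro x y hx hy
      rw [map_add, map_add, hx, hy]
    · intro l a
      rw [tmul_eq, map_smul, map_smul, bc_em, corr_apply, corr_apply, em_map, ← em_mul, em_push]
  rw [h1]

theorem em_proj (i : ℕ) (c : T.W.H X) : H914.proj ((CW T).isInternal X) i (em T.W ℂ c) =
    em T.W ℂ (H914.proj (T.W.isInternal X) i c) := by
  refine gr_induction (T.W.isInternal X) (p := fun c =>
    H914.proj ((CW T).isInternal X) i (em T.W ℂ c) =
      em T.W ℂ (H914.proj (T.W.isInternal X) i c)) ?_ ?_ c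
  · intro l a ha
    by_cases h : l = i
    · subst h
      rw [proj_same _ ha, proj_same _ (em_gr ha)]
    · rw [proj_ne _ ha h, proj_ne _ (em_gr ha) h, em_zero]
  · intro a b ha hb
    rw [em_add, map_add, map_add, ha, hb, em_add]

/-- the class of a morphism of Hodge structures is a Hodge class -/
theorem hodge_of_morphism {j : ℕ} {c : T.W.H (X.prod Y)}
    (hf : ∀ p q, ∀ x ∈ T.pq X p q,
      bc (T.W.corr c) x ∈ T.pq Y (p + (j - X.dim)) (q + (j - X.dim))) :
    IsHodge T (X.prod Y) j c := by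
  -- the operator
  have h1 : ∀ x : (CW T).H X, mop T Y (bc (T.W.corr c) x) =
      six T (j - X.dim) • bc (T.W.corr c) (mop T X x) := by
    intro x
    refine pq_ind T (p := fun x => mop T Y (bc (T.W.corr c) x) =
      six T (j - X.dim) • bc (T.W.corr c) (mop T X x)) ?_ ?_ ?_ x
    · intro a b x hx
      rw [mop_pq hx, mop_pq (hf a b x hx), map_smul, smul_smul, zpow_add₀ two_ne,
        zpow_add₀ three_ne, six]
      congr 1
      ring
    · intro y z hy hz; rw [map_add, map_add, hy, hz, map_add, map_add, smul_add]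
    · rw [map_zero, map_zero, map_zero, map_zero, smul_zero]
  have h2 : ∀ x : (CW T).H X, (CW T).corr (mop T _ (em T.W ℂ c) - six T j • em T.W ℂ c)
      (mop T X x) = 0 := by
    intro x
    have h3 := h1 x
    rw [bc_corr, bc_corr, corr_apply, mop_push, mop_mul, mop_map] at h3
    have h4 : six T ((j : ℤ) - X.dim) = six T ((Y.dim : ℤ) - (X.prod Y).dim) * six T j := by
      rw [← six_add, dim_prod]
      congr 1
      push_cast
      ring
    rw [h4, mul_smul] at h3
    have h5 := smul_right_injective _ (six_ne (T := T) ((Y.dim : ℤ) - (X.prod Y).dim)) h3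
    rw [corr_apply, sub_mul, map_sub, h5, smul_mul_assoc, map_smul, corr_apply, sub_self]
  have h3 : mop T _ (em T.W ℂ c) - six T j • em T.W ℂ c = 0 := by
    apply corr_inj
    apply LinearMap.ext
    intro x
    obtain ⟨y, rfl⟩ := mop_surjective (T := T) x
    rw [h2, LinearMap.zero_apply]
  have h4 : em T.W ℂ c ∈ T.pq (X.prod Y) j j := pq_of_mop (sub_eq_zero.1 h3)
  have h5 : em T.W ℂ c ∈ (CW T).gr (X.prod Y) (2 * j) := T.dec.le _ (by push_cast; ring) h4
  refine ⟨?_, h4⟩
  have h6 : em T.W ℂ c = em T.W ℂ (H914.proj (T.W.isInternal (X.prod Y)) (2 * j) c) := by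
    rw [← em_proj, proj_same _ h5]
  have h7 : c - H914.proj (T.W.isInternal (X.prod Y)) (2 * j) c = 0 := by
    apply em_injective (W := T.W) (L := ℂ)
    have h8 : em T.W ℂ (c - H914.proj (T.W.isInternal (X.prod Y)) (2 * j) c) +
        em T.W ℂ (H914.proj (T.W.isInternal (X.prod Y)) (2 * j) c) = em T.W ℂ c := by
      rw [← em_add, sub_add_cancel]
    rw [← h6] at h8
    exact add_eq_right.1 h8
  rw [sub_eq_zero.1 h7]
  exact H914.proj_mem _ _ _

/-- morphisms given by Hodge classes -/
theorem morphism_of_hodge {j : ℕ} {c : T.W.H (X.prod Y)} (hc : IsHodge T (X.prod Y) j c) :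
    ∀ p q, ∀ x ∈ T.pq X p q,
      bc (T.W.corr c) x ∈ T.pq Y (p + (j - X.dim)) (q + (j - X.dim)) := by
  intro p q x hx
  rw [bc_corr, corr_apply]
  have h1 := T.dec.push (snd X Y) (T.dec.mul hc.2 (T.dec.map (fst X Y) hx))
  rw [dim_prod] at h1
  have e1 : ∀ a : ℤ, (j : ℤ) + a + (Y.dim : ℤ) - ((X.dim + Y.dim : ℕ) : ℤ) = a + (j - X.dim) := by
    intro a
    push_cast
    ring
  rw [e1, e1] at h1
  exact h1

end AH

end Pool.Agent.U231.HF
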