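import Pool.Agent.U231.HF.VarDefs

/-!
# The noncommutative Hodge conjecture on products with varieties of Fermat type: definitions

An admissible subcategory `C` of the category of perfect complexes on `Z` enters through a subspace of
the rational cohomology of `Z`, which is denoted by `C` too: we use the Mukai vector to identify the
rational topological K-theory `K_0 ⊕ K_1` of `Z` with its cohomology, and `C` is the rational
topological K-theory `K_0 ⊕ K_1` of the subcategory.
-/

set_option autoImplicit false

open CategoryTheory AlgebraicGeometry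

universe u

namespace Pool.Agent.U231.HF

open Pool.Agent.H914 Pool.Agent.H914.VarClass Pool.Agent.H914.VarClass.Obj
  Pool.Agent.H914.WeilCohomology Pool.Agent.Y121.AHS

variable {k : Type u} [Field k] {𝒱 : VarClass k} {ops : CycleOps 𝒱}

/-- `x` is a Hodge class in the topological K-theory `C`. -/
def IsHodgeIn (T : HodgeTheory ops) (Z : 𝒱.Obj) (C : Set (T.W.H Z)) (x : T.W.H Z) : Prop :=
  x ∈ C ∧ IsSumOf (IsHodge T Z) x

/-- The noncommutative Hodge conjecture: the Hodge classes in the topological K-theory `C` are
algebraic. -/
def NCHodge (T : HodgeTheory ops) (Z : 𝒱.Obj) (C : Set (T.W.H Z)) : Prop :=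
  ∀ x, IsHodgeIn T Z C x → IsSumOf (IsAlg T.W Z) x

/-- The element `x` of the cohomology of `X i₁ × (X i₂ × (⋯ × Z))` is a sum of external products
`a_1 × ⋯ × a_r × y` of classes `a_j` of algebraic cycles on the `X i` and elements `y` with the
property `P`. -/
def IsExtOf {W : WeilCohomology.{u, 0} ops} {ι : Type} (X : ι → 𝒱.Obj) {Z : 𝒱.Obj}
    (P : W.H Z → Prop) : ∀ L : List ι, W.H (productOf X Z L) → Prop
  | [], x => P x
  | i :: L, x => ∃ (n : ℕ) (a : Fin n → W.H (X i)) (y : Fin n → W.H (productOf X Z L)),
      (∀ l, (∃ j, IsAlg W (X i) j (a l)) ∧ IsExtOf X P L (y l)) ∧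
      IsSumOfProducts (W.map (fst (X i) (productOf X Z L)))
        (W.map (snd (X i) (productOf X Z L))) a y x

end Pool.Agent.U231.HF
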