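import Pool.Agent.U231.HF.VarFin
import Pool.Agent.U231.HF.NCKDefs

/-!
# The noncommutative Hodge conjecture on products with varieties of Fermat type
-/

set_option autoImplicit false

open CategoryTheory AlgebraicGeometry Finset TensorProduct

universe u

namespace Pool.Agent.U231.HF

open Pool.Agent.H914 Pool.Agent.H914.VarClass Pool.Agent.H914.VarClass.Obj
  Pool.Agent.H914.WeilCohomology Pool.Agent.H281R3.HT Pool.Agent.TH125.Gal
  Pool.Agent.U231.FT Pool.Agent.Y121 Pool.Agent.Y133.Half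

variable {k : Type u} [Field k] {𝒱 : VarClass k} {ops : CycleOps 𝒱}

section AH

open Pool.Agent.Y121.AH

variable {T : HodgeTheory ops} {ι : Type} {N s : ι → ℕ} {B : ℕ} {X : ι → 𝒱.Obj} {Z : 𝒱.Obj}
  [∀ i, NeZero (N i)] {C : Set (T.W.H Z)} {ε : Module.End T.W.K (T.W.H Z)}

/-- **Hodge classes are sums of external products.** -/
theorem SysData.ext_top (D : SysData T N s B X Z ε) (hε : ∀ x ∈ C, ε x = x)
    (hC : IsSubspace T.W.K C) (Q : ClassPred T.W) (hQ : ∀ Y j c, Q.P Y j c → IsHodge T Y j c)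
    (L : List ι) (hL : L.Nodup) : ∀ x : T.W.H (productOf X Z L), x ∈ productsTop X C L →
      x ∈ Q.sp (productOf X Z L) → IsExtOf X (fun z => z ∈ C ∧ z ∈ Q.sp Z) L x := by
  induction L with
  | nil =>
    intro x h1 h3
    exact ⟨h1, h3⟩
  | cons i L ih =>
    obtain ⟨hi, hL'⟩ := List.nodup_cons.1 hL
    intro x h1 h3
    obtain ⟨b⟩ := exists_SB (D.homEqNum i)
    have hx' : x ∈ (hodgePred T).sp ((X i).prod (productOf X Z L)) :=
      sp_mono (Q := Q) (Q' := hodgePred T) (fun j c hc => hQ _ j c hc) h3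
    have hxε : idT (X i) (lift X ε L) x = x := lift_top hε (i :: L) x h1
    have h4 := expand_alg b (fun t ht => D.ctr_trans hi hL' hx' hxε ht)
    choose z hz hz' using b.alg
    refine ⟨b.NC, fun l => T.W.cl (X i) (z l), fun l => ctr (bil T.W (X i) (b.uC l)) x,
      fun l => ⟨⟨_, z l, hz l, rfl⟩, ih hL' _ (ctr_productSet (X := X i)
        (Y := productOf X Z L) (productsTop_sub X hC L) _ h1) (ctr_sp (b.uC l).2 h3)⟩, ?_⟩
    have h7 : x = ∑ l, T.W.map (fst (X i) (productOf X Z L)) (T.W.cl (X i) (z l)) *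
        T.W.map (snd (X i) (productOf X Z L)) (ctr (bil T.W (X i) (b.uC l)) x) := by
      conv_lhs => rw [h4]
      exact sum_congr rfl fun l _ => by rw [hz' l]
    exact h7

end AH

open Pool.Agent.Y121.AHS

variable {T : HodgeTheory ops} {ι : Type} {N s : ι → ℕ} {B : ℕ} {X : ι → 𝒱.Obj} {Z : 𝒱.Obj}
  {C : Set (T.W.H Z)}

/-- sums of external products -/
theorem ext_of_sp {Q : ClassPred T.W} {P : T.W.H Z → Prop} (hP : ∀ z, P z → z ∈ Q.sp Z) :
    ∀ (L : List ι) (e : T.W.H (productOf X Z L)), IsExtOf X P L e →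
      e ∈ Q.sp (productOf X Z L)
  | [], e, h => hP e h
  | i :: L, e, h => by
    obtain ⟨n, a, y, h1, h2⟩ := h
    have h3 : ∑ l, T.W.map (fst (X i) (productOf X Z L)) (a l) *
        T.W.map (snd (X i) (productOf X Z L)) (y l) ∈
          Q.sp ((X i).prod (productOf X Z L)) :=
      Submodule.sum_mem _ fun l _ => by
        obtain ⟨⟨j, z, hz, hz'⟩, h4⟩ := h1 l
        have h5 : a l ∈ Q.sp (X i) := hz' ▸ ClassPred.sp_of (Q.cl hz)
        exact Q.sys.mul (Q.sys.map _ h5) (Q.sys.map _ (ext_of_sp hP L (y l) h4))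
    exact h2.symm ▸ h3

/-- **The Hodge classes.** -/
theorem hodge_ext (hX : AreFermatFactors T N s X) (hC : IsSubspace T.W.K C) (hB : 0 < B)
    (hZ : HasKPieces T B Z C) (hN : ∀ i, IsLarge (N i) (s i) B) {L : List ι} (hL : L.Nodup)
    {x : T.W.H (productOf X Z L)} (hx : IsHodgeIn T (productOf X Z L) (productsTop X C L) x) :
    IsExtOf X (IsHodgeIn T Z C) L x := by
  have : ∀ i, NeZero (N i) := fun i => ⟨(hX.prime i).ne_zero⟩
  obtain ⟨ε, hε, hZ⟩ := kpieces_of hZ
  obtain ⟨D⟩ := hX.exists_data hB hN hZ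
  have h1 : IsHodgeIn T Z C = fun z => z ∈ C ∧ z ∈ (hodgeP T).sp Z := by
    funext z
    exact propext (and_congr_right fun _ => hodgeSum_iff)
  rw [h1]
  exact D.ext_top hε hC (hodgeP T) (fun Y j c hc => hc) L hL x hx.1 (hodgeSum_iff.1 hx.2)

theorem nc_step {i : ι} {L : List ι}
    (hpt : ∃ z, (X i).IsCyc (X i).dim z ∧ (X i).V.degCycle z ≠ 0)
    (h : NCHodge T (productOf X Z (i :: L)) (productsTop X C (i :: L))) :
    NCHodge T (productOf X Z L) (productsTop X C L) := by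
  obtain ⟨z, hz, hz0⟩ := hpt
  rintro x ⟨h1, h2⟩
  rw [hodgeSum_iff] at h2
  rw [algSum_iff]
  have h3 : IsSumOf (IsAlg T.W ((X i).prod (productOf X Z L)))
      (T.W.map (snd (X i) (productOf X Z L)) x) := by
    refine h _ ⟨AddSubmonoid.subset_closure ⟨1, x, h1, ?_⟩, ?_⟩
    · rw [map_one, one_mul]
      rfl
    · show IsSumOf (IsHodge T ((X i).prod (productOf X Z L)))
        (T.W.map (snd (X i) (productOf X Z L)) x)
      rw [hodgeSum_iff]
      exact (hodgeP T).sys.map (snd (X i) (productOf X Z L)) h2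
  rw [algSum_iff] at h3
  have h7 := (algPred T.W).sys.push (snd (X i) (productOf X Z L))
    ((algPred T.W).sys.mul ((algPred T.W).sys.map (fst (X i) (productOf X Z L))
      (ClassPred.sp_of ((algPred T.W).cl hz))) h3)
  rw [T.W.push_snd, T.W.tr_cl hz] at h7
  have h8 : (((X i).V.degCycle z : ℚ) : T.W.K) ≠ 0 := by exact_mod_cast hz0
  have h9 := Submodule.smul_mem _ (((X i).V.degCycle z : ℚ) : T.W.K)⁻¹ h7
  rwa [smul_smul, inv_mul_cancel₀ h8, one_smul] at h9

theorem nc_descend (hpt : ∀ i, ∃ z, (X i).IsCyc (X i).dim z ∧ (X i).V.degCycle z ≠ 0) :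
    ∀ L : List ι, NCHodge T (productOf X Z L) (productsTop X C L) → NCHodge T Z C
  | [], h => h
  | i :: L, h => nc_descend hpt L (nc_step (hpt i) h)

/-- **The noncommutative Hodge conjecture.** -/
theorem nc_iff (hX : AreFermatFactors T N s X) (hC : IsSubspace T.W.K C) (hB : 0 < B)
    (hZ : HasKPieces T B Z C) (hN : ∀ i, IsLarge (N i) (s i) B) {L : List ι} (hL : L.Nodup) :
    NCHodge T (productOf X Z L) (productsTop X C L) ↔ NCHodge T Z C := by
  refine ⟨nc_descend hX.point L, fun h x hx => ?_⟩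
  rw [algSum_iff]
  exact ext_of_sp (fun z hz => algSum_iff.1 (h z hz)) L x (hodge_ext hX hC hB hZ hN hL hx)

end Pool.Agent.U231.HF
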