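import Pool.Agent.U231.HF.Defs

/-!
# Linear maps on the cohomology of products: definitions
-/

set_option autoImplicit false

open CategoryTheory AlgebraicGeometry

universe u

namespace Pool.Agent.U231.HF

open Pool.Agent.H914 Pool.Agent.H914.VarClass Pool.Agent.H914.VarClass.Obj
  Pool.Agent.H914.WeilCohomology

variable {k : Type u} [Field k] {𝒱 : VarClass k} {ops : CycleOps 𝒱}

/-- The Kunneth isomorphism from `H(X) ⊗ H(Y)` to `H(X × Y)`. -/
noncomputable def kun (W : WeilCohomology.{u, 0} ops) (X Y : 𝒱.Obj) :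
    TensorProduct W.K (W.H X) (W.H Y) ≃ₗ[W.K] W.H (X.prod Y) :=
  LinearEquiv.ofBijective _ (W.kunneth X Y)

/-- The map `id ⊗ ε` from the cohomology of `X × Y` to that of `X × Z`. -/
noncomputable def idT {W : WeilCohomology.{u, 0} ops} (X : 𝒱.Obj) {Y Z : 𝒱.Obj}
    (ε : W.H Y →ₗ[W.K] W.H Z) : W.H (X.prod Y) →ₗ[W.K] W.H (X.prod Z) :=
  (kun W X Z).toLinearMap ∘ₗ (ε.lTensor (W.H X)) ∘ₗ (kun W X Y).symm.toLinearMap

/-- The map `id ⊗ ⋯ ⊗ id ⊗ ε` from the cohomology of `X i₁ × (X i₂ × (⋯ × Z))` to that of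
`X i₁ × (X i₂ × (⋯ × Z'))`. -/
noncomputable def lift {W : WeilCohomology.{u, 0} ops} {ι : Type} (X : ι → 𝒱.Obj) {Z Z' : 𝒱.Obj}
    (ε : W.H Z →ₗ[W.K] W.H Z') :
    ∀ L : List ι, W.H (productOf X Z L) →ₗ[W.K] W.H (productOf X Z' L)
  | [] => ε
  | i :: L => idT (X i) (lift X ε L)

end Pool.Agent.U231.HF
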