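import Pool.Agent.TH125.Gal.Kun
import Pool.Agent.U231.HF.TDefs
import Pool.Agent.U231.LP.Ari

/-!
# Semilinear actions on a Weil cohomology theory, and contractions
-/

set_option autoImplicit false

open CategoryTheory AlgebraicGeometry Finset

universe u

namespace Pool.Agent.U231.HF

open Pool.Agent.H914 Pool.Agent.H914.VarClass Pool.Agent.H914.VarClass.Obj
  Pool.Agent.H914.WeilCohomology Pool.Agent.H281R3.HT Pool.Agent.TH125.Gal

variable {k : Type u} [Field k] {𝒱 : VarClass k} {ops : CycleOps 𝒱}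

theorem idT_apply {W : WeilCohomology.{u, 0} ops} {X Y Z : 𝒱.Obj} (ε : W.H Y →ₗ[W.K] W.H Z)
    (a : W.H X) (y : W.H Y) : idT X ε (W.map (fst X Y) a * W.map (snd X Y) y) =
      W.map (fst X Z) a * W.map (snd X Z) (ε y) := by
  change (kEquiv W X Z) ((ε.lTensor (W.H X)) ((kEquiv W X Y).symm _)) = _
  rw [kEquiv_symm, LinearMap.lTensor_tmul, kEquiv_tmul]

theorem ctr_idT {W : WeilCohomology.{u, 0} ops} {X Y Z : 𝒱.Obj} (ε : W.H Y →ₗ[W.K] W.H Z)
    (f : W.H X →ₗ[W.K] W.K) (y : W.H (X.prod Y)) : ctr f (idT X ε y) = ε (ctr f y) := by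
  refine kun_ext (L := fun y => ctr f (idT X ε y)) (L' := fun y => ε (ctr f y)) ?_ ?_ ?_ y
  · intro a b
    simp only [map_add]
  · intro a b
    simp only [map_add]
  · intro a z
    rw [idT_apply, ctr_apply, ctr_apply, map_smul]

/-- a group acting by semilinear ring automorphisms, and an operator `G` -/
structure Sem (W : WeilCohomology.{u, 0} ops) (Γ : Type) [Group Γ] where
  τ : Γ → (W.K →+* W.K)
  σ : ∀ (_ : Γ) (X : 𝒱.Obj), W.H X →+ W.H X
  one : ∀ {X : 𝒱.Obj} (x : W.H X), σ 1 X x = x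
  comp : ∀ (g h : Γ) {X : 𝒱.Obj} (x : W.H X), σ (g * h) X x = σ g X (σ h X x)
  τ_one : ∀ r, τ 1 r = r
  τ_comp : ∀ g h r, τ (g * h) r = τ g (τ h r)
  smul : ∀ (g : Γ) {X : 𝒱.Obj} (c : W.K) (a : W.H X), σ g X (c • a) = τ g c • σ g X a
  mul : ∀ (g : Γ) {X : 𝒱.Obj} (a b : W.H X), σ g X (a * b) = σ g X a * σ g X b
  map : ∀ (g : Γ) {X Y : 𝒱.Obj} (f : X ⟶ Y) (b : W.H Y), σ g X (W.map f b) = W.map f (σ g Y b)
  G : ∀ X : 𝒱.Obj, Module.End W.K (W.H X)
  G_mul : ∀ {X : 𝒱.Obj} (a b : W.H X), G X (a * b) = G X a * G X b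
  G_map : ∀ {X Y : 𝒱.Obj} (f : X ⟶ Y) (b : W.H Y), G X (W.map f b) = W.map f (G Y b)

namespace Sem

variable {W : WeilCohomology.{u, 0} ops} {Γ : Type} [Group Γ] (S : Sem W Γ)

theorem σ_inv (g : Γ) {X : 𝒱.Obj} (x : W.H X) : S.σ g⁻¹ X (S.σ g X x) = x := by
  rw [← S.comp, inv_mul_cancel, S.one]

theorem inv_σ (g : Γ) {X : 𝒱.Obj} (x : W.H X) : S.σ g X (S.σ g⁻¹ X x) = x := by
  rw [← S.comp, mul_inv_cancel, S.one]

theorem τ_inv (g : Γ) (r : W.K) : S.τ g⁻¹ (S.τ g r) = r := by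
  rw [← S.τ_comp, inv_mul_cancel, S.τ_one]

theorem inv_τ (g : Γ) (r : W.K) : S.τ g (S.τ g⁻¹ r) = r := by
  rw [← S.τ_comp, mul_inv_cancel, S.τ_one]

theorem τ_intCast (g : Γ) (n : ℤ) : S.τ g ((2 : W.K) ^ n) = (2 : W.K) ^ n := by
  rw [map_zpow₀, map_ofNat]

/-- the conjugate of a functional -/
def tw (g : Γ) {X : 𝒱.Obj} (f : W.H X →ₗ[W.K] W.K) : W.H X →ₗ[W.K] W.K where
  toFun x := S.τ g⁻¹ (f (S.σ g X x))
  map_add' x y := by rw [map_add, map_add, map_add]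
  map_smul' c x := by
    rw [S.smul, map_smul, smul_eq_mul, map_mul, S.τ_inv, RingHom.id_apply, smul_eq_mul]

/-- the conjugate of a linear map -/
def twM (g : Γ) {X Y : 𝒱.Obj} (φ : W.H X →ₗ[W.K] W.H Y) : W.H X →ₗ[W.K] W.H Y where
  toFun x := S.σ g⁻¹ Y (φ (S.σ g X x))
  map_add' x y := by rw [map_add, map_add, map_add]
  map_smul' c x := by
    rw [S.smul, map_smul, S.smul, S.τ_inv, RingHom.id_apply]

theorem tw_apply (g : Γ) {X : 𝒱.Obj} (f : W.H X →ₗ[W.K] W.K) (x : W.H X) :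
    S.tw g f x = S.τ g⁻¹ (f (S.σ g X x)) := rfl

theorem twM_apply (g : Γ) {X Y : 𝒱.Obj} (φ : W.H X →ₗ[W.K] W.H Y) (x : W.H X) :
    S.twM g φ x = S.σ g⁻¹ Y (φ (S.σ g X x)) := rfl

/-- the action and contractions -/
theorem ctr_σ (g : Γ) {X Y : 𝒱.Obj} (f : W.H X →ₗ[W.K] W.K) (y : W.H (X.prod Y)) :
    ctr f (S.σ g (X.prod Y) y) = S.σ g Y (ctr (S.tw g f) y) := by
  refine kun_ext (L := fun y => ctr f (S.σ g (X.prod Y) y))
    (L' := fun y => S.σ g Y (ctr (S.tw g f) y)) ?_ ?_ ?_ y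
  · intro a b
    simp only [map_add]
  · intro a b
    simp only [map_add]
  · intro a z
    rw [S.mul, S.map, S.map, ctr_apply, ctr_apply, S.smul, tw_apply, S.inv_τ]

/-- the operator `G` and contractions with eigenfunctionals -/
theorem ctr_G {X Y : 𝒱.Obj} {f : W.H X →ₗ[W.K] W.K} {lam : W.K}
    (hf : ∀ x, f (S.G X x) = lam * f x) (y : W.H (X.prod Y)) :
    ctr f (S.G (X.prod Y) y) = lam • S.G Y (ctr f y) := by
  refine kun_ext (L := fun y => ctr f (S.G (X.prod Y) y))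
    (L' := fun y => lam • S.G Y (ctr f y)) ?_ ?_ ?_ y
  · intro a b
    simp only [map_add]
  · intro a b
    simp only [map_add, smul_add]
  · intro a z
    rw [S.G_mul, S.G_map, S.G_map, ctr_apply, ctr_apply, hf, map_smul, smul_smul]

/-- the conjugate of the operator `G` by the element `t` -/
def cG (t : Γ) (Z : 𝒱.Obj) : Module.End W.K (W.H Z) where
  toFun x := S.σ t Z (S.G Z (S.σ t⁻¹ Z x))
  map_add' x y := by rw [map_add, map_add, map_add]
  map_smul' c x := by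
    rw [S.smul, map_smul, S.smul, S.inv_τ, RingHom.id_apply]

theorem cG_apply (t : Γ) {Z : 𝒱.Obj} (x : W.H Z) :
    S.cG t Z x = S.σ t Z (S.G Z (S.σ t⁻¹ Z x)) := rfl

end Sem

end Pool.Agent.U231.HF
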