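import Pool.Agent.U231.HF.Dec
import Pool.Agent.Y133.Half.PredSys

/-!
# Varieties of Fermat type in Hodge theory: one step of the decomposition
-/

set_option autoImplicit false

open CategoryTheory AlgebraicGeometry Finset TensorProduct

universe u

namespace Pool.Agent.U231.HF

open Pool.Agent.H914 Pool.Agent.H914.VarClass Pool.Agent.H914.VarClass.Obj
  Pool.Agent.H914.WeilCohomology Pool.Agent.H281R3.HT Pool.Agent.TH125.Gal
  Pool.Agent.U231.FT Pool.Agent.Y121.AH Pool.Agent.Y133.Half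

variable {k : Type u} [Field k] {𝒱 : VarClass k} {ops : CycleOps 𝒱}

/-- contractions with classes are push-forwards -/
theorem ctr_bil {W : WeilCohomology.{u, 0} ops} {A Z : 𝒱.Obj} (u : W.H A) (c : W.H (A.prod Z)) :
    ctr (bil W A u) c = W.push (snd A Z) (W.map (fst A Z) u * c) := by
  refine kun_ext (L := fun c => ctr (bil W A u) c)
    (L' := fun c => W.push (snd A Z) (W.map (fst A Z) u * c)) ?_ ?_ ?_ c
  · intro a b
    rw [map_add]
  · intro a b
    rw [mul_add, map_add]
  · intro a z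
    rw [ctr_apply, bil_apply, ← mul_assoc, ← map_mul, W.push_snd]

theorem lift_em {T : HodgeTheory ops} {ι : Type} (X : ι → 𝒱.Obj) {Z : 𝒱.Obj}
    (ε : Module.End T.W.K (T.W.H Z)) : ∀ (L : List ι) (x : T.W.H (productOf X Z L)),
      lift X (bc ε) L (em T.W ℂ x) = em T.W ℂ (lift X ε L x)
  | [], x => bc_em ε x
  | i :: L, x => by
    have key : ∀ x : T.W.H ((X i).prod (productOf X Z L)),
        idT (X i) (lift X (bc ε) L) (em T.W ℂ x) = em T.W ℂ (idT (X i) (lift X ε L) x) := by
      intro x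
      refine kun_ext (L := fun x => idT (X i) (lift X (bc ε) L) (em T.W ℂ x))
        (L' := fun x => em T.W ℂ (idT (X i) (lift X ε L) x)) ?_ ?_ ?_ x
      · intro a b
        rw [em_add, map_add]
      · intro a b
        rw [map_add, em_add]
      · intro a z
        rw [em_mul, ← em_map, ← em_map, idT_apply, lift_em X ε L z, idT_apply, em_mul, em_map,
          em_map]
    exact key x

theorem lift_id {W : WeilCohomology.{u, 0} ops} {ι : Type} (X : ι → 𝒱.Obj) {Z : 𝒱.Obj} :
    ∀ (L : List ι) (x : W.H (productOf X Z L)), lift X LinearMap.id L x = x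
  | [], x => rfl
  | i :: L, x => by
    have key : ∀ x : W.H ((X i).prod (productOf X Z L)),
        idT (X i) (lift X LinearMap.id L) x = x := by
      intro x
      refine kun_ext (L := fun x => idT (X i) (lift X LinearMap.id L) x) (L' := fun x => x)
        ?_ ?_ ?_ x
      · intro a b
        rw [map_add]
      · intro a b
        rfl
      · intro a z
        rw [idT_apply, lift_id X L z]
    exact key x

variable {T : HodgeTheory ops} {ι : Type} {N s : ι → ℕ} {B : ℕ} {X : ι → 𝒱.Obj} {Z : 𝒱.Obj}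
  [∀ i, NeZero (N i)] {ε : Module.End T.W.K (T.W.H Z)}

/-- the data of a system -/
structure SysData (T : HodgeTheory ops) {ι : Type} (N s : ι → ℕ) [∀ i, NeZero (N i)] (B : ℕ)
    (X : ι → 𝒱.Obj) (Z : 𝒱.Obj) (ε : Module.End T.W.K (T.W.H Z)) where
  prime : ∀ i, (N i).Prime
  ne : ∀ i j, i ≠ j → N i ≠ N j
  D : ∀ i, FD T (N i) (s i) (X i)
  pieces : Pieces T B Z ε
  large : ∀ i, IsLarge (N i) (s i) B
  pos : 0 < B
  point : ∀ i, ∃ z, (X i).IsCyc (X i).dim z ∧ (X i).V.degCycle z ≠ 0

namespace SysData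

variable (S : SysData T N s B X Z ε)

include S

theorem homEqNum (i : ι) : HomEqNum T.W (X i) :=
  (S.D i).homEqNum T.rat ((S.large i).one S.pos)

/-- all functionals -/
theorem exists_funs [DecidableEq ι] (L : List ι) (hL : L.Nodup) :
    Nonempty (Funs (fun i => (S.D i).C) Z (bc ε) L.toFinset (productOf X Z L)
      (lift X (bc ε) L)) := by
  induction L with
  | nil => exact ⟨Funs.base _ Z _⟩
  | cons i L ih =>
    obtain ⟨h1, h2⟩ := List.nodup_cons.1 hL
    obtain ⟨Q⟩ := ih h2
    have h3 : i ∉ L.toFinset := fun h => h1 (List.mem_toFinset.1 h)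
    rw [List.toFinset_cons]
    exact ⟨Funs.step _ Q h3⟩

/-- the independence -/
theorem indep (A : Finset ι) (t : ∀ i, (ZMod (N i))ˣ) :
    ∃ g, ∀ i ∈ A, ((cyc T.W.K (N i))⁻¹ : (ℂ ≃ₐ[T.W.K] ℂ) →* (ZMod (N i))ˣ) g = t i := by
  obtain ⟨g, hg⟩ := exists_cyc (K := T.W.K) T.rat S.prime S.ne A fun i => (t i)⁻¹
  refine ⟨g, fun i hi => ?_⟩
  rw [MonoidHom.inv_apply, hg i hi, inv_inv]

omit S in
/-- all Hodge classes and their conjugates are fixed -/
theorem _root_.Pool.Agent.U231.HF.isFix_sp {Y : 𝒱.Obj} {x : T.W.H Y}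
    (hx : x ∈ (hodgePred T).sp Y) : IsFix (sem T) Y (em T.W ℂ x) := by
  refine ClassPred.sp_ind (q := fun x => IsFix (sem T) Y (em T.W ℂ x)) ?_ ?_ ?_ hx
  · intro j x hx
    exact isFix_of_hodge hx
  · intro g
    rw [sig_em, em_zero, map_zero]
  · intro a b ha hb g
    have h1 := ha g
    have h2 := hb g
    rw [sig_em] at h1 h2 ⊢
    rw [em_add, map_add, h1, h2]

/-- **The nonsymmetric components vanish.** -/
theorem ctr_zero {i : ι} {L : List ι} (hi : i ∉ L) (hL : L.Nodup)
    {x : T.W.H ((X i).prod (productOf X Z L))}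
    (hx : x ∈ (hodgePred T).sp ((X i).prod (productOf X Z L)))
    (hxε : idT (X i) (lift X ε L) x = x) {j : Fin (S.D i).C.n}
    (hj : ¬(S.D i).C.Symm j) {f : (CW T).H (X i) →ₗ[(CW T).K] (CW T).K}
    (hf : (S.D i).C.IsFn j f) : ctr f (em T.W ℂ x) = 0 := by
  classical
  obtain ⟨Q⟩ := S.exists_funs L hL
  have hi' : i ∉ L.toFinset := fun h => hi (List.mem_toFinset.1 h)
  apply Q.sep
  intro t φ hφ
  have h3 : Q.Φ t = Q.Φ (Function.update t i (some j)) := Q.ext _ _ fun a ha => by
    rw [Function.update_of_ne (fun h4 : a = i => hi' (h4 ▸ ha))]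
  have h4 : φ ∘ₗ ctr f ∈ (Funs.step _ Q hi').Φ (Function.update t i (some j)) := by
    refine ⟨f, ?_, φ, h3 ▸ hφ, rfl⟩
    rw [Function.update_self]
    exact ⟨j, rfl, hf⟩
  have h5 : idT (X i) (lift X (bc ε) L) (em T.W ℂ x) = em T.W ℂ x := by
    have h6 := lift_em X ε (i :: L) x
    have h7 : lift X ε (i :: L) x = x := hxε
    rw [h7] at h6
    exact h6
  refine vanish (fun i => (S.D i).C) (Funs.step _ Q hi') (smallPieces S.pieces) S.large
    (fun A t => S.indep A t) (isFix_sp hx) h5 ⟨i, mem_insert_self _ _, j, ?_, hj⟩ h4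
  rw [Function.update_self]

/-- **The transcendental components vanish.** -/
theorem ctr_trans {i : ι} {L : List ι} (hi : i ∉ L) (hL : L.Nodup)
    {x : T.W.H ((X i).prod (productOf X Z L))}
    (hx : x ∈ (hodgePred T).sp ((X i).prod (productOf X Z L)))
    (hxε : idT (X i) (lift X ε L) x = x) {t : T.W.H (X i)}
    (ht : t ∈ transcendental T.W (X i)) : ctr (bil T.W (X i) t) x = 0 := by
  have h1 : em T.W ℂ (ctr (bil T.W (X i) t) x) =
      ctr (bil (CW T) (X i) (em T.W ℂ t)) (em T.W ℂ x) := by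
    rw [ctr_bil, ctr_bil, ← em_push, em_mul, ← em_map]
  have h2 : ∀ b ∈ Submodule.span (CW T).K
      {x | ∃ j z, (X i).IsCyc j z ∧ x = em T.W ℂ (T.W.cl (X i) z)},
      bil (CW T) (X i) (em T.W ℂ t) b = 0 := by
    intro b hb
    induction hb using Submodule.span_induction with
    | mem x hx =>
      obtain ⟨j, z, hz, rfl⟩ := hx
      have h3 := mem_trans.1 ht j _ ⟨z, hz, rfl⟩
      rw [bil_apply] at h3
      rw [bil_apply, ← em_mul, em_tr, h3]
      exact map_zero (algebraMap T.W.K ℂ)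
    | zero => rw [map_zero]
    | add x y _ _ hx hy => rw [map_add, hx, hy, add_zero]
    | smul r x _ hx => rw [map_smul, hx, smul_zero]
  refine em_injective (h1.trans ?_)
  rw [(S.D i).C.ctr_fn_sum]
  refine sum_eq_zero fun j _ => ?_
  by_cases hj : (S.D i).C.Symm j
  · have h3 : bil (CW T) (X i) (em T.W ℂ t) ∘ₗ (S.D i).C.pr j = 0 := by
      apply LinearMap.ext
      intro b
      exact h2 _ ((S.D i).alg j hj ((S.D i).C.pr_mem j b))
    rw [h3]
    refine kun_ext (L := fun y => ctr (0 : (CW T).H (X i) →ₗ[(CW T).K] (CW T).K) y)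
      (L' := fun _ => 0) ?_ ?_ ?_ (em T.W ℂ x)
    · intro a b
      rw [map_add]
    · intro a b
      rw [add_zero]
    · intro a z
      rw [ctr_apply, LinearMap.zero_apply, zero_smul]
  · exact S.ctr_zero hi hL hx hxε hj ((S.D i).C.isFn_pr j _)

end SysData

end Pool.Agent.U231.HF
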