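import Pool.Agent.U231.HF.Defs

/-!
# Families of varieties: definitions

A smooth projective family over `S` enters through the cohomology of its fibres and the maps between the
cohomology groups of two fibres which are given by the paths in `S`.
-/

set_option autoImplicit false

open CategoryTheory AlgebraicGeometry

universe u

namespace Pool.Agent.U231.HF.VH

open Pool.Agent.H914 Pool.Agent.H914.VarClass Pool.Agent.H914.VarClass.Obj
  Pool.Agent.H914.WeilCohomology Pool.Agent.Y121.AHS

section products

variable {K A V V' W W' : Type} [Field K] [Ring A] [Algebra K A] [Ring V] [Algebra K V] [Ring V']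
  [Algebra K V'] [Ring W] [Algebra K W] [Ring W'] [Algebra K W']

/-- The map is additive. -/
def IsAdditive {V V' : Type} [Ring V] [Ring V'] (p : V → V') : Prop :=
  ∀ x y, p (x + y) = p x + p y

/-- The additive maps `q` with `q (f a * g y) = f' a * g' (p y)`, for the maps `p` in `P`. -/
def productMaps (f : A →ₐ[K] W) (g : V →ₐ[K] W) (f' : A →ₐ[K] W') (g' : V' →ₐ[K] W')
    (P : Set (V → V')) : Set (W → W') :=
  {q | IsAdditive q ∧ ∃ p ∈ P, ∀ a y, q (f a * g y) = f' a * g' (p y)}

/-- The element `x` is the sum of the products `f (a l) * g (y l)`. -/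
def IsSumOfProducts {n : ℕ} (f : A →ₐ[K] W) (g : V →ₐ[K] W) (a : Fin n → A) (y : Fin n → V)
    (x : W) : Prop :=
  x = ∑ l, f (a l) * g (y l)

end products

variable {k : Type u} [Field k] {𝒱 : VarClass k} {ops : CycleOps 𝒱}

/-- A family of varieties over `S`: the fibres, and the maps from the rational cohomology of the
fibre at `s` to that of the fibre at `t` which are given by the paths from `s` to `t`. -/
structure Family (W : WeilCohomology.{u, 0} ops) (S : Type) where
  /-- the fibres -/
  fibre : S → 𝒱.Obj
  /-- the transport along the paths from `s` to `t` -/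
  path : ∀ s t, Set (W.H (fibre s) → W.H (fibre t))
  add : ∀ s t, ∀ p ∈ path s t, IsAdditive p

variable {W : WeilCohomology.{u, 0} ops} {S ι : Type} (X : ι → 𝒱.Obj)

/-- The maps `id ⊗ (id ⊗ (⋯ ⊗ p))`, for the maps `p` in `P`. -/
def productsMaps {Z Z' : 𝒱.Obj} (P : Set (W.H Z → W.H Z')) :
    ∀ L : List ι, Set (W.H (productOf X Z L) → W.H (productOf X Z' L))
  | [] => P
  | i :: L => productMaps (W.map (fst (X i) (productOf X Z L)))
      (W.map (snd (X i) (productOf X Z L))) (W.map (fst (X i) (productOf X Z' L)))
      (W.map (snd (X i) (productOf X Z' L))) (productsMaps P L)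

theorem productsMaps_add {Z Z' : 𝒱.Obj} {P : Set (W.H Z → W.H Z')}
    (h : ∀ p ∈ P, IsAdditive p) : ∀ L : List ι, ∀ q ∈ productsMaps X P L, IsAdditive q
  | [] => h
  | _ :: _ => fun _ hq => hq.1

/-- The family with the fibres `X i₁ × (X i₂ × (⋯ × F_s))`. -/
noncomputable def Family.times (F : Family W S) (L : List ι) : Family W S where
  fibre s := productOf X (F.fibre s) L
  path s t := productsMaps X (F.path s t) L
  add s t := productsMaps_add X (F.add s t) L

/-- The transport maps preserve the degrees. -/
def Family.IsGraded (F : Family W S) : Prop :=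
  ∀ s t, ∀ p ∈ F.path s t, ∀ i, ∀ x ∈ W.gr (F.fibre s) i, p x ∈ W.gr (F.fibre t) i

/-- All points can be reached from `o`. -/
def Family.IsConnected (F : Family W S) (o : S) : Prop := ∀ s, (F.path o s).Nonempty

/-- `φ` is a global section of the local system of the cohomology of the fibres: it is transported
into itself along all paths. -/
def Family.IsFlat (F : Family W S) (φ : ∀ s, W.H (F.fibre s)) : Prop :=
  ∀ s t, ∀ p ∈ F.path s t, p (φ s) = φ t

/-- The variational Hodge conjecture in codimension `p` with respect to the point `o`: if a global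
section is the class of an algebraic cycle of codimension `p` at `o`, then it is so at all points. -/
def Variational (F : Family W S) (o : S) (p : ℕ) : Prop :=
  ∀ φ, F.IsFlat φ → IsAlg W (F.fibre o) p (φ o) → ∀ s, IsAlg W (F.fibre s) p (φ s)

/-- The section `φ` of the cohomology of the fibres of the product family is a sum of external
products `a_1 × ⋯ × a_r × ψ` of classes `a_j` of algebraic cycles of codimension `c_j` on the
`X i` and sections `ψ` of the cohomology of the fibres of `F` with the property `P q`, where
`c_1 + ⋯ + c_r + q = p`. -/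
def IsExtSection (F : Family W S) (P : ℕ → (∀ s, W.H (F.fibre s)) → Prop) :
    ∀ L : List ι, ℕ → (∀ s, W.H (productOf X (F.fibre s) L)) → Prop
  | [], p, φ => P p φ
  | i :: L, p, φ => ∃ (n : ℕ) (a : Fin n → W.H (X i))
      (ψ : Fin n → ∀ s, W.H (productOf X (F.fibre s) L)),
      (∀ l, ∃ c q, c + q = p ∧ IsAlg W (X i) c (a l) ∧ IsExtSection F P L q (ψ l)) ∧
      ∀ s, IsSumOfProducts (W.map (fst (X i) (productOf X (F.fibre s) L)))
        (W.map (snd (X i) (productOf X (F.fibre s) L))) a (fun l => ψ l s) (φ s)

/-- `φ` is a global section which is a Hodge class of degree `2 p` at `o`. -/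
def IsHodgeSection (T : HodgeTheory ops) (F : Family T.W S) (o : S) (p : ℕ)
    (φ : ∀ s, T.W.H (F.fibre s)) : Prop :=
  F.IsFlat φ ∧ IsHodge T (F.fibre o) p (φ o)

end Pool.Agent.U231.HF.VH
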