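import Pool.Agent.U231.HF.Conv
import Pool.Agent.U231.HF.Cmp
import Pool.Agent.U231.HF.VHDefs

/-!
# The variational Hodge conjecture on products with varieties of Fermat type
-/

set_option autoImplicit false

open CategoryTheory AlgebraicGeometry Finset TensorProduct

universe u

namespace Pool.Agent.U231.HF.VH

open Pool.Agent.H914 Pool.Agent.H914.VarClass Pool.Agent.H914.VarClass.Obj
  Pool.Agent.H914.WeilCohomology Pool.Agent.H281R3.HT Pool.Agent.TH125.Gal
  Pool.Agent.U231.FT Pool.Agent.Y121 Pool.Agent.Y121.AHS Pool.Agent.Y133.Half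

variable {k : Type u} [Field k] {𝒱 : VarClass k} {ops : CycleOps 𝒱}

section lin

variable {W : WeilCohomology.{u, 0} ops} (hrat : ∀ r : W.K, ∃ q : ℚ, (q : W.K) = r)

include hrat in
theorem smul_of_add {Y Z : 𝒱.Obj} {p : W.H Y → W.H Z} (hp : IsAdditive p) (r : W.K)
    (x : W.H Y) : p (r • x) = r • p x := by
  obtain ⟨q, rfl⟩ := hrat r
  let f : W.H Y →+ W.H Z := AddMonoidHom.mk' p hp
  exact map_ratCast_smul f W.K W.K q x

/-- the linear map -/
def lin {Y Z : 𝒱.Obj} (p : W.H Y → W.H Z) (hp : IsAdditive p) : W.H Y →ₗ[W.K] W.H Z where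
  toFun := p
  map_add' := hp
  map_smul' r x := smul_of_add hrat hp r x

theorem idT_productMaps {X Y Y' : 𝒱.Obj} {P : Set (W.H Y → W.H Y')} {p : W.H Y → W.H Y'}
    (hp : p ∈ P) (hp' : IsAdditive p) :
    (fun x => idT X (lin hrat p hp') x) ∈ productMaps (W.map (fst X Y)) (W.map (snd X Y))
      (W.map (fst X Y')) (W.map (snd X Y')) P :=
  ⟨fun x y => map_add _ x y, p, hp, fun a y => idT_apply (lin hrat p hp') a y⟩

theorem ctr_lin {X Y Y' : 𝒱.Obj} {p : W.H Y → W.H Y'} (hp' : IsAdditive p)
    (f : W.H X →ₗ[W.K] W.K) {x : W.H (X.prod Y)} {y : W.H (X.prod Y')}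
    (h : idT X (lin hrat p hp') x = y) : p (ctr f x) = ctr f y := by
  rw [← h, ctr_idT]
  rfl

/-- additive maps which preserve the degrees commute with the projectors -/
theorem proj_comm {Y Y' : 𝒱.Obj} {p : W.H Y → W.H Y'} (hp : IsAdditive p)
    (hd : ∀ i, ∀ x ∈ W.gr Y i, p x ∈ W.gr Y' i) (i : ℕ) (x : W.H Y) :
    p (H914.proj (W.isInternal Y) i x) = H914.proj (W.isInternal Y') i (p x) := by
  have h0 : p 0 = 0 := by
    have h1 := hp 0 0
    rw [add_zero] at h1
    exact left_eq_add.1 h1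
  refine gr_induction (W.isInternal Y) (p := fun x =>
    p (H914.proj (W.isInternal Y) i x) = H914.proj (W.isInternal Y') i (p x)) ?_ ?_ x
  · intro l a ha
    by_cases h : l = i
    · subst h
      rw [proj_same _ ha, proj_same _ (hd l a ha)]
    · rw [proj_ne _ ha h, proj_ne _ (hd l a ha) h, h0]
  · intro a b ha hb
    rw [map_add, hp, hp, map_add, ha, hb]

/-- maps of products preserve the degrees -/
theorem productMaps_deg {X Y Y' : 𝒱.Obj} {P : Set (W.H Y → W.H Y')}
    (hd : ∀ p ∈ P, ∀ i, ∀ x ∈ W.gr Y i, p x ∈ W.gr Y' i) {q : W.H (X.prod Y) → W.H (X.prod Y')}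
    (hq : q ∈ productMaps (W.map (fst X Y)) (W.map (snd X Y)) (W.map (fst X Y'))
      (W.map (snd X Y')) P) {i : ℕ} {x : W.H (X.prod Y)} (hx : x ∈ W.gr (X.prod Y) i) :
    q x ∈ W.gr (X.prod Y') i := by
  obtain ⟨hq1, p, hp, hpq⟩ := hq
  have h0 : q 0 = 0 := by
    have h1 := hq1 0 0
    rw [add_zero] at h1
    exact left_eq_add.1 h1
  have key : ∀ x : W.H (X.prod Y), q (H914.proj (W.isInternal _) i x) =
      H914.proj (W.isInternal _) i (q x) := by
    intro x
    refine W.kunneth_induction (p := fun x => q (H914.proj (W.isInternal _) i x) =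
      H914.proj (W.isInternal _) i (q x)) ?_ ?_ x
    · intro a b ha hb
      rw [map_add, hq1, hq1, map_add, ha, hb]
    · intro l m a ha b hb
      have h1 : W.map (fst X Y) a * W.map (snd X Y) b ∈ W.gr (X.prod Y) (l + m) :=
        W.mul_mem (W.map_mem _ ha) (W.map_mem _ hb)
      have h2 : q (W.map (fst X Y) a * W.map (snd X Y) b) ∈ W.gr (X.prod Y') (l + m) := by
        rw [hpq]
        exact W.mul_mem (W.map_mem _ ha) (W.map_mem _ (hd p hp m b hb))
      by_cases h : l + m = i
      · subst h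
        rw [proj_same _ h1, proj_same _ h2]
      · rw [proj_ne _ h1 h, proj_ne _ h2 h, h0]
  have h3 := key x
  rw [proj_same _ hx] at h3
  rw [h3]
  exact proj_mem _ _ _

/-- homogeneous parts of products -/
theorem proj_prod {X Y : 𝒱.Obj} {p e : ℕ} {b : W.H X} (hb : b ∈ W.gr X (2 * e)) (y : W.H Y) :
    H914.proj (W.isInternal (X.prod Y)) (2 * p) (W.map (fst X Y) b * W.map (snd X Y) y) =
      W.map (fst X Y) (if e ≤ p then b else 0) *
        W.map (snd X Y) (H914.proj (W.isInternal Y) (2 * (p - e)) y) := by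
  refine gr_induction (W.isInternal Y) (p := fun y =>
    H914.proj (W.isInternal (X.prod Y)) (2 * p) (W.map (fst X Y) b * W.map (snd X Y) y) =
      W.map (fst X Y) (if e ≤ p then b else 0) *
        W.map (snd X Y) (H914.proj (W.isInternal Y) (2 * (p - e)) y)) ?_ ?_ y
  · intro m y hy
    have h1 : W.map (fst X Y) b * W.map (snd X Y) y ∈ W.gr (X.prod Y) (2 * e + m) :=
      W.mul_mem (W.map_mem _ hb) (W.map_mem _ hy)
    by_cases h : e ≤ p
    · rw [if_pos h]
      by_cases h2 : m = 2 * (p - e)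
      · subst h2
        rw [show 2 * e + 2 * (p - e) = 2 * p by omega] at h1
        rw [proj_same _ h1, proj_same _ hy]
      · rw [proj_ne _ h1 (by omega), proj_ne _ hy h2, map_zero, mul_zero]
    · rw [if_neg h, proj_ne _ h1 (by omega), map_zero, zero_mul]
  · intro a c ha hc
    rw [map_add, mul_add, map_add, ha, hc, map_add, map_add, mul_add]

end lin

section sections

variable {W : WeilCohomology.{u, 0} ops} (hrat : ∀ r : W.K, ∃ q : ℚ, (q : W.K) = r)
  {S ι : Type} {X : ι → 𝒱.Obj} {F : Family W S}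

theorem times_graded (hF : F.IsGraded) : ∀ L : List ι, (F.times X L).IsGraded
  | [] => hF
  | i :: L => fun s t _ hq _ _ hx =>
    productMaps_deg (X := X i) (Y := productOf X (F.fibre s) L) (Y' := productOf X (F.fibre t) L)
      (fun p hp i x hx => times_graded hF L s t p hp i x hx) hq hx

include hrat in
theorem times_connected {o : S} (hc : F.IsConnected o) :
    ∀ L : List ι, (F.times X L).IsConnected o
  | [] => hc
  | i :: L => fun s => by
    obtain ⟨p, hp⟩ := times_connected hc L s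
    exact ⟨_, idT_productMaps (X := X i) (Y := productOf X (F.fibre o) L)
      (Y' := productOf X (F.fibre s) L) hrat hp ((F.times X L).add o s p hp)⟩

include hrat in
theorem ctr_flat {i : ι} {L : List ι} {φ : ∀ s, W.H ((X i).prod (productOf X (F.fibre s) L))}
    (h : (F.times X (i :: L)).IsFlat φ) (f : W.H (X i) →ₗ[W.K] W.K) :
    (F.times X L).IsFlat fun s => ctr f (φ s) := by
  intro s t p hp
  have hp' : IsAdditive p := (F.times X L).add s t p hp
  have h1 : idT (X i) (lin (Y := productOf X (F.fibre s) L) (Z := productOf X (F.fibre t) L)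
      hrat p hp') (φ s) = φ t :=
    h s t _ (idT_productMaps (X := X i) (Y := productOf X (F.fibre s) L)
      (Y' := productOf X (F.fibre t) L) hrat hp hp')
  exact ctr_lin (Y := productOf X (F.fibre s) L) (Y' := productOf X (F.fibre t) L) hrat hp' f h1

/-- products with a constant class are flat -/
theorem mul_flat {i : ι} {L : List ι} {φ : ∀ s, W.H (productOf X (F.fibre s) L)}
    (h : (F.times X L).IsFlat φ) (a : W.H (X i)) :
    (F.times X (i :: L)).IsFlat fun s => W.map (fst (X i) (productOf X (F.fibre s) L)) a *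
      W.map (snd (X i) (productOf X (F.fibre s) L)) (φ s) := by
  rintro s t q ⟨hq, p, hp, hpq⟩
  have h1 : p (φ s) = φ t := h s t p hp
  exact (hpq a (φ s)).trans (congrArg (fun c : W.H (productOf X (F.fibre t) L) =>
    W.map (fst (X i) (productOf X (F.fibre t) L)) a *
      W.map (snd (X i) (productOf X (F.fibre t) L)) c) h1)

/-- homogeneous parts are flat -/
theorem proj_flat {G : Family W S} (hG : G.IsGraded) {φ : ∀ s, W.H (G.fibre s)}
    (h : G.IsFlat φ) (i : ℕ) : G.IsFlat fun s => H914.proj (W.isInternal (G.fibre s)) i (φ s) := by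
  intro s t p hp
  show p (H914.proj (W.isInternal (G.fibre s)) i (φ s)) = _
  rw [proj_comm (G.add s t p hp) (hG s t p hp), h s t p hp]

/-- values of sums of external products -/
theorem ext_section_P {Q : ClassPred W} {P : ℕ → (∀ s, W.H (F.fibre s)) → Prop} {s : S} :
    ∀ (L : List ι) (p : ℕ) (e : ∀ s, W.H (productOf X (F.fibre s) L)),
      (∀ j ≤ p, p ≤ j + (L.map fun i => (X i).dim).sum → ∀ ψ, P j ψ → Q.P (F.fibre s) j (ψ s)) →
      IsExtSection X F P L p e → Q.P (productOf X (F.fibre s) L) p (e s)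
  | [], p, e, hP, h => hP p le_rfl (by simp) e h
  | i :: L, p, e, hP, h => by
    obtain ⟨n, a, ψ, h1, h2⟩ := h
    have h3 : Q.P ((X i).prod (productOf X (F.fibre s) L)) p
        (∑ l, W.map (fst (X i) (productOf X (F.fibre s) L)) (a l) *
          W.map (snd (X i) (productOf X (F.fibre s) L)) (ψ l s)) := by
      refine Finset.sum_induction _ (fun c => Q.P ((X i).prod (productOf X (F.fibre s) L)) p c)
        (fun _ _ ha hb => Q.add ha hb) Q.zero fun l _ => ?_
      obtain ⟨c, q, hcq, ⟨z, hz, hz'⟩, h4⟩ := h1 l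
      by_cases hc : c ≤ (X i).dim
      · have h5 : Q.P (productOf X (F.fibre s) L) q (ψ l s) :=
          ext_section_P L q (ψ l) (fun j hj hj' => hP j (by omega) (by
            rw [List.map_cons, List.sum_cons]
            omega)) h4
        have h6 : Q.P (X i) c (a l) := hz' ▸ Q.cl hz
        rw [← hcq]
        exact Q.mul (Q.map _ h6) (Q.map _ h5)
      · have h6 : a l ∈ W.gr (X i) (2 * c) := hz' ▸ W.cl_mem hz
        rw [W.gr_eq_bot (X i) _ (by omega), Submodule.mem_bot] at h6
        rw [h6, map_zero, zero_mul]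
        exact Q.zero
    exact (h2 s).symm ▸ h3

end sections

section main

variable {T : AH.HodgeTheory ops} {ι : Type} {N s : ι → ℕ} {B : ℕ} {X : ι → 𝒱.Obj}
  [∀ i, NeZero (N i)] {S : Type} {F : Family T.W S} {o : S}

/-- **Global sections which are Hodge classes at `o` are sums of external products of
algebraic classes and global sections.** -/
theorem section_ext (D : SysData T N s B X (F.fibre o) LinearMap.id) (hF : F.IsGraded)
    (hc : F.IsConnected o) (Q : ClassPred T.W) (hQ : ∀ Y j c, Q.P Y j c → AH.IsHodge T Y j c)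
    (L : List ι) (hL : L.Nodup) : ∀ (p : ℕ) (φ : ∀ s, T.W.H (productOf X (F.fibre s) L)),
      (F.times X L).IsFlat φ → Q.P (productOf X (F.fibre o) L) p (φ o) →
      IsExtSection X F (fun p ψ => F.IsFlat ψ ∧ Q.P (F.fibre o) p (ψ o)) L p φ := by
  induction L with
  | nil =>
    intro p φ h1 h3
    exact ⟨h1, h3⟩
  | cons i L ih =>
    obtain ⟨hi, hL'⟩ := List.nodup_cons.1 hL
    intro p φ h1 h3
    obtain ⟨b⟩ := exists_SB (D.homEqNum i)
    have hx : φ o ∈ Q.sp ((X i).prod (productOf X (F.fibre o) L)) := ClassPred.sp_of h3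
    have hx' : φ o ∈ (AH.hodgePred T).sp ((X i).prod (productOf X (F.fibre o) L)) :=
      sp_mono (Q := Q) (Q' := AH.hodgePred T) (fun j c hc => hQ _ j c hc) hx
    have hxε : idT (X i) (lift X LinearMap.id L) (φ o) = φ o := lift_id X (i :: L) (φ o)
    have h4 := expand_alg b (fun t ht => D.ctr_trans hi hL' hx' hxε ht)
    choose z hz hz' using b.alg
    have hbg : ∀ l, (b.bC l : T.W.H (X i)) ∈ T.W.gr (X i) (2 * b.jC l) := fun l =>
      hz' l ▸ T.W.cl_mem (hz l)
    have hG := times_graded (X := X) hF (i :: L)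
    -- the expansion at all points
    have h7 : ∀ s, φ s = ∑ l, T.W.map (fst (X i) (productOf X (F.fibre s) L)) (b.bC l) *
        T.W.map (snd (X i) (productOf X (F.fibre s) L))
          (ctr (bil T.W (X i) (b.uC l)) (φ s)) := by
      intro s
      obtain ⟨p, hp⟩ := times_connected (X := X) T.rat hc L s
      have hp' : IsAdditive p := (F.times X L).add o s p hp
      have h6 : idT (X i) (lin (Y := productOf X (F.fibre o) L) (Z := productOf X (F.fibre s) L)
          T.rat p hp') (φ o) = φ s :=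
        h1 o s _ (idT_productMaps (X := X i) (Y := productOf X (F.fibre o) L)
          (Y' := productOf X (F.fibre s) L) T.rat hp hp')
      conv_lhs => rw [← h6, h4]
      rw [map_sum]
      refine sum_congr rfl fun l _ => ?_
      rw [idT_apply]
      congr 2
      exact ctr_lin (Y := productOf X (F.fibre o) L) (Y' := productOf X (F.fibre s) L) T.rat
        hp' (bil T.W (X i) (b.uC l)) h6
    -- the degree
    have h8 : ∀ s, φ s ∈ T.W.gr ((X i).prod (productOf X (F.fibre s) L)) (2 * p) := by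
      intro s
      obtain ⟨q, hq⟩ := times_connected (X := X) T.rat hc (i :: L) s
      have h9 := hG o s q hq (2 * p) (φ o) (Q.gr h3)
      rwa [h1 o s q hq] at h9
    refine ⟨b.NC, fun l => if b.jC l ≤ p then (b.bC l : T.W.H (X i)) else 0, fun l s =>
      H914.proj (T.W.isInternal (productOf X (F.fibre s) L)) (2 * (p - b.jC l))
        (ctr (bil T.W (X i) (b.uC l)) (φ s)), fun l => ⟨p - (p - b.jC l), p - b.jC l, by omega,
        ?_, ?_⟩, fun s => ?_⟩
    · show IsAlg T.W (X i) (p - (p - b.jC l)) (if b.jC l ≤ p then (b.bC l : T.W.H (X i)) else 0)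
      split_ifs with h
      · rw [show p - (p - b.jC l) = b.jC l by omega]
        exact ⟨z l, hz l, hz' l⟩
      · exact ⟨0, SmVar.IsCyc.zero _ _, map_zero _⟩
    · refine ih hL' _ _ (proj_flat (times_graded (X := X) hF L)
        (ctr_flat T.rat h1 (bil T.W (X i) (b.uC l))) _) ?_
      exact ClassPred.sp_proj (ctr_sp (b.uC l).2 hx) _
    · have h9 : φ s = ∑ l, T.W.map (fst (X i) (productOf X (F.fibre s) L))
          (if b.jC l ≤ p then (b.bC l : T.W.H (X i)) else 0) *
          T.W.map (snd (X i) (productOf X (F.fibre s) L))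
            (H914.proj (T.W.isInternal (productOf X (F.fibre s) L)) (2 * (p - b.jC l))
              (ctr (bil T.W (X i) (b.uC l)) (φ s))) := by
        conv_lhs => rw [← proj_same (T.W.isInternal _) (h8 s), h7 s, map_sum]
        exact sum_congr rfl fun l _ => proj_prod (hbg l) _
      exact h9

end main

/-- powers of an algebraic class -/
theorem pow_P {W : WeilCohomology.{u, 0} ops} {Q : ClassPred W} {X : 𝒱.Obj} {D : X.Cycles}
    (hD : X.IsCyc 1 D) : ∀ e : ℕ, Q.P X e (W.cl X D ^ e)
  | 0 => by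
    rw [pow_zero, ← W.cl_fund]
    exact Q.cl X.V.fundCycle_mem
  | e + 1 => by
    rw [pow_succ]
    exact Q.mul (pow_P hD e) (Q.cl hD)

/-- divisors -/
theorem exists_div (T : HodgeTheory ops) (X : 𝒱.Obj)
    (hpt : ∃ z, X.IsCyc X.dim z ∧ X.V.degCycle z ≠ 0) :
    ∃ D : X.Cycles, X.IsCyc 1 D ∧ T.W.tr X (T.W.cl X D ^ X.dim) ≠ 0 := by
  obtain ⟨D, hD, -, h1⟩ := T.polar X
  refine ⟨D, hD, ?_⟩
  have h2 : IsHodgeClass T.pq 0 (1 : T.W.H X) := by
    rw [← T.W.cl_fund]
    exact T.cyc X 0 _ X.V.fundCycle_mem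
  have h3 := h1 0 1 (by omega) h2
  have h4 : (1 : T.W.H X) ≠ 0 := by
    intro h
    obtain ⟨z, hz, hz0⟩ := hpt
    have h5 := T.W.tr_cl hz
    rw [← mul_one (T.W.cl X z), h, mul_zero, map_zero] at h5
    apply hz0
    exact_mod_cast h5.symm
  obtain ⟨r, hr, h5⟩ := h3 (by
    have h6 : T.W.cl X D ^ (X.dim - 2 * 0 + 1) * 1 ∈ T.W.gr X (2 * (X.dim + 1)) := by
      rw [mul_one, mul_zero, Nat.sub_zero]
      exact (algPred T.W).gr (pow_P hD (X.dim + 1))
    rw [T.W.gr_eq_bot X _ (by omega), Submodule.mem_bot] at h6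
    exact h6) h4
  rw [pow_zero, one_mul, mul_one, mul_one, mul_zero, Nat.sub_zero] at h5
  rw [h5]
  exact_mod_cast hr.ne'

section descend

variable {T : HodgeTheory ops} {ι : Type} {X : ι → 𝒱.Obj} {S : Type} {F : Family T.W S} {o : S}

theorem alg_iff {Y : 𝒱.Obj} {j : ℕ} {c : T.W.H Y} :
    IsAlg T.W Y j c ↔ (algPred T.W).P Y j c := isAlg_iff T.rat

theorem var_step {i : ι} {L : List ι} {p e : ℕ}
    (hpt : ∃ z, (X i).IsCyc (X i).dim z ∧ (X i).V.degCycle z ≠ 0) (he : e ≤ (X i).dim)
    (hep : e ≤ p) (h : Variational (F.times X (i :: L)) o p) :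
    Variational (F.times X L) o (p - e) := by
  obtain ⟨D, hD, hD0⟩ := exists_div T (X i) hpt
  intro (φ : ∀ s, T.W.H (productOf X (F.fibre s) L)) h1
    (h3 : IsAlg T.W (productOf X (F.fibre o) L) (p - e) (φ o)) s
  change IsAlg T.W (productOf X (F.fibre s) L) (p - e) (φ s)
  have h4 := mul_flat (X := X) (i := i) (L := L) h1 (T.W.cl (X i) D ^ e)
  have h5 : IsAlg T.W ((X i).prod (productOf X (F.fibre s) L)) p
      (T.W.map (fst (X i) (productOf X (F.fibre s) L)) (T.W.cl (X i) D ^ e) *
        T.W.map (snd (X i) (productOf X (F.fibre s) L)) (φ s)) := by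
    refine h _ h4 ?_ s
    show IsAlg T.W ((X i).prod (productOf X (F.fibre o) L)) p
      (T.W.map (fst (X i) (productOf X (F.fibre o) L)) (T.W.cl (X i) D ^ e) *
        T.W.map (snd (X i) (productOf X (F.fibre o) L)) (φ o))
    rw [alg_iff]
    have h6 := (algPred T.W).mul ((algPred T.W).map (fst (X i) (productOf X (F.fibre o) L))
      (pow_P (Q := algPred T.W) hD e)) ((algPred T.W).map (snd (X i) (productOf X (F.fibre o) L))
        (alg_iff.1 h3))
    rwa [show e + (p - e) = p by omega] at h6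
  rw [alg_iff] at h5 ⊢
  have h6 := (algPred T.W).mul ((algPred T.W).map (fst (X i) (productOf X (F.fibre s) L))
    (pow_P (Q := algPred T.W) hD ((X i).dim - e))) h5
  have h7 := (algPred T.W).push (snd (X i) (productOf X (F.fibre s) L)) (l := p - e)
    (by rw [dim_prod]; omega) h6
  rw [← mul_assoc, ← map_mul, ← pow_add, T.W.push_snd,
    show (X i).dim - e + e = (X i).dim by omega] at h7
  have h8 := (algPred T.W).smul (T.W.tr (X i) (T.W.cl (X i) D ^ (X i).dim))⁻¹ h7
  rwa [smul_smul, inv_mul_cancel₀ hD0, one_smul] at h8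

theorem var_descend (hpt : ∀ i, ∃ z, (X i).IsCyc (X i).dim z ∧ (X i).V.degCycle z ≠ 0) :
    ∀ (L : List ι) (p : ℕ), Variational (F.times X L) o p →
      ∀ j ≤ p, p ≤ j + (L.map fun i => (X i).dim).sum → Variational F o j
  | [], p, h, j, hj, hj' => by
    have h1 : p = j := by
      rw [List.map_nil, List.sum_nil] at hj'
      omega
    subst h1
    exact h
  | i :: L, p, h, j, hj, hj' => by
    rw [List.map_cons, List.sum_cons] at hj'
    have h1 := var_step (hpt i) (min_le_left (X i).dim (p - j)) (by omega) h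
    exact var_descend hpt L _ h1 j (by omega) (by omega)

end descend

variable {T : HodgeTheory ops} {ι : Type} {N s : ι → ℕ} {B : ℕ} {X : ι → 𝒱.Obj} {S : Type}
  {F : Family T.W S} {o : S}

/-- **The variational Hodge conjecture.** -/
theorem variational_iff (hX : AreFermatFactors T N s X) (hF : F.IsGraded)
    (hc : F.IsConnected o) (hB : 0 < B) (hZ : HasPieces T B (F.fibre o))
    (hN : ∀ i, IsLarge (N i) (s i) B) {L : List ι} (hL : L.Nodup) (p : ℕ) :
    Variational (F.times X L) o p ↔
      ∀ j ≤ p, p ≤ j + (L.map fun i => (X i).dim).sum → Variational F o j := by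
  refine ⟨var_descend hX.point L p, fun h φ h1 h2 s => ?_⟩
  have : ∀ i, NeZero (N i) := fun i => ⟨(hX.prime i).ne_zero⟩
  obtain ⟨D⟩ := hX.exists_data hB hN (pieces_of hZ)
  have h4 := section_ext D hF hc (algPred T.W) (fun Y j c hc => ?_) L hL p φ h1 (alg_iff.1 h2)
  · exact alg_iff.2 (ext_section_P (Q := algPred T.W) (s := s) L p φ
      (fun j hj hj' ψ hψ => alg_iff.1 (h j hj hj' ψ hψ.1 (alg_iff.2 hψ.2) s)) h4)
  · obtain ⟨z, hz, rfl⟩ := alg_iff.2 hc
    exact T.cyc Y j z hz

/-- **Global sections of Hodge classes.** -/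
theorem hodge_sections (hX : AreFermatFactors T N s X) (hF : F.IsGraded)
    (hc : F.IsConnected o) (hB : 0 < B) (hZ : HasPieces T B (F.fibre o))
    (hN : ∀ i, IsLarge (N i) (s i) B) {L : List ι} (hL : L.Nodup) {p : ℕ}
    {φ : ∀ s, T.W.H ((F.times X L).fibre s)} (h : IsHodgeSection T (F.times X L) o p φ) :
    IsExtSection X F (IsHodgeSection T F o) L p φ := by
  have : ∀ i, NeZero (N i) := fun i => ⟨(hX.prime i).ne_zero⟩
  obtain ⟨D⟩ := hX.exists_data hB hN (pieces_of hZ)
  exact section_ext D hF hc (AH.hodgePred (toH T)) (fun Y j c hc => hc) L hL p φ h.1 h.2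

end Pool.Agent.U231.HF.VH
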