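import Pool.Agent.U231.HF.Fun

/-!
# Varieties of Fermat type in Hodge theory: there are no components for characters which are not
symmetric
-/

set_option autoImplicit false

open CategoryTheory AlgebraicGeometry Finset

universe u

namespace Pool.Agent.U231.HF

open Pool.Agent.H914 Pool.Agent.H914.VarClass Pool.Agent.H914.VarClass.Obj
  Pool.Agent.H914.WeilCohomology Pool.Agent.H281R3.HT Pool.Agent.TH125.Gal
  Pool.Agent.U231.FT Pool.Agent.U231.LP

variable {k : Type u} [Field k] {𝒱 : VarClass k} {ops : CycleOps 𝒱}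
  {W : WeilCohomology.{u, 0} ops} {Γ : Type} [Group Γ]
  {S : Sem W Γ} {ι : Type} {N s : ι → ℕ} {X : ι → 𝒱.Obj} {c : ∀ i, Γ →* (ZMod (N i))ˣ}

/-- `y` and all its conjugates are fixed by `G` -/
def IsFix (S : Sem W Γ) (Y : 𝒱.Obj) (y : W.H Y) : Prop := ∀ g, S.G Y (S.σ g Y y) = S.σ g Y y

/-- all conjugates of `x` are eigenvectors of `G` -/
def IsPureS (S : Sem W Γ) (Z : 𝒱.Obj) (x : W.H Z) : Prop :=
  ∀ t, ∃ e : ℤ, S.G Z (S.σ t Z x) = (2 : W.K) ^ e • S.σ t Z x

/-- every pure vector is nonzero in a small piece -/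
def SmallPieces (S : Sem W Γ) (B : ℕ) (Z : 𝒱.Obj) (εZ : Module.End W.K (W.H Z)) : Prop :=
  ∀ x : W.H Z, εZ x = x → x ≠ 0 → IsPureS S Z x → ∃ E : Module.End W.K (W.H Z), (∀ g x, E (S.σ g Z x) = S.σ g Z (E x)) ∧
    (∀ x, E (S.G Z x) = S.G Z (E x)) ∧ Module.finrank W.K (LinearMap.range E) ≤ B ∧ E x ≠ 0

theorem two_zpow_inj {a b : ℤ} (h : (2 : W.K) ^ a = (2 : W.K) ^ b) : a = b := by
  have h1 : ((2 : ℚ) : W.K) ^ a = ((2 : ℚ) : W.K) ^ b := by simpa using h
  have h2 : (2 : ℚ) ^ a = (2 : ℚ) ^ b := by exact_mod_cast h1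
  exact zpow_right_injective₀ (by norm_num) (by norm_num) h2

theorem cG_eigen {C : ∀ i, FData S (N i) (s i) (c i) (X i)} {Z : 𝒱.Obj}
    {εZ : Module.End W.K (W.H Z)} {T : Finset ι}
    {Y : 𝒱.Obj} {εY : Module.End W.K (W.H Y)} (Q : Funs C Z εZ T Y εY) {y : W.H Y} (hy : IsFix S Y y)
    {τ : ∀ i, (C i).Ix} {φ : W.H Y →ₗ[W.K] W.H Z} (hφ : φ ∈ Q.Φ τ) (g t : Γ) :
    S.cG t Z (S.σ g⁻¹ Z (φ y)) =
      (2 : W.K) ^ (-∑ i ∈ T, (C i).eO ((C i).πO (g * t) (τ i))) • S.σ g⁻¹ Z (φ y) := by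
  have e1 : S.σ t⁻¹ Z (S.σ g⁻¹ Z (φ y)) = S.σ (g * t)⁻¹ Z (φ y) := by
    rw [mul_inv_rev, S.comp]
  have e2 : S.σ (g * t)⁻¹ Z (φ y) = S.twM (g * t) φ (S.σ (g * t)⁻¹ Y y) := by
    rw [Sem.twM_apply, S.inv_σ]
  have e5 := Q.eig _ _ (Q.act τ φ hφ (g * t)) (S.σ (g * t)⁻¹ Y y)
  rw [hy] at e5
  have e6 : S.G Z (S.twM (g * t) φ (S.σ (g * t)⁻¹ Y y)) =
      (2 : W.K) ^ (-∑ i ∈ T, (C i).eO ((C i).πO (g * t) (τ i))) •
        S.twM (g * t) φ (S.σ (g * t)⁻¹ Y y) := by
    conv_rhs => rw [e5]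
    rw [smul_smul, ← zpow_add₀ two_ne_zero, neg_add_cancel, zpow_zero, one_smul]
  rw [Sem.cG_apply, e1, e2, e6, S.smul, S.τ_intCast, ← e2, ← S.comp]
  congr 3
  group

theorem isPureS {C : ∀ i, FData S (N i) (s i) (c i) (X i)} {Z : 𝒱.Obj}
    {εZ : Module.End W.K (W.H Z)} {T : Finset ι}
    {Y : 𝒱.Obj} {εY : Module.End W.K (W.H Y)} (Q : Funs C Z εZ T Y εY) {y : W.H Y} (hy : IsFix S Y y)
    {τ : ∀ i, (C i).Ix} {φ : W.H Y →ₗ[W.K] W.H Z} (hφ : φ ∈ Q.Φ τ) : IsPureS S Z (φ y) := by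
  intro t
  have h1 := cG_eigen Q hy hφ 1 t⁻¹
  rw [inv_one, S.one, Sem.cG_apply, inv_inv] at h1
  have h2 := congrArg (S.σ t Z) h1
  rw [S.inv_σ, S.smul, S.τ_intCast] at h2
  exact ⟨_, h2⟩

/-- **There are no components for characters which are not symmetric.** -/
theorem vanish (C : ∀ i, FData S (N i) (s i) (c i) (X i)) {Z : 𝒱.Obj}
    {εZ : Module.End W.K (W.H Z)} {T : Finset ι}
    {Y : 𝒱.Obj} {εY : Module.End W.K (W.H Y)} (Q : Funs C Z εZ T Y εY) {B : ℕ}
    (hZ : SmallPieces S B Z εZ)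
    (hN : ∀ i, IsLarge (N i) (s i) B)
    (hc : ∀ (S : Finset ι) (t : ∀ i, (ZMod (N i))ˣ), ∃ g, ∀ i ∈ S, c i g = t i)
    {y : W.H Y} (hy : IsFix S Y y) (hyε : εY y = y) {τ : ∀ i, (C i).Ix}
    (hτ : ∃ i ∈ T, (C i).NS (τ i)) {φ : W.H Y →ₗ[W.K] W.H Z} (hφ : φ ∈ Q.Φ τ) : φ y = 0 := by
  classical
  obtain ⟨i₀, hi₀, j, hj, hns⟩ := hτ
  by_contra hne
  have hp : Fact (N i₀).Prime := ⟨(C i₀).prime⟩
  obtain ⟨E, hE1, hE2, hE3, hE4⟩ := hZ _ (by rw [← Q.com τ φ hφ, hyε]) hne (isPureS Q hy hφ)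
  -- the stabilizer
  let G := (ZMod (N i₀))ˣ
  let H : Subgroup G :=
    { carrier := {h | ∀ t : G, sawSum ((C i₀).a j) ((t : ZMod (N i₀)) * (h : G)) =
        sawSum ((C i₀).a j) t}
      mul_mem' := by
        intro h h' h1 h2 t
        rw [Units.val_mul, mul_comm (h : ZMod (N i₀)), ← mul_assoc, ← Units.val_mul t h', h1,
          Units.val_mul, h2]
      one_mem' := by
        intro t
        rw [Units.val_one, mul_one]
      inv_mem' := by
        intro h h1 t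
        have h2 := h1 (t * h⁻¹)
        rw [← Units.val_mul, inv_mul_cancel_right, Units.val_mul] at h2
        exact h2.symm }
  apply hns
  refine symm_of_index' ((C i₀).card j) H (fun h hh t => hh t) ?_ (hN i₀)
  -- the group elements
  choose g hg using fun q : G => hc T fun i => if h : i = i₀ then h ▸ q else 1
  have hg0 : ∀ q, c i₀ (g q) = q := fun q => by rw [hg q i₀ hi₀, dif_pos rfl]
  have hg1 : ∀ q, ∀ i ∈ T, i ≠ i₀ → c i (g q) = 1 := fun q i hi h => by
    rw [hg q i hi, dif_neg h]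
  -- the eigenvalues
  let ε : G → G → ℤ := fun q v => ∑ i ∈ T, (C i).eO ((C i).πO (g q * g v) (τ i))
  have heO : ∀ (i : ι) (o : (C i).Ix) (h h' : Γ), c i h = c i h' →
      (C i).eO ((C i).πO h o) = (C i).eO ((C i).πO h' o) := by
    intro i o h h' he
    cases o with
    | none => rfl
    | some l =>
      change (C i).e ((C i).π h l) = (C i).e ((C i).π h' l)
      have h1 := (C i).e_π h l
      rw [he, ← (C i).e_π h' l] at h1
      have h2 : (N i : ℤ) ≠ 0 := by exact_mod_cast (C i).prime.ne_zero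
      exact mul_left_cancel₀ h2 h1
  have hε : ∀ q v, (N i₀ : ℤ) * ε q v = (N i₀ : ℤ) *
      (∑ i ∈ T.erase i₀, (C i).eO ((C i).πO 1 (τ i))) +
        sawSum ((C i₀).a j) ((q * v : G) : ZMod (N i₀)) := by
    intro q v
    simp only [ε]
    rw [← Finset.sum_erase_add T _ hi₀, mul_add]
    congr 1
    · congr 1
      refine sum_congr rfl fun i hi => heO i _ _ _ ?_
      rw [map_mul, hg1 q i (mem_of_mem_erase hi) (ne_of_mem_erase hi),
        hg1 v i (mem_of_mem_erase hi) (ne_of_mem_erase hi), one_mul, map_one]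
    · rw [hj]
      change (N i₀ : ℤ) * (C i₀).e ((C i₀).π (g q * g v) j) = _
      rw [(C i₀).e_π, map_mul, hg0, hg0]
  let α : G → G → W.K := fun q v => (2 : W.K) ^ (-ε q v)
  have hα : ∀ q v, S.cG (g v) Z (E (S.σ (g q)⁻¹ Z (φ y))) = α q v • E (S.σ (g q)⁻¹ Z (φ y)) := by
    intro q v
    have h1 := cG_eigen Q hy hφ (g q) (g v)
    have h2 := congrArg E h1
    rw [map_smul, Sem.cG_apply, hE1, hE2, hE1] at h2
    exact h2
  -- different cosets have different eigenvalues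
  have hsep : ∀ q q' : G ⧸ H, q ≠ q' → ∃ v, α q.out v ≠ α q'.out v := by
    intro q q' hqq
    by_contra hcon
    push Not at hcon
    apply hqq
    rw [← QuotientGroup.out_eq' q, ← QuotientGroup.out_eq' q', QuotientGroup.eq]
    have h1 : ∀ v, sawSum ((C i₀).a j) ((q.out * v : G) : ZMod (N i₀)) =
        sawSum ((C i₀).a j) ((q'.out * v : G) : ZMod (N i₀)) := by
      intro v
      have h2 := neg_injective (two_zpow_inj (hcon v))
      have h3 := hε q.out v
      rw [h2, hε q'.out v] at h3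
      exact (add_left_cancel h3).symm
    intro t
    have h2 := h1 ((q.out : G)⁻¹ * t)
    rw [mul_inv_cancel_left] at h2
    rw [h2, ← Units.val_mul]
    congr 2
    rw [mul_comm t, mul_comm (q.out⁻¹ : G), mul_assoc]
  choose v hv using hsep
  let u : G ⧸ H → W.H Z := fun q => E (S.σ (g q.out)⁻¹ Z (φ y))
  have hu : ∀ q, u q ≠ 0 := by
    intro q h5
    apply hE4
    have h6 := congrArg (S.σ (g q.out) Z) h5
    change S.σ (g q.out) Z (E (S.σ (g q.out)⁻¹ Z (φ y))) = S.σ (g q.out) Z 0 at h6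
    rwa [map_zero, ← hE1, S.inv_σ] at h6
  let P : G ⧸ H → G ⧸ H → Module.End W.K (W.H Z) := fun q q' =>
    if h : q ≠ q' then (α q.out (v q q' h) - α q'.out (v q q' h))⁻¹ •
      (S.cG (g (v q q' h)) Z - α q'.out (v q q' h) • LinearMap.id) else 0
  have hli : LinearIndependent W.K u := by
    refine indep_of_pairs (fun q => W.K ∙ u q) u (fun q => Submodule.mem_span_singleton_self _) hu
      P ?_ ?_ ?_
    · intro q q' h x hx
      obtain ⟨r, rfl⟩ := Submodule.mem_span_singleton.1 hx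
      simp only [P, dif_pos h]
      rw [LinearMap.smul_apply, LinearMap.sub_apply, map_smul, hα, LinearMap.smul_apply,
        LinearMap.id_apply, smul_comm r, ← sub_smul, smul_smul,
        inv_mul_cancel₀ (sub_ne_zero.2 (hv q q' h)), one_smul]
    · intro q q' h x hx
      obtain ⟨r, rfl⟩ := Submodule.mem_span_singleton.1 hx
      simp only [P, dif_pos h]
      rw [LinearMap.smul_apply, LinearMap.sub_apply, map_smul, hα, LinearMap.smul_apply,
        LinearMap.id_apply, smul_comm r, sub_self, smul_zero]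
    · intro q q' m h x hx
      obtain ⟨r, rfl⟩ := Submodule.mem_span_singleton.1 hx
      simp only [P, dif_pos h]
      rw [LinearMap.smul_apply, LinearMap.sub_apply, map_smul, hα, LinearMap.smul_apply,
        LinearMap.id_apply]
      exact Submodule.smul_mem _ _ (Submodule.sub_mem _
        (Submodule.smul_mem _ _ (Submodule.smul_mem _ _ (Submodule.mem_span_singleton_self _)))
        (Submodule.smul_mem _ _ (Submodule.smul_mem _ _ (Submodule.mem_span_singleton_self _))))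
  have h2 : LinearIndependent W.K fun q => (⟨u q, ⟨_, rfl⟩⟩ : LinearMap.range E) := by
    apply LinearIndependent.of_comp (LinearMap.range E).subtype
    exact hli
  have : Fintype (G ⧸ H) := Fintype.ofFinite _
  have h3 := h2.fintype_card_le_finrank
  rw [Subgroup.index, Nat.card_eq_fintype_card]
  exact h3.trans hE3

end Pool.Agent.U231.HF
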