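import Pool.Agent.U231.HF.Defs

/-!
# Families of admissible subcategories: definitions

An `S`-linear admissible subcategory `C` of the category of perfect complexes on a family of
varieties over `S` enters through the subspaces `top s` of the rational cohomology of the fibres:
we use the Mukai vector to identify the rational topological K-theory `K_0 ⊕ K_1` of a variety with
its cohomology, and `top s` is the rational topological K-theory `K_0 ⊕ K_1` of `C_s`.
-/

set_option autoImplicit false

open CategoryTheory AlgebraicGeometry

universe u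

namespace Pool.Agent.U231.HF

open Pool.Agent.H914 Pool.Agent.H914.VarClass Pool.Agent.H914.VarClass.Obj
  Pool.Agent.H914.WeilCohomology Pool.Agent.Y121.AHS

section algebra

variable {K : Type} [Field K]

section types

variable [Algebra K ℂ] {A : Type} [Ring A] [Algebra K A]

/-- The element `x` is a sum of elements of the subspace `S` each of which is a sum of elements of
types `(p, q)` with one value of `p - q`. -/
def IsKSum (pq : ℤ → ℤ → Submodule ℂ (Ext K ℂ A)) (S : Submodule ℂ (Ext K ℂ A)) (x : Ext K ℂ A) :
    Prop :=
  x ∈ ⨆ r : ℤ, (⨆ q : ℤ, pq (q + r) q) ⊓ S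

/-- The rational cohomology `A` is the direct sum of subspaces `U i` which are substructures for the
Hodge structure on topological K-theory (in which the types `(p, q)` with the same `p - q` are put
together), and each `U i` is small (its dimension is at most `B`, or with complex
coefficients it contains no pure element different from `0`), or all elements of `C` have the
component `0` in `U i`. -/
def IsSumOfSmallK (pq : ℤ → ℤ → Submodule ℂ (Ext K ℂ A)) (C : Set A) (B : ℕ) : Prop :=
  ∃ (m : ℕ) (U : Fin m → Submodule K A), iSupIndep U ∧ (∀ x, x ∈ iSup U) ∧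
    ∀ i, (∀ x ∈ U i, IsKSum pq (extSub K ℂ (U i)) (extEm K ℂ x)) ∧
      (IsSmall pq extConj B (extSub K ℂ (U i)) ∨ ∀ x ∈ C, x ∈ ⨆ j : {j // j ≠ i}, U j)

end types

section products

variable {A V V' W W' : Type} [Ring A] [Algebra K A] [Ring V] [Algebra K V] [Ring V']
  [Algebra K V'] [Ring W] [Algebra K W] [Ring W'] [Algebra K W']

/-- The set `U` is a subspace. -/
def IsSubspace (K : Type) [Field K] {V : Type} [Ring V] [Algebra K V] (U : Set V) : Prop :=
  0 ∈ U ∧ ∀ r : K, ∀ x ∈ U, ∀ y ∈ U, x + r • y ∈ U

/-- The map is additive. -/
def IsAdditive {V V' : Type} [Ring V] [Ring V'] (p : V → V') : Prop :=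
  ∀ x y, p (x + y) = p x + p y

/-- The sums of products `f a * g y` with `y` in `U`. -/
def productSet (f : A →ₐ[K] W) (g : V →ₐ[K] W) (U : Set V) : Set W :=
  {x | x ∈ AddSubmonoid.closure {c | ∃ a, ∃ y ∈ U, f a * g y = c}}

/-- The additive maps `q` with `q (f a * g y) = f' a * g' (p y)`, for the maps `p` in `P`. -/
def productMaps (f : A →ₐ[K] W) (g : V →ₐ[K] W) (f' : A →ₐ[K] W') (g' : V' →ₐ[K] W')
    (P : Set (V → V')) : Set (W → W') :=
  {q | IsAdditive q ∧ ∃ p ∈ P, ∀ a y, q (f a * g y) = f' a * g' (p y)}

/-- The element `x` is the sum of the products `f (a l) * g (y l)`. -/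
def IsSumOfProducts {n : ℕ} (f : A →ₐ[K] W) (g : V →ₐ[K] W) (a : Fin n → A) (y : Fin n → V)
    (x : W) : Prop :=
  x = ∑ l, f (a l) * g (y l)

end products

end algebra

variable {k : Type u} [Field k] {𝒱 : VarClass k} {ops : CycleOps 𝒱}

/-- The cohomology of `Z` is the direct sum of such substructures. So if `C` is the topological
K-theory of an admissible subcategory of the category of perfect complexes on `Z`, it is a direct
sum of Hodge structures of dimension at most `B` and Hodge structures without pure elements. -/
def HasKPieces (T : HodgeTheory ops) (B : ℕ) (Z : 𝒱.Obj) (C : Set (T.W.H Z)) : Prop :=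
  IsSumOfSmallK (K := T.W.K) (A := T.W.H Z) (T.pq Z) C B

/-- A family of varieties over `S` with an admissible subcategory: the fibres, the subspaces `top s`
of their rational cohomology given by the topological K-theory `K_0 ⊕ K_1` of the subcategory, and
the maps from the rational cohomology of the fibre at `s` to that of the fibre at `t` which are
given by the paths from `s` to `t`. -/
structure Family (W : WeilCohomology.{u, 0} ops) (S : Type) where
  /-- the fibres -/
  fibre : S → 𝒱.Obj
  /-- the topological K-theory of the subcategory -/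
  top : ∀ s, Set (W.H (fibre s))
  /-- the transport along the paths from `s` to `t` -/
  path : ∀ s t, Set (W.H (fibre s) → W.H (fibre t))
  sub : ∀ s, IsSubspace W.K (top s)
  add : ∀ s t, ∀ p ∈ path s t, IsAdditive p

variable {W : WeilCohomology.{u, 0} ops} {S ι : Type} (X : ι → 𝒱.Obj)

/-- The subspace `H(X i₁) ⊗ (H(X i₂) ⊗ (⋯ ⊗ U))` of the cohomology of
`X i₁ × (X i₂ × (⋯ × Z))`. -/
def productsTop {Z : 𝒱.Obj} (U : Set (W.H Z)) : ∀ L : List ι, Set (W.H (productOf X Z L))
  | [] => U
  | i :: L => productSet (W.map (fst (X i) (productOf X Z L)))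
      (W.map (snd (X i) (productOf X Z L))) (productsTop U L)

/-- The maps `id ⊗ (id ⊗ (⋯ ⊗ p))`, for the maps `p` in `P`. -/
def productsMaps {Z Z' : 𝒱.Obj} (P : Set (W.H Z → W.H Z')) :
    ∀ L : List ι, Set (W.H (productOf X Z L) → W.H (productOf X Z' L))
  | [] => P
  | i :: L => productMaps (W.map (fst (X i) (productOf X Z L)))
      (W.map (snd (X i) (productOf X Z L))) (W.map (fst (X i) (productOf X Z' L)))
      (W.map (snd (X i) (productOf X Z' L))) (productsMaps P L)

theorem productSet_sub {K A V W : Type} [Field K] [Ring A] [Algebra K A] [Ring V] [Algebra K V]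
    [Ring W] [Algebra K W] (f : A →ₐ[K] W) (g : V →ₐ[K] W) (U : Set V) :
    IsSubspace K (productSet f g U) := by
  refine ⟨AddSubmonoid.zero_mem (AddSubmonoid.closure _), fun r x hx y hy =>
    AddSubmonoid.add_mem (AddSubmonoid.closure _) hx ?_⟩
  change y ∈ AddSubmonoid.closure _ at hy
  induction hy using AddSubmonoid.closure_induction with
  | mem y hy =>
    obtain ⟨a, y, hy, rfl⟩ := hy
    refine AddSubmonoid.subset_closure ⟨r • a, y, hy, ?_⟩
    rw [map_smul, smul_mul_assoc]
  | zero => rw [smul_zero]; exact AddSubmonoid.zero_mem _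
  | add a b _ _ ha hb => rw [smul_add]; exact AddSubmonoid.add_mem _ ha hb

theorem productsTop_sub {Z : 𝒱.Obj} {U : Set (W.H Z)} (h : IsSubspace W.K U) :
    ∀ L : List ι, IsSubspace W.K (productsTop X U L)
  | [] => h
  | _ :: _ => productSet_sub _ _ _

theorem productsMaps_add {Z Z' : 𝒱.Obj} {P : Set (W.H Z → W.H Z')}
    (h : ∀ p ∈ P, IsAdditive p) : ∀ L : List ι, ∀ q ∈ productsMaps X P L, IsAdditive q
  | [] => h
  | _ :: _ => fun _ hq => hq.1

/-- The family with the fibres `X i₁ × (X i₂ × (⋯ × F_s))` and the subcategories
`perf(X i₁) ⊠ (perf(X i₂) ⊠ (⋯ ⊠ C_s))`. -/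
noncomputable def Family.times (F : Family W S) (L : List ι) : Family W S where
  fibre s := productOf X (F.fibre s) L
  top s := productsTop X (F.top s) L
  path s t := productsMaps X (F.path s t) L
  sub s := productsTop_sub X (F.sub s) L
  add s t := productsMaps_add X (F.add s t) L

/-- All points can be reached from `o`. -/
def Family.IsConnected (F : Family W S) (o : S) : Prop := ∀ s, (F.path o s).Nonempty

/-- `φ` is a global section of the local system of the topological K-theory of the subcategories: its
values are in the subspaces, and it is transported into itself along all paths. -/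
def Family.IsSection (F : Family W S) (φ : ∀ s, W.H (F.fibre s)) : Prop :=
  (∀ s, φ s ∈ F.top s) ∧ ∀ s t, ∀ p ∈ F.path s t, p (φ s) = φ t

/-- The class `x` is a sum of classes with the property `P j`, `j = 0, 1, …`. -/
def IsSumOf {A : Type} [Ring A] (P : ℕ → A → Prop) (x : A) : Prop :=
  x ∈ AddSubmonoid.closure {c | ∃ j, P j c}

/-- The noncommutative variational Hodge conjecture with respect to the point `o`: if a global section
of the local system is algebraic at `o`, then it is algebraic at all points. -/
def NCVariational (F : Family W S) (o : S) : Prop :=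
  ∀ φ, F.IsSection φ → IsSumOf (IsAlg W (F.fibre o)) (φ o) →
    ∀ s, IsSumOf (IsAlg W (F.fibre s)) (φ s)

/-- The section `φ` of the cohomology of the fibres of the product family is a sum of external
products `a_1 × ⋯ × a_r × ψ` of classes `a_j` of algebraic cycles on the `X i` and sections `ψ` of
the cohomology of the fibres of `F` with the property `P`. -/
def IsExtSection (F : Family W S) (P : (∀ s, W.H (F.fibre s)) → Prop) :
    ∀ L : List ι, (∀ s, W.H (productOf X (F.fibre s) L)) → Prop
  | [], φ => P φ
  | i :: L, φ => ∃ (n : ℕ) (a : Fin n → W.H (X i))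
      (ψ : Fin n → ∀ s, W.H (productOf X (F.fibre s) L)),
      (∀ l, (∃ j, IsAlg W (X i) j (a l)) ∧ IsExtSection F P L (ψ l)) ∧
      ∀ s, IsSumOfProducts (W.map (fst (X i) (productOf X (F.fibre s) L)))
        (W.map (snd (X i) (productOf X (F.fibre s) L))) a (fun l => ψ l s) (φ s)

/-- `φ` is a global section of the local system of the topological K-theory of the subcategories
which is a combination of Hodge classes at `o`. -/
def IsHodgeSection (T : HodgeTheory ops) (F : Family T.W S) (o : S)
    (φ : ∀ s, T.W.H (F.fibre s)) : Prop :=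
  F.IsSection φ ∧ IsSumOf (IsHodge T (F.fibre o)) (φ o)

end Pool.Agent.U231.HF
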