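import Pool.Agent.U231.HF.Conv
import Pool.Agent.U231.HF.Cmp
import Pool.Agent.U231.HF.VarDefs

/-!
# Families: global sections on products with varieties of Fermat type
-/

set_option autoImplicit false

open CategoryTheory AlgebraicGeometry Finset TensorProduct

universe u

namespace Pool.Agent.U231.HF

open Pool.Agent.H914 Pool.Agent.H914.VarClass Pool.Agent.H914.VarClass.Obj
  Pool.Agent.H914.WeilCohomology Pool.Agent.H281R3.HT Pool.Agent.TH125.Gal
  Pool.Agent.U231.FT Pool.Agent.Y121.AH Pool.Agent.Y133.Half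

variable {k : Type u} [Field k] {𝒱 : VarClass k} {ops : CycleOps 𝒱}

theorem productSet_ind {K A V W : Type} [Field K] [Ring A] [Algebra K A] [Ring V] [Algebra K V]
    [Ring W] [Algebra K W] {f : A →ₐ[K] W} {g : V →ₐ[K] W} {U : Set V} {motive : W → Prop}
    (h0 : motive 0) (hadd : ∀ a b, motive a → motive b → motive (a + b))
    (hmem : ∀ a, ∀ y ∈ U, motive (f a * g y)) {x : W} (hx : x ∈ productSet f g U) : motive x := by
  change x ∈ AddSubmonoid.closure _ at hx
  induction hx using AddSubmonoid.closure_induction with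
  | mem x hx =>
    obtain ⟨a, y, hy, rfl⟩ := hx
    exact hmem a y hy
  | zero => exact h0
  | add a b _ _ ha hb => exact hadd a b ha hb

section lin

variable {W : WeilCohomology.{u, 0} ops} (hrat : ∀ r : W.K, ∃ q : ℚ, (q : W.K) = r)

include hrat in
theorem smul_of_add {Y Z : 𝒱.Obj} {p : W.H Y → W.H Z} (hp : IsAdditive p) (r : W.K)
    (x : W.H Y) : p (r • x) = r • p x := by
  obtain ⟨q, rfl⟩ := hrat r
  let f : W.H Y →+ W.H Z := AddMonoidHom.mk' p hp
  exact map_ratCast_smul f W.K W.K q x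

/-- the linear map -/
def lin {Y Z : 𝒱.Obj} (p : W.H Y → W.H Z) (hp : IsAdditive p) : W.H Y →ₗ[W.K] W.H Z where
  toFun := p
  map_add' := hp
  map_smul' r x := smul_of_add hrat hp r x

/-- contractions -/
theorem ctr_productSet {X Y : 𝒱.Obj} {U : Set (W.H Y)} (hU : IsSubspace W.K U)
    (f : W.H X →ₗ[W.K] W.K) {x : W.H (X.prod Y)}
    (hx : x ∈ productSet (W.map (fst X Y)) (W.map (snd X Y)) U) : ctr f x ∈ U := by
  refine productSet_ind (motive := fun x : W.H (X.prod Y) => ctr f x ∈ U) ?_ ?_ ?_ hx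
  · rw [map_zero]
    exact hU.1
  · intro a b ha hb
    rw [map_add]
    have h2 := hU.2 1 _ ha _ hb
    rwa [one_smul] at h2
  · intro a y hy
    rw [ctr_apply]
    have h2 := hU.2 (f a) 0 hU.1 y hy
    rwa [zero_add] at h2

theorem idT_productSet {X Y : 𝒱.Obj} {U : Set (W.H Y)} {ε : W.H Y →ₗ[W.K] W.H Y}
    (h : ∀ x ∈ U, ε x = x) {x : W.H (X.prod Y)}
    (hx : x ∈ productSet (W.map (fst X Y)) (W.map (snd X Y)) U) : idT X ε x = x := by
  refine productSet_ind (motive := fun x : W.H (X.prod Y) => idT X ε x = x) ?_ ?_ ?_ hx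
  · rw [map_zero]
  · intro a b ha hb
    rw [map_add, ha, hb]
  · intro a y hy
    rw [idT_apply, h y hy]

theorem idT_productMaps {X Y Y' : 𝒱.Obj} {P : Set (W.H Y → W.H Y')} {p : W.H Y → W.H Y'}
    (hp : p ∈ P) (hp' : IsAdditive p) :
    (fun x => idT X (lin hrat p hp') x) ∈ productMaps (W.map (fst X Y)) (W.map (snd X Y))
      (W.map (fst X Y')) (W.map (snd X Y')) P :=
  ⟨fun x y => map_add _ x y, p, hp, fun a y => idT_apply (lin hrat p hp') a y⟩

theorem ctr_lin {X Y Y' : 𝒱.Obj} {p : W.H Y → W.H Y'} (hp' : IsAdditive p)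
    (f : W.H X →ₗ[W.K] W.K) {x : W.H (X.prod Y)} {y : W.H (X.prod Y')}
    (h : idT X (lin hrat p hp') x = y) : p (ctr f x) = ctr f y := by
  rw [← h, ctr_idT]
  rfl

variable {ι : Type} {X : ι → 𝒱.Obj}

include hrat in
/-- there are maps of products -/
theorem productsMaps_ne {Z Z' : 𝒱.Obj} {P : Set (W.H Z → W.H Z')}
    (hP : ∀ p ∈ P, IsAdditive p) (h : P.Nonempty) :
    ∀ L : List ι, (productsMaps X P L).Nonempty
  | [] => h
  | i :: L => by
    obtain ⟨p, hp⟩ := productsMaps_ne hP h L
    exact ⟨_, idT_productMaps (X := X i) hrat hp (productsMaps_add X hP L p hp)⟩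

/-- operators which are the identity on the subspace -/
theorem lift_top {Z : 𝒱.Obj} {U : Set (W.H Z)} {ε : W.H Z →ₗ[W.K] W.H Z}
    (h : ∀ x ∈ U, ε x = x) : ∀ (L : List ι) (x : W.H (productOf X Z L)),
      x ∈ productsTop X U L → lift X ε L x = x
  | [], x, hx => h x hx
  | i :: L, _, hx => idT_productSet (X := X i) (Y := productOf X Z L) (lift_top h L) hx

end lin

section sections

variable {W : WeilCohomology.{u, 0} ops} (hrat : ∀ r : W.K, ∃ q : ℚ, (q : W.K) = r)
  {S ι : Type} {X : ι → 𝒱.Obj} {F : Family W S}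

include hrat in
theorem ctr_section {i : ι} {L : List ι} {φ : ∀ s, W.H ((X i).prod (productOf X (F.fibre s) L))}
    (h : (F.times X (i :: L)).IsSection φ) (f : W.H (X i) →ₗ[W.K] W.K) :
    (F.times X L).IsSection fun s => ctr f (φ s) := by
  refine ⟨fun s => ctr_productSet (X := X i) (Y := productOf X (F.fibre s) L)
    (productsTop_sub X (F.sub s) L) f (h.1 s), fun s t p hp => ?_⟩
  have hp' : IsAdditive p := productsMaps_add X (F.add s t) L p hp
  have h1 : idT (X i) (lin (Y := productOf X (F.fibre s) L) (Z := productOf X (F.fibre t) L)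
      hrat p hp') (φ s) = φ t :=
    h.2 s t _ (idT_productMaps (X := X i) (Y := productOf X (F.fibre s) L)
      (Y' := productOf X (F.fibre t) L) hrat hp hp')
  exact ctr_lin (Y := productOf X (F.fibre s) L) (Y' := productOf X (F.fibre t) L) hrat hp' f h1

/-- products with a constant class are sections -/
theorem mul_section {i : ι} {L : List ι} {φ : ∀ s, W.H (productOf X (F.fibre s) L)}
    (h : (F.times X L).IsSection φ) (a : W.H (X i)) :
    (F.times X (i :: L)).IsSection fun s => W.map (fst (X i) (productOf X (F.fibre s) L)) a *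
      W.map (snd (X i) (productOf X (F.fibre s) L)) (φ s) := by
  refine ⟨fun s => AddSubmonoid.subset_closure ⟨a, φ s, h.1 s, rfl⟩, ?_⟩
  rintro s t q ⟨hq, p, hp, hpq⟩
  have h1 : p (φ s) = φ t := h.2 s t p hp
  exact (hpq a (φ s)).trans (congrArg (fun c : W.H (productOf X (F.fibre t) L) =>
    W.map (fst (X i) (productOf X (F.fibre t) L)) a *
      W.map (snd (X i) (productOf X (F.fibre t) L)) c) h1)

/-- values of combinations of external products -/
theorem ext_section_sp {Q : ClassPred W} {P : (∀ s, W.H (F.fibre s)) → Prop} {s : S}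
    (hP : ∀ ψ, P ψ → ψ s ∈ Q.sp (F.fibre s)) :
    ∀ (L : List ι) (e : ∀ s, W.H (productOf X (F.fibre s) L)), IsExtSection X F P L e →
      e s ∈ Q.sp (productOf X (F.fibre s) L)
  | [], e, h => hP e h
  | i :: L, e, h => by
    obtain ⟨n, a, ψ, h1, h2⟩ := h
    have h3 : ∑ l, W.map (fst (X i) (productOf X (F.fibre s) L)) (a l) *
        W.map (snd (X i) (productOf X (F.fibre s) L)) (ψ l s) ∈
          Q.sp ((X i).prod (productOf X (F.fibre s) L)) :=
      Submodule.sum_mem _ fun l _ => by
        obtain ⟨⟨j, z, hz, hz'⟩, h4⟩ := h1 l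
        have h5 : a l ∈ Q.sp (X i) := hz' ▸ ClassPred.sp_of (Q.cl hz)
        exact Q.sys.mul (Q.sys.map _ h5) (Q.sys.map _ (ext_section_sp hP L (ψ l) h4))
    exact (h2 s).symm ▸ h3

end sections

variable {T : HodgeTheory ops} {ι : Type} {N s : ι → ℕ} {B : ℕ} {X : ι → 𝒱.Obj}
  [∀ i, NeZero (N i)] {S : Type} {F : Family T.W S} {o : S}
  {ε : T.W.H (F.fibre o) →ₗ[T.W.K] T.W.H (F.fibre o)}

/-- **Global sections which are Hodge classes at `o` are combinations of external products of
algebraic classes and global sections.** -/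
theorem SysData.section_ext (D : SysData T N s B X (F.fibre o) ε)
    (hε : ∀ x ∈ F.top o, ε x = x) (hc : F.IsConnected o)
    (Q : ClassPred T.W) (hQ : ∀ Y j c, Q.P Y j c → IsHodge T Y j c) (L : List ι)
    (hL : L.Nodup) : ∀ φ : ∀ s, T.W.H (productOf X (F.fibre s) L), (F.times X L).IsSection φ →
      φ o ∈ Q.sp (productOf X (F.fibre o) L) →
      IsExtSection X F (fun ψ => F.IsSection ψ ∧ ψ o ∈ Q.sp (F.fibre o)) L φ := by
  induction L with
  | nil =>
    intro φ h1 h3
    exact ⟨h1, h3⟩
  | cons i L ih =>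
    obtain ⟨hi, hL'⟩ := List.nodup_cons.1 hL
    intro φ h1 h3
    obtain ⟨b⟩ := exists_SB (D.homEqNum i)
    have hx' : φ o ∈ (hodgePred T).sp ((X i).prod (productOf X (F.fibre o) L)) :=
      sp_mono (Q := Q) (Q' := hodgePred T) (fun j c hc => hQ _ j c hc) h3
    have hxε : idT (X i) (lift X ε L) (φ o) = φ o := lift_top hε (i :: L) (φ o) (h1.1 o)
    have h4 := expand_alg b (fun t ht => D.ctr_trans hi hL' hx' hxε ht)
    choose z hz hz' using b.alg
    refine ⟨b.NC, fun l => T.W.cl (X i) (z l), fun l s => ctr (bil T.W (X i) (b.uC l)) (φ s),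
      fun l => ⟨⟨_, z l, hz l, rfl⟩, ?_⟩, fun s => ?_⟩
    · exact ih hL' _ (ctr_section T.rat h1 _) (ctr_sp (b.uC l).2 h3)
    · obtain ⟨p, hp⟩ := productsMaps_ne (X := X) T.rat (F.add o s) (hc s) L
      have hp' : IsAdditive p := productsMaps_add X (F.add o s) L p hp
      have h6 : idT (X i) (lin (Y := productOf X (F.fibre o) L) (Z := productOf X (F.fibre s) L)
          T.rat p hp') (φ o) = φ s :=
        h1.2 o s _ (idT_productMaps (X := X i) (Y := productOf X (F.fibre o) L)
          (Y' := productOf X (F.fibre s) L) T.rat hp hp')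
      have h7 : φ s = ∑ l, T.W.map (fst (X i) (productOf X (F.fibre s) L)) (T.W.cl (X i) (z l)) *
          T.W.map (snd (X i) (productOf X (F.fibre s) L))
            (ctr (bil T.W (X i) (b.uC l)) (φ s)) := by
        conv_lhs => rw [← h6, h4]
        rw [map_sum]
        refine sum_congr rfl fun l _ => ?_
        rw [idT_apply, hz' l]
        congr 2
        exact ctr_lin (Y := productOf X (F.fibre o) L) (Y' := productOf X (F.fibre s) L) T.rat
          hp' (bil T.W (X i) (b.uC l)) h6
      exact h7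

end Pool.Agent.U231.HF
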