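import Pool.Agent.U231.HF.Var

/-!
# The noncommutative variational Hodge conjecture on products with varieties of Fermat type
-/

set_option autoImplicit false

open CategoryTheory AlgebraicGeometry Finset TensorProduct

universe u

namespace Pool.Agent.U231.HF

open Pool.Agent.H914 Pool.Agent.H914.VarClass Pool.Agent.H914.VarClass.Obj
  Pool.Agent.H914.WeilCohomology Pool.Agent.H281R3.HT Pool.Agent.TH125.Gal
  Pool.Agent.U231.FT Pool.Agent.Y121 Pool.Agent.Y121.AHS Pool.Agent.Y133.Half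

theorem exists_projectors {K V : Type} [Field K] [AddCommGroup V] [Module K V] {m : ℕ}
    {U : Fin m → Submodule K V} (hU : DirectSum.IsInternal U) :
    ∃ p : Fin m → Module.End K V, (∀ i j y, y ∈ U j → p i y = if i = j then y else 0) ∧
      ∀ y, ∑ i, p i y = y := by
  classical
  let p : Fin m → Module.End K V := fun i =>
    (U i).subtype ∘ₗ (DirectSum.component K (Fin m) (fun i => U i) i) ∘ₗ
      (LinearEquiv.ofBijective (DirectSum.coeLinearMap U) hU).symm.toLinearMap
  have hpo : ∀ i j y, y ∈ U j → p i y = if i = j then y else 0 := by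
    intro i j y hy
    have h1 : (LinearEquiv.ofBijective (DirectSum.coeLinearMap U) hU).symm y =
        DirectSum.lof K (Fin m) (fun i => U i) j ⟨y, hy⟩ := by
      rw [LinearEquiv.symm_apply_eq]
      exact (DirectSum.coeLinearMap_lof U j ⟨y, hy⟩).symm
    change ((DirectSum.component K (Fin m) (fun i => U i) i)
      ((LinearEquiv.ofBijective (DirectSum.coeLinearMap U) hU).symm y) : V) = _
    rw [h1]
    split_ifs with h
    · subst h
      rw [DirectSum.component.lof_self]
    · rw [DirectSum.component.of, dif_neg (Ne.symm h)]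
      rfl
  refine ⟨p, hpo, fun y => ?_⟩
  have h1 : y ∈ ⨆ i, U i := hU.submodule_iSup_eq_top ▸ Submodule.mem_top
  induction h1 using Submodule.iSup_induction' with
  | mem i y hy =>
    rw [sum_congr rfl fun j _ => hpo j i y hy, sum_ite_eq' univ i, if_pos (mem_univ _)]
  | zero => simp
  | add y z _ _ hy hz =>
    rw [sum_congr rfl fun i _ => map_add (p i) y z, sum_add_distrib, hy, hz]

/-- the projection to the sum of some of the subspaces -/
theorem exists_proj {K V : Type} [Field K] [AddCommGroup V] [Module K V] {m : ℕ}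
    {U : Fin m → Submodule K V} (hU : DirectSum.IsInternal U) (P : Fin m → Prop) (C : Set V)
    (h : ∀ i, ¬ P i → ∀ x ∈ C, x ∈ ⨆ j : {j // j ≠ i}, U j) :
    ∃ ε : Module.End K V, (∀ x ∈ C, ε x = x) ∧ ∀ i, ¬ P i → ∀ x ∈ U i, ε x = 0 := by
  classical
  obtain ⟨p, hpo, hps⟩ := exists_projectors hU
  refine ⟨∑ i, if P i then p i else 0, fun x hx => ?_, fun i hi x hx => ?_⟩
  · have h1 : ∀ i, ¬ P i → p i x = 0 := by
      intro i hi
      have h2 := h i hi x hx
      refine Submodule.iSup_induction (fun j : {j // j ≠ i} => U j)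
        (motive := fun x => p i x = 0) h2 ?_ ?_ ?_
      · intro j y hy
        rw [hpo i j y hy, if_neg (Ne.symm j.2)]
      · rw [map_zero]
      · intro a b ha hb
        rw [map_add, ha, hb, add_zero]
    rw [LinearMap.sum_apply]
    conv_rhs => rw [← hps x]
    refine sum_congr rfl fun i _ => ?_
    split_ifs with hi
    · rfl
    · rw [h1 i hi, LinearMap.zero_apply]
  · rw [LinearMap.sum_apply]
    refine sum_eq_zero fun j _ => ?_
    split_ifs with hj
    · rw [hpo j i x hx, if_neg]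
      rintro rfl
      exact hi hj
    · rfl

variable {k : Type u} [Field k] {𝒱 : VarClass k} {ops : CycleOps 𝒱} {T : HodgeTheory ops}

theorem stable_of_ksub {X : 𝒱.Obj} {U : Submodule T.W.K (T.W.H X)}
    (h : ∀ x ∈ U, IsKSum (T.pq X) (extSub T.W.K ℂ U : Submodule ℂ (HL T.W ℂ X))
      (emL T.W ℂ x)) :
    ∀ y ∈ (U.baseChange ℂ : Submodule ℂ (ℂ ⊗[T.W.K] T.W.H X)),
      (show ℂ ⊗[T.W.K] T.W.H X from AH.gop (toH T) X y) ∈ U.baseChange ℂ := by
  obtain ⟨g, hg⟩ : ∃ g : Module.End ℂ (HL T.W ℂ X), ∀ y, g y = AH.gop (toH T) X y :=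
    ⟨AH.gop (toH T) X, fun _ => rfl⟩
  have hpq : ∀ (r q : ℤ) x, x ∈ T.pq X (q + r) q → g x = (2 : ℂ) ^ r • x := by
    intro r q x hx
    rw [hg]
    have h1 := AH.gop_pq (T := toH T) (X := X) (p := q + r) (q := q) (x := x) hx
    rw [add_sub_cancel_left] at h1
    exact h1
  have hpr : ∀ (r : ℤ) x, x ∈ (⨆ q : ℤ, T.pq X (q + r) q) → g x = (2 : ℂ) ^ r • x := by
    intro r x hx
    refine Submodule.iSup_induction (fun q : ℤ => T.pq X (q + r) q)
      (motive := fun x => g x = (2 : ℂ) ^ r • x) hx ?_ ?_ ?_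
    · intro q x hx
      exact hpq r q x hx
    · rw [map_zero, smul_zero]
    · intro x y hx hy
      rw [map_add, hx, hy, smul_add]
  have key : ∀ y : HL T.W ℂ X, y ∈ (⨆ r : ℤ, (⨆ q : ℤ, T.pq X (q + r) q) ⊓ extSub T.W.K ℂ U) →
      g y ∈ extSub T.W.K ℂ U := by
    intro y hy
    refine Submodule.iSup_induction
      (fun r : ℤ => (⨆ q : ℤ, T.pq X (q + r) q) ⊓ extSub T.W.K ℂ U)
      (motive := fun y => g y ∈ extSub T.W.K ℂ U) hy ?_ ?_ ?_
    · intro r x hx
      rw [hpr r x hx.1]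
      exact Submodule.smul_mem _ _ hx.2
    · rw [map_zero]
      exact Submodule.zero_mem _
    · intro x y hx hy
      rw [map_add]
      exact Submodule.add_mem _ hx hy
  intro y hy
  exact @stable_aux T.W.K (T.W.H X) _ T.alg _ _ (AH.gop (toH T) X) U (fun b hb => by
    have h2 := key (emL T.W ℂ b) (h b hb)
    rw [hg] at h2
    exact h2) y hy

theorem kpieces_of {B : ℕ} {Z : 𝒱.Obj} {C : Set (T.W.H Z)} (h : HasKPieces T B Z C) :
    ∃ ε : Module.End T.W.K (T.W.H Z), (∀ x ∈ C, ε x = x) ∧ Pieces (toH T) B Z ε := by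
  obtain ⟨m, U, h0, h1, h2⟩ := h
  have hU : DirectSum.IsInternal U := (DirectSum.isInternal_submodule_iff_iSupIndep_and_iSup_eq_top
    U).2 ⟨h0, eq_top_iff.2 fun x _ => h1 x⟩
  obtain ⟨ε, h3, h4⟩ := exists_proj hU (fun i => IsSmall (K := T.W.K) (T.pq Z)
    (extConj (K := T.W.K) (A := T.W.H Z)) B
    (extSub T.W.K ℂ (U i) : Submodule ℂ (HL T.W ℂ Z))) C
    (fun i hi => (h2 i).2.resolve_left hi)
  refine ⟨ε, h3, m, U, hU, fun i => ⟨stable_of_ksub (h2 i).1, ?_⟩⟩
  by_cases h5 : IsSmall (K := T.W.K) (T.pq Z) (extConj (K := T.W.K) (A := T.W.H Z)) B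
    (extSub T.W.K ℂ (U i) : Submodule ℂ (HL T.W ℂ Z))
  · rcases h5 with h5 | h5
    · exact Or.inl h5
    · exact Or.inr (Or.inr fun y hy hp => h5 y hy (isPure_of hp))
  · exact Or.inr (Or.inl (h4 i h5))

theorem isSumOf_iff {W : WeilCohomology.{u, 0} ops} {Y : 𝒱.Obj} {P : ℕ → W.H Y → Prop}
    {Q : ClassPred W} (h : ∀ j c, P j c ↔ Q.P Y j c) {x : W.H Y} : IsSumOf P x ↔ x ∈ Q.sp Y := by
  constructor
  · intro hx
    change x ∈ AddSubmonoid.closure _ at hx
    induction hx using AddSubmonoid.closure_induction with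
    | mem x hx =>
      obtain ⟨j, hx⟩ := hx
      exact ClassPred.sp_of ((h j x).1 hx)
    | zero => exact Submodule.zero_mem _
    | add a b _ _ ha hb => exact Submodule.add_mem _ ha hb
  · intro hx
    refine ClassPred.sp_ind (q := fun x => IsSumOf P x) ?_ ?_ ?_ hx
    · intro j x hx
      exact AddSubmonoid.subset_closure ⟨j, (h j x).2 hx⟩
    · exact AddSubmonoid.zero_mem (AddSubmonoid.closure _)
    · intro a b ha hb
      exact AddSubmonoid.add_mem (AddSubmonoid.closure _) ha hb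

theorem algSum_iff {Y : 𝒱.Obj} {x : T.W.H Y} :
    IsSumOf (IsAlg T.W Y) x ↔ x ∈ (algPred T.W).sp Y :=
  isSumOf_iff fun _ _ => isAlg_iff T.rat

/-- Hodge classes -/
noncomputable def hodgeP (T : HodgeTheory ops) : ClassPred T.W := AH.hodgePred (toH T)

theorem hodgeSum_iff {Y : 𝒱.Obj} {x : T.W.H Y} :
    IsSumOf (IsHodge T Y) x ↔ x ∈ (hodgeP T).sp Y :=
  isSumOf_iff (W := T.W) (Y := Y) (P := IsHodge T Y) (Q := hodgeP T)
    (fun _ _ => ⟨fun h => h, fun h => h⟩)

section descend

variable {W : WeilCohomology.{u, 0} ops} {ι : Type} {X : ι → 𝒱.Obj} {S : Type} {F : Family W S}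
  {o : S}

/-- the conjecture for combinations of classes with the property `Q` -/
def VarFor (Q : ClassPred W) (F : Family W S) (o : S) : Prop :=
  ∀ φ : ∀ s, W.H (F.fibre s), F.IsSection φ → φ o ∈ Q.sp (F.fibre o) →
    ∀ s, φ s ∈ Q.sp (F.fibre s)

theorem varFor_step {Q : ClassPred W} {i : ι} {L : List ι}
    (hpt : ∃ z, (X i).IsCyc (X i).dim z ∧ (X i).V.degCycle z ≠ 0)
    (h : VarFor Q (F.times X (i :: L)) o) : VarFor Q (F.times X L) o := by
  obtain ⟨z, hz, hz0⟩ := hpt
  intro (φ : ∀ s, W.H (productOf X (F.fibre s) L)) h1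
    (h3 : φ o ∈ Q.sp (productOf X (F.fibre o) L)) s
  change φ s ∈ Q.sp (productOf X (F.fibre s) L)
  have e1 : ∀ s, W.map (fst (X i) (productOf X (F.fibre s) L)) 1 *
      W.map (snd (X i) (productOf X (F.fibre s) L)) (φ s) =
      W.map (snd (X i) (productOf X (F.fibre s) L)) (φ s) := by
    intro s
    rw [map_one, one_mul]
  have h4 : (F.times X (i :: L)).IsSection fun s =>
      W.map (fst (X i) (productOf X (F.fibre s) L)) 1 *
      W.map (snd (X i) (productOf X (F.fibre s) L)) (φ s) := mul_section h1 1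
  have h5 := h _ h4 ?_ s
  · have h6 : W.map (snd (X i) (productOf X (F.fibre s) L)) (φ s) ∈
        Q.sp ((X i).prod (productOf X (F.fibre s) L)) := (e1 s) ▸ h5
    have h7 := Q.sys.push (snd (X i) (productOf X (F.fibre s) L))
      (Q.sys.mul (Q.sys.map (fst (X i) (productOf X (F.fibre s) L)) (ClassPred.sp_of (Q.cl hz)))
        h6)
    rw [W.push_snd, W.tr_cl hz] at h7
    have h8 : (((X i).V.degCycle z : ℚ) : W.K) ≠ 0 := by exact_mod_cast hz0
    have h9 := Submodule.smul_mem _ (((X i).V.degCycle z : ℚ) : W.K)⁻¹ h7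
    rwa [smul_smul, inv_mul_cancel₀ h8, one_smul] at h9
  · show W.map (fst (X i) (productOf X (F.fibre o) L)) 1 *
      W.map (snd (X i) (productOf X (F.fibre o) L)) (φ o) ∈
        Q.sp ((X i).prod (productOf X (F.fibre o) L))
    rw [e1]
    exact Q.sys.map _ h3

theorem varFor_descend {Q : ClassPred W}
    (hpt : ∀ i, ∃ z, (X i).IsCyc (X i).dim z ∧ (X i).V.degCycle z ≠ 0) (L : List ι)
    (h : VarFor Q (F.times X L) o) : VarFor Q F o := by
  induction L with
  | nil => exact h
  | cons i L ih => exact ih (varFor_step (hpt i) h)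

end descend

variable {ι : Type} {N s : ι → ℕ} {B : ℕ} {X : ι → 𝒱.Obj} {S : Type} {F : Family T.W S} {o : S}

theorem ncVariational_iff_varFor {F : Family T.W S} :
    NCVariational F o ↔ VarFor (algPred T.W) F o := by
  unfold NCVariational VarFor
  simp only [algSum_iff]

/-- **The noncommutative variational Hodge conjecture.** -/
theorem variational_iff (hX : AreFermatFactors T N s X) (hB : 0 < B)
    (hN : ∀ i, IsLarge (N i) (s i) B) (hc : F.IsConnected o)
    (hZ : HasKPieces T B (F.fibre o) (F.top o)) {L : List ι} (hL : L.Nodup) :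
    NCVariational (F.times X L) o ↔ NCVariational F o := by
  have : ∀ i, NeZero (N i) := fun i => ⟨(hX.prime i).ne_zero⟩
  obtain ⟨ε, hε, hZ⟩ := kpieces_of hZ
  obtain ⟨D⟩ := hX.exists_data hB hN hZ
  rw [ncVariational_iff_varFor, ncVariational_iff_varFor]
  refine ⟨varFor_descend hX.point L, fun h φ h1 h3 s => ?_⟩
  have h4 := D.section_ext hε hc (algPred T.W) (fun Y j c hc => ?_) L hL φ h1 h3
  · exact ext_section_sp (Q := algPred T.W) (s := s) (fun ψ hψ => h ψ hψ.1 hψ.2 s) L φ h4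
  · obtain ⟨z, hz, rfl⟩ := (isAlg_iff T.rat).2 hc
    exact T.cyc Y j z hz

/-- **Global sections of Hodge classes.** -/
theorem hodge_sections (hX : AreFermatFactors T N s X) (hB : 0 < B)
    (hN : ∀ i, IsLarge (N i) (s i) B) (hc : F.IsConnected o)
    (hZ : HasKPieces T B (F.fibre o) (F.top o)) {L : List ι} (hL : L.Nodup)
    {φ : ∀ s, T.W.H ((F.times X L).fibre s)} (h : IsHodgeSection T (F.times X L) o φ) :
    IsExtSection X F (IsHodgeSection T F o) L φ := by
  have : ∀ i, NeZero (N i) := fun i => ⟨(hX.prime i).ne_zero⟩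
  obtain ⟨ε, hε, hZ⟩ := kpieces_of hZ
  obtain ⟨D⟩ := hX.exists_data hB hN hZ
  have h1 : IsHodgeSection T F o =
      fun ψ => F.IsSection ψ ∧ ψ o ∈ (hodgeP T).sp (F.fibre o) := by
    funext ψ
    exact propext (and_congr_right fun _ => hodgeSum_iff)
  rw [h1]
  exact D.section_ext hε hc (hodgeP T) (fun Y j c hc => hc) L hL φ h.1 (hodgeSum_iff.1 h.2)

end Pool.Agent.U231.HF
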